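import Mathlib
import Pool.Agent.Helper13.LT.A1
import Pool.Agent.Helper37.TH.V0

/-!
# Places of the algebraic closure of a rational function field: residues and units
-/

universe u

namespace TW

open Polynomial IsLocalRing Pool.Agent.LT

section lam

variable {E K : Type u} [Field E] [IsAlgClosed E] [CharZero E] [Field K] [Algebra E K]
  {O : ValuationSubring K} {t : K}

/-- The residue map with values in `E`. -/
theorem exists_lam [IsAlgClosed K] (h : Base E O t) : ∃ lam : O →+* E,
    (∀ (e : E) (he : algebraMap E K e ∈ O), lam ⟨_, he⟩ = e) ∧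
      ∀ x : O, lam x = 0 ↔ O.valuation (x : K) < 1 := by
  let f : E →+* ResidueField O := (residue O).comp
    ((algebraMap E K).codRestrict O.toSubring h.const)
  have hs : Function.Surjective f := by
    intro y
    obtain ⟨x, rfl⟩ := residue_surjective y
    obtain ⟨e, he⟩ := h.exists_residue x.2
    refine ⟨e, ?_⟩
    change residue O _ = residue O x
    rw [eq_comm, ← sub_eq_zero, ← map_sub, residue_eq_zero_iff, O.valuation_lt_one_iff]
    exact (O.mem_nonunits_iff).1 he
  let e := RingEquiv.ofBijective f ⟨f.injective, hs⟩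
  refine ⟨e.symm.toRingHom.comp (residue O), fun a ha => ?_, fun x => ?_⟩
  · change e.symm (residue O ⟨_, ha⟩) = a
    rw [RingEquiv.symm_apply_eq]
    rfl
  · change e.symm (residue O x) = 0 ↔ _
    rw [map_eq_zero_iff _ e.symm.injective, residue_eq_zero_iff, O.valuation_lt_one_iff]

end lam

section units

variable {E K : Type u} [Field E] [Field K] [Algebra E K]

/-- two-variable evaluation -/
noncomputable def ev2 (R : Type*) {A : Type*} [CommRing R] [CommRing A] [Algebra R A] (t y : A) :
    R[X][X] →+* A := eval₂RingHom (aeval t : R[X] →ₐ[R] A).toRingHom y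

lemma ev2_C {R A : Type*} [CommRing R] [CommRing A] [Algebra R A] (t y : A) (p : R[X]) :
    ev2 R t y (C p) = aeval t p := by
  change eval₂ _ _ (C p) = _
  rw [eval₂_C]
  rfl

lemma ev2_X {R A : Type*} [CommRing R] [CommRing A] [Algebra R A] (t y : A) :
    ev2 R t y X = y := by
  change eval₂ _ _ X = _
  rw [eval₂_X]

lemma map_ev2 {R A B : Type*} [CommRing R] [CommRing A] [CommRing B] [Algebra R A] [Algebra R B]
    (f : A →+* B) (hf : ∀ r : R, f (algebraMap R A r) = algebraMap R B r) (t y : A)
    (P : R[X][X]) : f (ev2 R t y P) = ev2 R (f t) (f y) P := by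
  have h1 : f.comp (ev2 R t y) = ev2 R (f t) (f y) := by
    apply Polynomial.ringHom_ext'
    · apply Polynomial.ringHom_ext'
      · ext r
        simp only [RingHom.comp_apply]
        rw [ev2_C, ev2_C, aeval_C, aeval_C, hf]
      · simp only [RingHom.comp_apply]
        rw [ev2_C, ev2_C, aeval_X, aeval_X]
    · simp only [RingHom.comp_apply]
      rw [ev2_X, ev2_X]
  exact congrArg (fun g : R[X][X] →+* B => g P) h1

lemma val_const {O : ValuationSubring K} (hE : ∀ e : E, algebraMap E K e ∈ O) {e : E}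
    (he : e ≠ 0) : O.valuation (algebraMap E K e) = 1 := by
  have h1 := (O.valuation_le_one_iff _).2 (hE e)
  have h2 := (O.valuation_le_one_iff _).2 (hE e⁻¹)
  have h3 : O.valuation (algebraMap E K e) ≠ 0 :=
    (Valuation.ne_zero_iff _).2 ((_root_.map_ne_zero _).2 he)
  rw [map_inv₀, map_inv₀] at h2
  exact le_antisymm h1 ((inv_le_one₀ (zero_lt_iff.2 h3)).1 h2)

lemma mem_O {O : ValuationSubring K} (hE : ∀ e : E, algebraMap E K e ∈ O) {T : K} {τ : E}
    (hT : O.valuation (T - algebraMap E K τ) < 1) : T ∈ O := by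
  have h1 := O.add_mem _ _ ((O.valuation_le_one_iff _).1 hT.le) (hE τ)
  rwa [sub_add_cancel] at h1

lemma aeval_mem_O {F : Type*} [Field F] [Algebra F K] {O : ValuationSubring K}
    (hF : ∀ e : F, algebraMap F K e ∈ O) {T : K} (hT : T ∈ O) (P : F[X]) : aeval T P ∈ O := by
  rw [aeval_eq_sum_range]
  refine sum_mem fun l _ => ?_
  rw [Algebra.smul_def]
  exact mul_mem (hF _) (pow_mem hT _)

lemma val_sub_aeval {O : ValuationSubring K} (hE : ∀ e : E, algebraMap E K e ∈ O) {T : K} {τ : E}
    (hT : O.valuation (T - algebraMap E K τ) < 1) (P : E[X]) :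
    O.valuation (aeval T P - algebraMap E K (P.eval τ)) < 1 := by
  have hTO := mem_O hE hT
  obtain ⟨Q, hQ⟩ : (X - C τ) ∣ P - C (P.eval τ) := by
    rw [dvd_iff_isRoot, IsRoot.def, eval_sub, eval_C, sub_self]
  have h1 : aeval T P - algebraMap E K (P.eval τ) = (T - algebraMap E K τ) * aeval T Q := by
    have h2 := congrArg (aeval T) hQ
    rw [map_sub, map_mul, map_sub, aeval_C, aeval_X, aeval_C] at h2
    exact h2
  rw [h1, map_mul]
  exact lt_of_le_of_lt (mul_le_of_le_one_right' ((O.valuation_le_one_iff _).2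
    (aeval_mem_O hE hTO Q))) hT

lemma val_aeval_one {O : ValuationSubring K} (hE : ∀ e : E, algebraMap E K e ∈ O) {T : K} {τ : E}
    (hT : O.valuation (T - algebraMap E K τ) < 1) {P : E[X]} (hP : P.eval τ ≠ 0) :
    O.valuation (aeval T P) = 1 := by
  have h1 := val_sub_aeval hE hT P
  have h2 := val_const hE hP
  have h3 := Valuation.map_add_eq_of_lt_right O.valuation
    (x := aeval T P - algebraMap E K (P.eval τ)) (y := algebraMap E K (P.eval τ))
    (by rw [h2]; exact h1)
  rwa [sub_add_cancel, h2] at h3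

lemma exists_good_mem {F : Type*} [Field F] [Algebra F E] [Algebra F K] [IsScalarTower F E K]
    {T x : K} (hx : IsAlgebraic (IntermediateField.adjoin F {T}) x) : ∃ P : F[X], P ≠ 0 ∧
      ∀ (O : ValuationSubring K) (τ : E), (∀ e : E, algebraMap E K e ∈ O) →
        O.valuation (T - algebraMap E K τ) < 1 → aeval τ P ≠ 0 → x ∈ O := by
  obtain ⟨n, q, hqn, hsum⟩ := A1.exists_rel T x hx
  refine ⟨q n, ?_, fun O τ hE hT hP => ?_⟩
  · rintro h0
    rw [h0, map_zero] at hqn
    exact hqn rfl
  have hF : ∀ e : F, algebraMap F K e ∈ O := fun e => by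
    rw [IsScalarTower.algebraMap_apply F E K]; exact hE _
  have hTO := mem_O hE hT
  have h1 : O.valuation (aeval T (q n)) = 1 := by
    have h2 := val_aeval_one hE hT (P := (q n).map (algebraMap F E)) (by
      rw [eval_map_algebraMap]; exact hP)
    rwa [aeval_map_algebraMap] at h2
  have hu : (aeval T (q n))⁻¹ ∈ O := by
    rw [← O.valuation_le_one_iff, map_inv₀, h1, inv_one]
  rcases Nat.eq_zero_or_pos n with hn | hn
  · subst hn
    exfalso
    simp only [Nat.zero_add, Finset.range_one, Finset.sum_singleton, pow_zero, mul_one] at hsum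
    exact hqn hsum
  refine TH.mem_of_monic O (e := n)
    (c := fun i : Fin n => (aeval T (q n))⁻¹ * aeval T (q i)) (fun i =>
      mul_mem hu (aeval_mem_O hF hTO _)) ?_
  rw [Finset.sum_range_succ] at hsum
  have h3 : ∑ i : Fin n, (aeval T (q n))⁻¹ * aeval T (q i) * x ^ (i : ℕ) =
      (aeval T (q n))⁻¹ * ∑ i ∈ Finset.range n, aeval T (q i) * x ^ i := by
    rw [Finset.mul_sum, ← Fin.sum_univ_eq_sum_range (fun i => (aeval T (q n))⁻¹ *
      (aeval T (q i) * x ^ i))]
    refine Finset.sum_congr rfl fun i _ => ?_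
    ring
  rw [h3, eq_neg_of_add_eq_zero_left hsum]
  field_simp
  ring

/-- A nonzero algebraic element is a unit at almost all points. -/
lemma exists_good {F : Type*} [Field F] [Algebra F E] [Algebra F K] [IsScalarTower F E K]
    {T x : K} (hx0 : x ≠ 0) (hx : IsAlgebraic (IntermediateField.adjoin F {T}) x) :
    ∃ P : F[X], P ≠ 0 ∧
      ∀ (O : ValuationSubring K) (τ : E), (∀ e : E, algebraMap E K e ∈ O) →
        O.valuation (T - algebraMap E K τ) < 1 → aeval τ P ≠ 0 → O.valuation x = 1 := by
  obtain ⟨P, hP0, hP⟩ := exists_good_mem (E := E) hx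
  obtain ⟨P', hP0', hP'⟩ := exists_good_mem (E := E) hx.inv
  refine ⟨P * P', mul_ne_zero hP0 hP0', fun O τ hE hT hPP => ?_⟩
  rw [map_mul] at hPP
  have h1 := (O.valuation_le_one_iff _).2 (hP O τ hE hT (left_ne_zero_of_mul hPP))
  have h2 := (O.valuation_le_one_iff _).2 (hP' O τ hE hT (right_ne_zero_of_mul hPP))
  have h3 : O.valuation x ≠ 0 := (Valuation.ne_zero_iff _).2 hx0
  rw [map_inv₀] at h2
  exact le_antisymm h1 ((inv_le_one₀ (zero_lt_iff.2 h3)).1 h2)

end units

end TW
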