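import Mathlib
import Pool.Agent.Helper37.TW.T1
import Pool.Agent.Helper13.LT.L3

/-!
# Places of the algebraic closure of a rational function field: values and automorphisms
-/

universe u

namespace TW

open Polynomial IsLocalRing Pool.Agent.LT Pool.Agent.SC

section descent

variable {E Ω : Type u} [Field E] [Field Ω] [Algebra E Ω] {W : ValuationSubring Ω} {T θ : Ω}
  {τ l : E}

lemma ev2_mem_W {R : Type*} [CommRing R] [Algebra R Ω] {O : ValuationSubring Ω}
    (hR : ∀ e : R, algebraMap R Ω e ∈ O) {t y : Ω} (ht : t ∈ O) (hy : y ∈ O) (P : R[X][X]) :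
    ev2 R t y P ∈ O := by
  change eval₂ _ _ P ∈ O
  rw [eval₂_eq_sum_range]
  refine sum_mem fun i _ => mul_mem ?_ (pow_mem hy _)
  change aeval t (P.coeff i) ∈ O
  rw [aeval_eq_sum_range]
  refine sum_mem fun l _ => ?_
  rw [Algebra.smul_def]
  exact mul_mem (hR _) (pow_mem ht _)

/-- values of polynomials -/
lemma cong (hE : ∀ e : E, algebraMap E Ω e ∈ W) (hT : W.valuation (T - algebraMap E Ω τ) < 1)
    (hθ : W.valuation (θ - algebraMap E Ω l) < 1) (P : E[X][X]) :
    W.valuation (ev2 E T θ P - algebraMap E Ω (ev2 E τ l P)) < 1 := by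
  have hTW := mem_O hE hT
  have hθW := mem_O hE hθ
  let f1 : E[X][X] →+* W := (ev2 E T θ).codRestrict W.toSubring (ev2_mem_W hE hTW hθW)
  let f2 : E[X][X] →+* W := ((algebraMap E Ω).comp (ev2 E τ l)).codRestrict W.toSubring
    (fun P => hE _)
  have h1 : (residue W).comp f1 = (residue W).comp f2 := by
    have key : ∀ P : E[X][X], W.valuation (ev2 E T θ P - algebraMap E Ω (ev2 E τ l P)) < 1 →
        (residue W).comp f1 P = (residue W).comp f2 P := by
      intro P hP
      rw [← sub_eq_zero, RingHom.comp_apply, RingHom.comp_apply, ← map_sub,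
        residue_eq_zero_iff, W.valuation_lt_one_iff]
      exact hP
    apply Polynomial.ringHom_ext'
    · apply Polynomial.ringHom_ext'
      · ext r
        refine key (C (C r)) ?_
        rw [ev2_C, ev2_C, aeval_C, aeval_C]
        simp
      · refine key (C X) ?_
        rw [ev2_C, ev2_C, aeval_X, aeval_X]
        exact hT
    · refine key X ?_
      rw [ev2_X, ev2_X]
      exact hθ
  have h2 := congrArg (fun g : E[X][X] →+* ResidueField W => g P) h1
  simp only [RingHom.comp_apply] at h2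
  rw [← sub_eq_zero, ← map_sub, residue_eq_zero_iff, W.valuation_lt_one_iff] at h2
  exact h2

lemma split_of_eval (P : E[X][X]) (hP : ev2 E τ l P = 0) :
    ∃ (A : E[X]) (B : E[X][X]), P = (X - C (C l)) * B + C ((X - C τ) * A) := by
  obtain ⟨B, hB⟩ : (X - C (C l)) ∣ P - C (P.eval (C l)) := by
    rw [dvd_iff_isRoot, IsRoot.def, eval_sub, eval_C, sub_self]
  have h1 : aeval τ (P.eval (C l)) = 0 := by
    have h2 : P = (X - C (C l)) * B + C (P.eval (C l)) := by rw [← hB]; ring
    have h3 := congrArg (ev2 E τ l) h2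
    rw [hP, map_add, map_mul, map_sub, ev2_X, ev2_C, ev2_C, aeval_C] at h3
    simpa using h3.symm
  obtain ⟨A, hA⟩ : (X - C τ) ∣ P.eval (C l) := by
    rw [dvd_iff_isRoot, IsRoot.def]
    simpa [coe_aeval_eq_eval] using h1
  refine ⟨A, B, ?_⟩
  rw [← hA, ← hB]
  ring

/-- the descent -/
lemma descent (hE : ∀ e : E, algebraMap E Ω e ∈ W) (hT : W.valuation (T - algebraMap E Ω τ) < 1)
    (hθ : W.valuation (θ - algebraMap E Ω l) < 1) {G : E[X][X]} (hG : ev2 E T θ G = 0)
    (hG' : W.valuation (ev2 E T θ (derivative G)) = 1) (P : E[X][X])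
    (hP : W.valuation (ev2 E T θ P) < 1) :
    ∃ P' : E[X][X], W.valuation (ev2 E T θ P) =
      W.valuation (T - algebraMap E Ω τ) * W.valuation (ev2 E T θ P') := by
  have hTW := mem_O hE hT
  have hθW := mem_O hE hθ
  have hz : ∀ Q : E[X][X], W.valuation (ev2 E T θ Q) < 1 → ev2 E τ l Q = 0 := by
    intro Q hQ
    by_contra h0
    have h1 := cong hE hT hθ Q
    have h2 := val_const hE h0
    have h3 := Valuation.map_add_eq_of_lt_right W.valuation
      (x := ev2 E T θ Q - algebraMap E Ω (ev2 E τ l Q)) (y := algebraMap E Ω (ev2 E τ l Q))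
      (by rw [h2]; exact h1)
    rw [sub_add_cancel, h2] at h3
    exact hQ.ne h3
  obtain ⟨N, Q, hQ⟩ := split_of_eval G (hz G (by rw [hG, map_zero]; exact zero_lt_one))
  obtain ⟨A, B, hAB⟩ := split_of_eval P (hz P hP)
  set q := ev2 E T θ Q with hq
  have hqW : q ∈ W := ev2_mem_W hE hTW hθW Q
  -- the relation
  have h1 : (θ - algebraMap E Ω l) * q + (T - algebraMap E Ω τ) * aeval T N = 0 := by
    have h2 := congrArg (ev2 E T θ) hQ
    rw [hG, map_add, map_mul, map_sub, ev2_X, ev2_C, ev2_C, aeval_C, map_mul, map_sub, aeval_X,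
      aeval_C] at h2
    exact h2.symm
  have hqu : W.valuation q = 1 := by
    have h2 : derivative G = Q + (X - C (C l)) * derivative Q := by
      rw [hQ, derivative_add, derivative_mul, derivative_sub, derivative_X, derivative_C,
        derivative_C, sub_zero, one_mul, add_zero]
    have h3 : ev2 E T θ (derivative G) = q + (θ - algebraMap E Ω l) * ev2 E T θ (derivative Q) := by
      rw [h2, map_add, map_mul, map_sub, ev2_X, ev2_C, aeval_C]
    have h4 : W.valuation ((θ - algebraMap E Ω l) * ev2 E T θ (derivative Q)) < 1 := by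
      rw [map_mul]
      exact lt_of_le_of_lt (mul_le_of_le_one_right' ((W.valuation_le_one_iff _).2
        (ev2_mem_W hE hTW hθW _))) hθ
    rw [h3] at hG'
    by_contra hne
    have h5 : W.valuation q < 1 := lt_of_le_of_ne ((W.valuation_le_one_iff _).2 hqW) hne
    exact (Valuation.map_add_lt _ h5 h4).ne hG'
  have h2 : q * ev2 E T θ P = (T - algebraMap E Ω τ) * ev2 E T θ (Q * C A - C N * B) := by
    have h3 := congrArg (ev2 E T θ) hAB
    rw [map_add, map_mul, map_sub, ev2_X, ev2_C, ev2_C, aeval_C, map_mul, map_sub, aeval_X,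
      aeval_C] at h3
    rw [h3, map_sub, map_mul, map_mul, ev2_C, ev2_C]
    linear_combination ev2 E T θ B * h1
  refine ⟨Q * C A - C N * B, ?_⟩
  have h3 := congrArg W.valuation h2
  rw [map_mul, map_mul, hqu, one_mul] at h3
  exact h3

/-- all values are powers of the value of `T - τ` -/
lemma vals [IsAlgClosed E] [CharZero E] [IsAlgClosed Ω]
    (hb : Base E W (T - algebraMap E Ω τ))
    (hθ : W.valuation (θ - algebraMap E Ω l) < 1) {G : E[X][X]} (hG : ev2 E T θ G = 0)
    (hG' : W.valuation (ev2 E T θ (derivative G)) = 1) (P : E[X][X]) (hP : ev2 E T θ P ≠ 0) :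
    ∃ i : ℕ, W.valuation (ev2 E T θ P) = W.valuation (T - algebraMap E Ω τ) ^ i := by
  have hE := hb.const
  have hT : W.valuation (T - algebraMap E Ω τ) < 1 := (W.mem_nonunits_iff).1 hb.t_mem
  have hTW := mem_O hE hT
  have hθW := mem_O hE hθ
  have ht0 : W.valuation (T - algebraMap E Ω τ) ≠ 0 := (Valuation.ne_zero_iff _).2 hb.t_ne
  obtain ⟨k, hk, j, hj⟩ := hb.exists_pow hP
  suffices H : ∀ (N : ℕ) (P : E[X][X]) (j : ℤ), ev2 E T θ P ≠ 0 →
      W.valuation (ev2 E T θ P) ^ k = W.valuation (T - algebraMap E Ω τ) ^ j → j ≤ N →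
      ∃ i : ℕ, W.valuation (ev2 E T θ P) = W.valuation (T - algebraMap E Ω τ) ^ i from
    H j.toNat P j hP hj (Int.self_le_toNat j)
  intro N
  induction N with
  | zero =>
    intro P j hP hj hjN
    have h1 : W.valuation (ev2 E T θ P) ≤ 1 :=
      (W.valuation_le_one_iff _).2 (ev2_mem_W hE hTW hθW P)
    refine ⟨0, ?_⟩
    rw [pow_zero]
    by_contra hne
    have h2 : W.valuation (ev2 E T θ P) < 1 := lt_of_le_of_ne h1 hne
    have h3 : W.valuation (ev2 E T θ P) ^ k < 1 := pow_lt_one₀ zero_le h2 hk.ne'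
    have h4 : 1 ≤ W.valuation (T - algebraMap E Ω τ) ^ j := by
      obtain ⟨n, hn⟩ : ∃ n : ℕ, j = -(n : ℤ) := ⟨(-j).toNat, by
        have := Int.toNat_of_nonneg (a := -j) (by push_cast at hjN; omega)
        omega⟩
      rw [hn, zpow_neg, zpow_natCast]
      exact (one_le_inv₀ (pow_pos (zero_lt_iff.2 ht0) _)).2 (pow_le_one' hT.le n)
    rw [hj] at h3
    exact absurd h3 (not_lt.2 h4)
  | succ N ih =>
    intro P j hP hj hjN
    have h1 : W.valuation (ev2 E T θ P) ≤ 1 :=
      (W.valuation_le_one_iff _).2 (ev2_mem_W hE hTW hθW P)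
    rcases h1.eq_or_lt with h2 | h2
    · exact ⟨0, by rw [pow_zero]; exact h2⟩
    · obtain ⟨P', hP'⟩ := descent hE hT hθ hG hG' P h2
      have hP0 : ev2 E T θ P' ≠ 0 := by
        intro h0
        rw [h0, map_zero, mul_zero] at hP'
        exact (Valuation.ne_zero_iff _).2 hP hP'
      obtain ⟨i, hi⟩ := ih P' (j - k) hP0 (by
        rw [hP', mul_pow] at hj
        rw [zpow_sub₀ ht0, zpow_natCast, ← hj, mul_div_cancel_left₀ _ (pow_ne_zero k ht0)]) (by
        push_cast at hjN
        omega)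
      exact ⟨i + 1, by rw [hP', hi, pow_succ, mul_comm]⟩

/-- elements of a field generated by two elements -/
lemma exists_div {F : Type*} [Field F] [Algebra F Ω] {x : Ω}
    (hx : x ∈ IntermediateField.adjoin F {T, θ}) :
    ∃ P P' : F[X][X], ev2 F T θ P' ≠ 0 ∧ x = ev2 F T θ P / ev2 F T θ P' := by
  let M : IntermediateField F Ω :=
    { carrier := {x | ∃ P P' : F[X][X], ev2 F T θ P' ≠ 0 ∧ x = ev2 F T θ P / ev2 F T θ P'}
      mul_mem' := by
        rintro a b ⟨P, P', hP', rfl⟩ ⟨Q, Q', hQ', rfl⟩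
        refine ⟨P * Q, P' * Q', by rw [map_mul]; exact mul_ne_zero hP' hQ', ?_⟩
        rw [map_mul, map_mul, div_mul_div_comm]
      add_mem' := by
        rintro a b ⟨P, P', hP', rfl⟩ ⟨Q, Q', hQ', rfl⟩
        refine ⟨P * Q' + P' * Q, P' * Q', by rw [map_mul]; exact mul_ne_zero hP' hQ', ?_⟩
        rw [map_mul, map_add, map_mul, map_mul, div_add_div _ _ hP' hQ']
      algebraMap_mem' := fun c => ⟨C (C c), 1, by rw [map_one]; exact one_ne_zero, by
        rw [map_one, div_one, ev2_C, aeval_C]⟩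
      inv_mem' := by
        rintro a ⟨P, P', hP', rfl⟩
        by_cases hP : ev2 F T θ P = 0
        · exact ⟨0, 1, by rw [map_one]; exact one_ne_zero, by rw [hP]; simp⟩
        · exact ⟨P', P, hP, by rw [inv_div]⟩ }
  have h1 : IntermediateField.adjoin F {T, θ} ≤ M := by
    rw [IntermediateField.adjoin_le_iff]
    rintro y (rfl | hy)
    · exact ⟨C X, 1, by rw [map_one]; exact one_ne_zero, by
        rw [map_one, div_one, ev2_C, aeval_X]⟩
    · rw [Set.mem_singleton_iff.1 hy]
      exact ⟨X, 1, by rw [map_one]; exact one_ne_zero, by rw [map_one, div_one, ev2_X]⟩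
  exact h1 hx

end descent

end TW
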