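import Mathlib
import Pool.Agent.Helper37.TW.T2

/-!
# Places of the algebraic closure of a rational function field: automorphisms in the decomposition group
-/

universe u

namespace TW

open Polynomial IsLocalRing Pool.Agent.LT Pool.Agent.SC

section gamma

variable {E Ω : Type u} [Field E] [Field Ω] [Algebra E Ω] {W : ValuationSubring Ω} {T θ : Ω}
  {τ l : E}

/-- extension of automorphisms of the constants -/
theorem exists_rho [IsAlgClosed Ω] (hT : Transcendental E T)
    (halg : ∀ z : Ω, IsAlgebraic (IntermediateField.adjoin E {T}) z) (σ : E ≃+* E) :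
    ∃ ρ : Ω ≃+* Ω, (∀ e, ρ (algebraMap E Ω e) = algebraMap E Ω (σ e)) ∧ ρ T = T := by
  let φ := RatFunc.algEquivOfTranscendental T hT
  let ρ1 : RatFunc E ≃+* RatFunc E := IsFractionRing.ringEquivOfRingEquiv (Polynomial.mapEquiv σ)
  let ρ0 : IntermediateField.adjoin E {T} ≃+* IntermediateField.adjoin E {T} :=
    (φ.symm.toRingEquiv.trans ρ1).trans φ.toRingEquiv
  have hρ1 : ∀ p : E[X], ρ1 (algebraMap E[X] (RatFunc E) p) =
      algebraMap E[X] (RatFunc E) (p.map (σ : E →+* E)) := fun p =>
    IsFractionRing.ringEquivOfRingEquiv_algebraMap (Polynomial.mapEquiv σ) p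
  have : Algebra.IsAlgebraic (IntermediateField.adjoin E {T}) Ω := ⟨halg⟩
  have : IsAlgClosure (IntermediateField.adjoin E {T}) Ω := ⟨inferInstance, inferInstance⟩
  refine ⟨IsAlgClosure.equivOfEquiv Ω Ω ρ0, fun e => ?_, ?_⟩
  · have h1 : algebraMap E Ω e = algebraMap (IntermediateField.adjoin E {T}) Ω
        (algebraMap E (IntermediateField.adjoin E {T}) e) := rfl
    rw [h1, IsAlgClosure.equivOfEquiv_algebraMap]
    have h2 : ρ0 (algebraMap E (IntermediateField.adjoin E {T}) e) =
        algebraMap E (IntermediateField.adjoin E {T}) (σ e) := by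
      change φ (ρ1 (φ.symm (algebraMap E (IntermediateField.adjoin E {T}) e))) = _
      have h3 : φ.symm (algebraMap E (IntermediateField.adjoin E {T}) e) =
          algebraMap E[X] (RatFunc E) (C e) := by
        rw [φ.symm.commutes]
        rfl
      rw [h3, hρ1, map_C]
      exact φ.commutes (σ e)
    rw [h2]
    rfl
  · have h1 : T = algebraMap (IntermediateField.adjoin E {T}) Ω
        (IntermediateField.AdjoinSimple.gen E T) := rfl
    refine (congrArg (IsAlgClosure.equivOfEquiv Ω Ω ρ0) h1).trans ?_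
    rw [IsAlgClosure.equivOfEquiv_algebraMap]
    have h2 : ρ0 (IntermediateField.AdjoinSimple.gen E T) =
        IntermediateField.AdjoinSimple.gen E T := by
      change φ (ρ1 (φ.symm (IntermediateField.AdjoinSimple.gen E T))) = _
      have h3 : φ.symm (IntermediateField.AdjoinSimple.gen E T) = RatFunc.X :=
        RatFunc.algEquivOfTranscendental_symm_gen T hT
      rw [h3, ← RatFunc.algebraMap_X, hρ1, map_X, RatFunc.algebraMap_X]
      apply Subtype.ext
      exact RatFunc.algEquivOfTranscendental_X T hT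
    rw [h2]
    rfl

/-- lifting to the decomposition group -/
theorem exists_gamma0 [CharZero E] [IsAlgClosed Ω]
    (hb : Base E W (T - algebraMap E Ω τ))
    (hTtr : Transcendental E T) (halg : ∀ z : Ω, IsAlgebraic (IntermediateField.adjoin E {T}) z)
    (σ : E ≃+* E) (hσ : σ τ = τ) :
    ∃ γ : Ω ≃+* Ω, (∀ z, γ z ∈ W ↔ z ∈ W) ∧ (∀ e, γ (algebraMap E Ω e) = algebraMap E Ω (σ e)) ∧
      γ T = T := by
  obtain ⟨ρ, hρ1, hρ2⟩ := exists_rho hTtr halg σ
  have hΩ0 : CharZero Ω := charZero_of_injective_algebraMap (algebraMap E Ω).injective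
  set u : Ω := T - algebraMap E Ω τ with hu
  have hρu : ρ u = u := by rw [hu, map_sub, hρ2, hρ1, hσ]
  have hadj : IntermediateField.adjoin E {T} = IntermediateField.adjoin E {u} := by
    apply le_antisymm
    · rw [IntermediateField.adjoin_simple_le_iff]
      have h1 : T = u + algebraMap E Ω τ := by rw [hu]; ring
      rw [h1]
      exact add_mem (IntermediateField.mem_adjoin_simple_self _ _)
        (IntermediateField.algebraMap_mem _ _)
    · rw [IntermediateField.adjoin_simple_le_iff]
      exact sub_mem (IntermediateField.mem_adjoin_simple_self _ _)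
        (IntermediateField.algebraMap_mem _ _)
  rw [hadj] at halg
  have h1 : Algebra.IsAlgebraic (IntermediateField.adjoin E {u}) Ω := ⟨halg⟩
  have h2 : IsAlgClosure (IntermediateField.adjoin E {u}) Ω := ⟨inferInstance, inferInstance⟩
  have h3 : IsGalois (IntermediateField.adjoin E {u}) Ω := inferInstance
  have hlt : W.valuation u < 1 := (W.mem_nonunits_iff).1 hb.t_mem
  have hlt' : (W.comap (ρ : Ω →+* Ω)).valuation u < 1 := by
    have h4 : u ∈ W.nonunits := hb.t_mem
    rw [← ValuationSubring.mem_nonunits_iff, ValuationSubring.mem_nonunits_iff_or] at *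
    right
    rcases h4 with h4 | h4
    · exact absurd h4 hb.t_ne
    · intro h5
      apply h4
      have h6 : ρ u⁻¹ ∈ W := h5
      rwa [map_inv₀, hρu] at h6
  obtain ⟨σ', hσ'⟩ := exists_conj_val (L := IntermediateField.adjoin E {u}) W
    (W.comap (ρ : Ω →+* Ω)) (fun c =>
      mem_iff_mem (L := E) hb.t_ne c.2 hb.const hlt (fun e => by
        change ρ (algebraMap E Ω e) ∈ W
        rw [hρ1]
        exact hb.const _) hlt')
  refine ⟨σ'.toRingEquiv.trans ρ, fun z => hσ' z, fun e => ?_, ?_⟩
  · change ρ (σ' (algebraMap E Ω e)) = _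
    have h4 : σ' (algebraMap E Ω e) = algebraMap E Ω e :=
      σ'.commutes (algebraMap E (IntermediateField.adjoin E {u}) e)
    rw [h4, hρ1]
  · change ρ (σ' T) = T
    have h4 : σ' T = T := by
      have h5 : T ∈ IntermediateField.adjoin E {u} := by
        rw [← hadj]
        exact IntermediateField.mem_adjoin_simple_self _ _
      exact σ'.commutes ⟨T, h5⟩
    rw [h4, hρ2]

/-- uniqueness of roots with given residue -/
lemma root_unique {R : Type*} [CommRing R] [Algebra R Ω] (hR : ∀ r : R, algebraMap R Ω r ∈ W)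
    (hT : T ∈ W) (hθ : θ ∈ W) {G : R[X][X]} (hG : ev2 R T θ G = 0)
    (hG' : W.valuation (ev2 R T θ (derivative G)) = 1) {θ' : Ω} (hG2 : ev2 R T θ' G = 0)
    (hθ' : W.valuation (θ' - θ) < 1) : θ' = θ := by
  let f : R[X] →+* W := ((aeval T : R[X] →ₐ[R] Ω).toRingHom).codRestrict W.toSubring (fun P => by
    change aeval T P ∈ W
    rw [aeval_eq_sum_range]
    refine sum_mem fun l _ => ?_
    rw [Algebra.smul_def]
    exact mul_mem (hR _) (pow_mem hT _))
  let g : W[X] := G.map f
  have hθ'W : θ' ∈ W := by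
    have h1 := W.add_mem _ _ ((W.valuation_le_one_iff _).1 hθ'.le) hθ
    rwa [sub_add_cancel] at h1
  have key : ∀ (P : R[X][X]) (y : W), (((P.map f).eval y : W) : Ω) = ev2 R T (y : Ω) P := by
    intro P y
    rw [eval_map]
    change W.subtype (eval₂ f y P) = _
    rw [hom_eval₂]
    rfl
  have h1 : g.eval ⟨θ, hθ⟩ = 0 := Subtype.ext ((key G _).trans hG)
  have h2 : g.eval ⟨θ', hθ'W⟩ = 0 := Subtype.ext ((key G _).trans hG2)
  obtain ⟨k, hk⟩ := g.binomExpansion ⟨θ, hθ⟩ (⟨θ', hθ'W⟩ - ⟨θ, hθ⟩)
  rw [add_sub_cancel, h1, h2, zero_add] at hk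
  have h3 : (((g.derivative.eval ⟨θ, hθ⟩ : W)) : Ω) = ev2 R T θ (derivative G) := by
    have h9 := key (derivative G) ⟨θ, hθ⟩
    rw [← derivative_map] at h9
    exact h9
  have h4 := congrArg Subtype.val hk
  have h5 : (0 : Ω) = ev2 R T θ (derivative G) * (θ' - θ) + (k : Ω) * (θ' - θ) ^ 2 := by
    rw [← h3]
    exact h4
  have h6 : (θ' - θ) * (ev2 R T θ (derivative G) + k * (θ' - θ)) = 0 := by
    rw [h5]; ring
  rcases mul_eq_zero.1 h6 with h7 | h7
  · exact sub_eq_zero.1 h7
  · exfalso
    have h8 : W.valuation ((k : Ω) * (θ' - θ)) < 1 := by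
      rw [map_mul]
      exact lt_of_le_of_lt (mul_le_of_le_one_left' ((W.valuation_le_one_iff _).2 k.2)) hθ'
    rw [eq_neg_of_add_eq_zero_left h7, Valuation.map_neg] at hG'
    exact h8.ne hG'

end gamma

end TW
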