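import Mathlib
import Pool.Agent.Helper37.TW.T3
import Pool.Agent.Helper10.UL.Model

/-!
# One place: values of `k`, and automorphisms over `k` in the decomposition group
-/

universe u

namespace TW

open Polynomial IsLocalRing Pool.Agent.LT Pool.Agent.SC

section place

variable {E Ω : Type u} [Field E] [Field Ω] [Algebra E Ω]

/-- Places above `τ` exist. -/
theorem exists_place {T : Ω} (hT : Transcendental E T)
    (halg : ∀ z : Ω, IsAlgebraic (IntermediateField.adjoin E {T}) z) (τ : E) :
    ∃ W : ValuationSubring Ω, Base E W (T - algebraMap E Ω τ) := by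
  have h1 : AlgebraicIndependent E ![T] :=
    algebraicIndependent_unique_type_iff.2 hT
  obtain ⟨W, hW1, hW2⟩ := UL.exists_W h1 ![τ]
  have h2 := hW2 0
  rw [Matrix.cons_val_zero, Matrix.cons_val_zero] at h2
  have hne : T - algebraMap E Ω τ ≠ 0 := by
    intro h
    apply hT
    rw [sub_eq_zero.1 h]
    exact isAlgebraic_algebraMap τ
  refine ⟨W, hW1, hne, (W.mem_nonunits_iff).2 h2, ?_⟩
  have hadj : IntermediateField.adjoin E {T} =
      IntermediateField.adjoin E {T - algebraMap E Ω τ} := by
    apply le_antisymm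
    · rw [IntermediateField.adjoin_simple_le_iff]
      have h1 : T = (T - algebraMap E Ω τ) + algebraMap E Ω τ := by ring
      rw [h1]
      exact add_mem (by
        rw [sub_add_cancel]
        exact IntermediateField.mem_adjoin_simple_self _ _)
        (IntermediateField.algebraMap_mem _ _)
    · rw [IntermediateField.adjoin_simple_le_iff]
      exact sub_mem (IntermediateField.mem_adjoin_simple_self _ _)
        (IntermediateField.algebraMap_mem _ _)
  rw [← hadj]
  exact halg

lemma lam_sub {W : ValuationSubring Ω} (hE : ∀ e : E, algebraMap E Ω e ∈ W) {lam : W →+* E}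
    (hlam : ∀ (e : E) (he : algebraMap E Ω e ∈ W), lam ⟨_, he⟩ = e)
    (hlam0 : ∀ x : W, lam x = 0 ↔ W.valuation (x : Ω) < 1) (z : W) :
    W.valuation ((z : Ω) - algebraMap E Ω (lam z)) < 1 := by
  have h1 := (hlam0 (z - ⟨algebraMap E Ω (lam z), hE _⟩)).1 (by
    rw [map_sub, hlam, sub_self])
  exact h1

lemma lam_eq {W : ValuationSubring Ω} (hE : ∀ e : E, algebraMap E Ω e ∈ W) {lam : W →+* E}
    (hlam : ∀ (e : E) (he : algebraMap E Ω e ∈ W), lam ⟨_, he⟩ = e)
    (hlam0 : ∀ x : W, lam x = 0 ↔ W.valuation (x : Ω) < 1) {z : W} {e : E}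
    (h : W.valuation ((z : Ω) - algebraMap E Ω e) < 1) : lam z = e := by
  have h1 := (hlam0 (z - ⟨algebraMap E Ω e, hE _⟩)).2 h
  rw [map_sub, hlam] at h1
  exact sub_eq_zero.1 h1

lemma val_lt_of_mem_iff {W : ValuationSubring Ω} {γ : Ω ≃+* Ω} (hγ : ∀ z, γ z ∈ W ↔ z ∈ W)
    {z : Ω} (hz : W.valuation z < 1) : W.valuation (γ z) < 1 := by
  rw [← ValuationSubring.mem_nonunits_iff, ValuationSubring.mem_nonunits_iff_or] at *
  rcases hz with hz | hz
  · left; rw [hz, map_zero]
  · right
    intro h
    apply hz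
    rw [← hγ, map_inv₀]
    exact h

/-- a simple zero -/
lemma val_aeval_eq {W : ValuationSubring Ω} (hE : ∀ e : E, algebraMap E Ω e ∈ W) {T : Ω} {τ : E}
    (hT : W.valuation (T - algebraMap E Ω τ) < 1) {v : E[X]} (hv : v.eval τ = 0)
    (hv' : (derivative v).eval τ ≠ 0) :
    W.valuation (aeval T v) = W.valuation (T - algebraMap E Ω τ) := by
  obtain ⟨Q, hQ⟩ : (X - C τ) ∣ v := by
    rw [dvd_iff_isRoot, IsRoot.def, hv]
  have h1 : Q.eval τ ≠ 0 := by
    rw [hQ, derivative_mul, derivative_sub, derivative_X, derivative_C, sub_zero, one_mul,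
      eval_add, eval_mul, eval_sub, eval_X, eval_C, sub_self, zero_mul, add_zero] at hv'
    exact hv'
  have h2 := val_aeval_one hE hT h1
  rw [hQ, map_mul, map_mul, h2, mul_one, map_sub, aeval_X, aeval_C]

end place

section ext

variable {F E k C : Type u} [Field F] [CharZero F] [Field E] [IsAlgClosed E] [Algebra F E]
  [Algebra.IsAlgebraic F E] [Field C] [IsAlgClosed C] [Algebra F C] [Algebra E C]
  [IsScalarTower F E C] [Field k] [Algebra F k] [Algebra k C] [IsScalarTower F k C]

omit [CharZero F] [Algebra.IsAlgebraic F E] in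
/-- the values of the elements of `k` -/
theorem vals_k [CharZero E] {T θ : C} {τ l : E} {W : ValuationSubring C}
    (hb : Base E W (T - algebraMap E C τ))
    (hθ : W.valuation (θ - algebraMap E C l) < 1) {G : F[X][X]} (hG : ev2 F T θ G = 0)
    (hG' : W.valuation (ev2 F T θ (derivative G)) = 1) {z : C}
    (hz : z ∈ IntermediateField.adjoin F {T, θ}) (hz0 : z ≠ 0) :
    ∃ i : ℤ, W.valuation z = W.valuation (T - algebraMap E C τ) ^ i := by
  have hmap : ∀ P : F[X][X], ev2 F T θ P = ev2 E T θ (P.map (mapRingHom (algebraMap F E))) := by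
    have h1 : ev2 F T θ = (ev2 E T θ).comp (mapRingHom (mapRingHom (algebraMap F E))) := by
      apply Polynomial.ringHom_ext'
      · apply Polynomial.ringHom_ext'
        · ext r
          simp only [RingHom.comp_apply, coe_mapRingHom, map_C]
          rw [ev2_C, ev2_C, aeval_C, aeval_C, IsScalarTower.algebraMap_apply F E C]
        · simp only [RingHom.comp_apply, coe_mapRingHom, map_C, map_X]
          rw [ev2_C, ev2_C, aeval_X, aeval_X]
      · simp only [coe_mapRingHom, map_X, RingHom.comp_apply]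
        rw [ev2_X, ev2_X]
    intro P
    rw [h1]
    rfl
  have ht0 : W.valuation (T - algebraMap E C τ) ≠ 0 := (Valuation.ne_zero_iff _).2 hb.t_ne
  rw [hmap] at hG
  rw [hmap, ← derivative_map] at hG'
  obtain ⟨P, P', hP', rfl⟩ := exists_div hz
  have hP : ev2 F T θ P ≠ 0 := by
    intro h
    rw [h, zero_div] at hz0
    exact hz0 rfl
  rw [hmap] at hP hP'
  obtain ⟨i, hi⟩ := vals hb hθ hG hG' _ hP
  obtain ⟨j, hj⟩ := vals hb hθ hG hG' _ hP'
  refine ⟨(i : ℤ) - j, ?_⟩
  rw [map_div₀, hmap P, hmap P', hi, hj, zpow_sub₀ ht0, zpow_natCast, zpow_natCast]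

/-- an automorphism over `k` in the decomposition group moving `b` -/
theorem exists_gamma [CharZero E] {T θ : k} (hadj : IntermediateField.adjoin F {T, θ} = ⊤)
    {τ : E} {W : ValuationSubring C}
    (hb : Base E W (algebraMap k C T - algebraMap E C τ))
    (hTtr : Transcendental E (algebraMap k C T))
    (halg : ∀ z : C, IsAlgebraic (IntermediateField.adjoin E {algebraMap k C T}) z)
    {lam : W →+* E} (hlam : ∀ (e : E) (he : algebraMap E C e ∈ W), lam ⟨_, he⟩ = e)
    (hlam0 : ∀ x : W, lam x = 0 ↔ W.valuation (x : C) < 1)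
    {G : F[X][X]} (hG : ev2 F (algebraMap k C T) (algebraMap k C θ) G = 0)
    (hG' : W.valuation (ev2 F (algebraMap k C T) (algebraMap k C θ) (derivative G)) = 1)
    (hθ : algebraMap k C θ ∈ W) {b : C} (hbW : b ∈ W)
    (hnot : lam ⟨b, hbW⟩ ∉ IntermediateField.adjoin F {τ, lam ⟨_, hθ⟩}) :
    ∃ γ : C ≃ₐ[k] C, (∀ z, γ z ∈ W ↔ z ∈ W) ∧ γ b ≠ b := by
  set K1 := IntermediateField.adjoin F {τ, lam ⟨_, hθ⟩} with hK1
  have hE := hb.const
  have hF : ∀ e : F, algebraMap F C e ∈ W := fun e => by
    rw [IsScalarTower.algebraMap_apply F E C]; exact hE _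
  have hT : W.valuation (algebraMap k C T - algebraMap E C τ) < 1 := (W.mem_nonunits_iff).1 hb.t_mem
  have hTW := mem_O hE hT
  obtain ⟨σ, hσ⟩ : ∃ σ : E ≃ₐ[K1] E, σ (lam ⟨b, hbW⟩) ≠ lam ⟨b, hbW⟩ := by
    by_contra hcon
    push Not at hcon
    apply hnot
    have i1 : Algebra.IsAlgebraic K1 E := Algebra.IsAlgebraic.tower_top (K := F) K1
    have i2 : IsAlgClosure K1 E := ⟨inferInstance, inferInstance⟩
    have i3 : IsGalois K1 E := inferInstance
    have h1 := (InfiniteGalois.mem_bot_iff_fixed (k := K1) (K := E) (lam ⟨b, hbW⟩)).2 hcon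
    obtain ⟨y, hy⟩ := IntermediateField.mem_bot.1 h1
    rw [← hy]
    exact y.2
  have hστ : σ τ = τ := σ.commutes ⟨τ, IntermediateField.subset_adjoin F _ (by simp)⟩
  have hσl : σ (lam ⟨_, hθ⟩) = lam ⟨_, hθ⟩ :=
    σ.commutes ⟨lam ⟨_, hθ⟩, IntermediateField.subset_adjoin F _ (by simp)⟩
  have hσF : ∀ r : F, σ (algebraMap F E r) = algebraMap F E r := fun r =>
    σ.commutes (algebraMap F K1 r)
  obtain ⟨γ, hγ1, hγ2, hγ3⟩ := exists_gamma0 hb hTtr halg σ.toRingEquiv hστ
  have hγF : ∀ r : F, γ (algebraMap F C r) = algebraMap F C r := by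
    intro r
    rw [IsScalarTower.algebraMap_apply F E C, hγ2]
    exact congrArg _ (hσF r)
  have hcong : ∀ z : W, W.valuation (γ z - algebraMap E C (σ (lam z))) < 1 := by
    intro z
    have h1 := val_lt_of_mem_iff hγ1 (lam_sub hE hlam hlam0 z)
    rw [map_sub, hγ2] at h1
    exact h1
  have hγθ : γ (algebraMap k C θ) = algebraMap k C θ := by
    refine root_unique (R := F) hF hTW hθ hG hG' ?_ ?_
    · have h1 := map_ev2 (γ : C →+* C) hγF (algebraMap k C T) (algebraMap k C θ) G
      rw [hG, map_zero] at h1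
      rw [h1]
      congr 1
      exact congrArg₂ _ hγ3.symm rfl
    · have h1 := hcong ⟨_, hθ⟩
      rw [hσl] at h1
      have h2 := lam_sub hE hlam hlam0 ⟨_, hθ⟩
      have h3 := Valuation.map_sub_lt _ h1 h2
      rwa [sub_sub_sub_cancel_right] at h3
  have hγk : ∀ z : k, γ (algebraMap k C z) = algebraMap k C z := by
    let M : IntermediateField F k :=
      { carrier := {z | γ (algebraMap k C z) = algebraMap k C z}
        mul_mem' := by
          intro a b ha hb
          change γ (algebraMap k C (a * b)) = _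
          rw [map_mul, map_mul, ha, hb]
        add_mem' := by
          intro a b ha hb
          change γ (algebraMap k C (a + b)) = _
          rw [map_add, map_add, ha, hb]
        algebraMap_mem' := by
          intro r
          change γ (algebraMap k C (algebraMap F k r)) = _
          rw [← IsScalarTower.algebraMap_apply F k C, hγF]
        inv_mem' := by
          intro a ha
          change γ (algebraMap k C a⁻¹) = _
          rw [map_inv₀, map_inv₀, ha] }
    have h1 : IntermediateField.adjoin F {T, θ} ≤ M := by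
      rw [IntermediateField.adjoin_le_iff]
      rintro y (rfl | hy)
      · exact hγ3
      · rw [Set.mem_singleton_iff.1 hy]
        exact hγθ
    rw [hadj] at h1
    intro z
    exact h1 (IntermediateField.mem_top)
  refine ⟨AlgEquiv.ofRingEquiv (f := γ) hγk, hγ1, ?_⟩
  intro h
  have h0 : γ b = b := h
  apply hσ
  have h1 := hcong ⟨b, hbW⟩
  rw [show γ ((⟨b, hbW⟩ : W) : C) = b from h0] at h1
  exact (lam_eq hE hlam hlam0 (z := ⟨b, hbW⟩) h1).symm

end ext

end TW
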