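import Mathlib
import Pool.Agent.Helper10.RR.LD

/-!
# Roots of the generic polynomial
-/

universe u v w

namespace TW

open Polynomial

section rel

lemma isAlg_of_rel {K S : Type*} [CommRing K] [Field S] [Algebra K S] {x : S} {N : ℕ}
    {r : Fin N → S} (hr : ∀ i, r i ∈ Set.range (algebraMap K S)) (i₀ : Fin N) (hi₀ : r i₀ ≠ 0)
    (hsum : ∑ i, r i * x ^ (i : ℕ) = 0) : IsAlgebraic K x := by
  choose s hs using hr
  refine ⟨∑ i, C (s i) * X ^ (i : ℕ), ?_, ?_⟩
  · intro h
    have h1 := congrArg (fun p => coeff p (i₀ : ℕ)) h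
    simp only [finsetSum_coeff, coeff_C_mul_X_pow, coeff_zero] at h1
    rw [Finset.sum_eq_single i₀] at h1
    · rw [if_pos rfl] at h1
      rw [← hs i₀, h1, map_zero] at hi₀
      exact hi₀ rfl
    · intro j _ hj
      rw [if_neg]
      intro h2
      exact hj (Fin.ext h2.symm)
    · intro h2
      exact absurd (Finset.mem_univ _) h2
  · rw [map_sum, ← hsum]
    refine Finset.sum_congr rfl fun i _ => ?_
    rw [map_mul, aeval_C, map_pow, aeval_X, hs]

end rel

section alg

variable {F S : Type*} [Field F] [Field S] [Algebra F S] {m : ℕ} {a : Fin (m + 1) → S} {τ : S}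

lemma tau_tr (ha : AlgebraicIndependent F a) (hτ : ∑ i, a i * τ ^ (i : ℕ) = 0) :
    AlgebraicIndependent F (fun i : Fin m => a i.succ) ∧
      Transcendental (Algebra.adjoin F (Set.range fun i : Fin m => a i.succ)) τ := by
  have h1 : AlgebraicIndependent F
      (fun o : Option (Fin m) => o.elim (a 0) (fun i => a i.succ)) := by
    have h2 := ha.comp (finSuccEquiv m).symm (finSuccEquiv m).symm.injective
    convert h2 using 1
    funext o
    cases o with
    | none => simp
    | some i => simp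
  obtain ⟨h2, h3⟩ := AlgebraicIndependent.option_iff.1 h1
  refine ⟨h2, fun h4 => h3 ?_⟩
  rw [Fin.sum_univ_succ, Fin.val_zero, pow_zero, mul_one] at hτ
  rw [eq_neg_of_add_eq_zero_left hτ]
  have h5 : ∀ x, x ∈ Subalgebra.algebraicClosure
      (Algebra.adjoin F (Set.range fun i : Fin m => a i.succ)) S ↔
      IsAlgebraic (Algebra.adjoin F (Set.range fun i : Fin m => a i.succ)) x := fun x => Iff.rfl
  rw [← h5]
  refine neg_mem (sum_mem fun i _ => mul_mem ?_ (pow_mem ?_ _))
  · rw [h5]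
    exact isAlgebraic_algebraMap
      (⟨a i.succ, Algebra.subset_adjoin ⟨i, rfl⟩⟩ :
        Algebra.adjoin F (Set.range fun i : Fin m => a i.succ))
  · rw [h5]
    exact h4

lemma ai_adjoin (ha : AlgebraicIndependent F a) (hτ : ∑ i, a i * τ ^ (i : ℕ) = 0) :
    Transcendental F τ ∧
      AlgebraicIndependent (IntermediateField.adjoin F {τ}) (fun i : Fin m => a i.succ) := by
  obtain ⟨h2, h3⟩ := tau_tr ha hτ
  have h4 := (h2.option_iff_transcendental τ).2 h3
  have h5 : AlgebraicIndependent F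
      (Sum.elim (fun i : Fin m => a i.succ) (fun _ : PUnit.{1} => τ)) := by
    have h6 := h4.comp (Equiv.optionEquivSumPUnit (Fin m)).symm (Equiv.injective _)
    convert h6 using 1
    funext o
    rcases o with i | i <;> simp
  obtain ⟨h6, h7⟩ := AlgebraicIndependent.sumElim_iff.1 h5
  refine ⟨algebraicIndependent_unique_type_iff.1 h6, ?_⟩
  rw [IntermediateField.algebraicIndependent_adjoin_iff]
  have h8 : Set.range (fun _ : PUnit.{1} => τ) = {τ} := Set.range_const
  rwa [h8] at h7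

lemma deriv_ne [CharZero F] (hm : 1 ≤ m) (ha : AlgebraicIndependent F a)
    (hτ : ∑ i, a i * τ ^ (i : ℕ) = 0) :
    ∑ i : Fin m, (((i : ℕ) + 1 : ℕ) : S) * a i.succ * τ ^ (i : ℕ) ≠ 0 := by
  obtain ⟨h2, h3⟩ := tau_tr ha hτ
  intro h
  apply h3
  have hS : CharZero S := charZero_of_injective_algebraMap (algebraMap F S).injective
  refine isAlg_of_rel (r := fun i : Fin m => (((i : ℕ) + 1 : ℕ) : S) * a i.succ) (fun i => ?_)
    ⟨0, hm⟩ ?_ h
  · exact ⟨(((i : ℕ) + 1 : ℕ) : Algebra.adjoin F (Set.range fun i : Fin m => a i.succ)) *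
      ⟨a i.succ, Algebra.subset_adjoin ⟨i, rfl⟩⟩, rfl⟩
  · refine mul_ne_zero (Nat.cast_ne_zero.2 (Nat.succ_ne_zero _)) ?_
    exact ha.ne_zero _

/-- An algebraic element in the field generated by the generic coefficients is in the small
field. -/
theorem mem_of_mem (ha : AlgebraicIndependent F a) (hτ : ∑ i, a i * τ ^ (i : ℕ) = 0)
    {κ : IntermediateField F S} (hτκ : τ ∈ κ)
    (hκ : ∀ x ∈ κ, IsAlgebraic (IntermediateField.adjoin F {τ}) x) {b : S}
    (hb : IsAlgebraic (IntermediateField.adjoin F {τ}) b)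
    (hmem : b ∈ IntermediateField.adjoin κ (Set.range a)) : b ∈ κ := by
  obtain ⟨-, h1⟩ := ai_adjoin ha hτ
  set R0 := IntermediateField.adjoin F {τ} with hR0
  let A := algebraicClosure R0 S
  have h2 : AlgebraicIndependent A (fun i : Fin m => a i.succ) := h1.extendScalars A
  have hA : ∀ x : S, x ∈ A ↔ IsAlgebraic R0 x := fun x => mem_algebraicClosure_iff
  -- removing the first coefficient
  have h3 : IntermediateField.adjoin κ (Set.range a) ≤
      IntermediateField.adjoin κ (Set.range fun i : Fin m => a i.succ) := by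
    rw [IntermediateField.adjoin_le_iff]
    rintro _ ⟨i, rfl⟩
    refine Fin.cases ?_ (fun i => IntermediateField.subset_adjoin _ _ ⟨i, rfl⟩) i
    rw [Fin.sum_univ_succ, Fin.val_zero, pow_zero, mul_one] at hτ
    rw [eq_neg_of_add_eq_zero_left hτ]
    refine neg_mem (sum_mem fun i _ => mul_mem (IntermediateField.subset_adjoin _ _ ⟨i, rfl⟩)
      (pow_mem ?_ _))
    exact IntermediateField.algebraMap_mem (IntermediateField.adjoin κ
      (Set.range fun i : Fin m => a i.succ)) (⟨τ, hτκ⟩ : κ)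
  obtain ⟨P, Q, hPQ⟩ := (IntermediateField.mem_adjoin_range_iff κ _ b).1 (h3 hmem)
  by_cases hQ : MvPolynomial.aeval (fun i : Fin m => a i.succ) Q = 0
  · rw [hQ, div_zero] at hPQ
    rw [hPQ]
    exact zero_mem κ
  have hinc : ∀ x : κ, (x : S) ∈ A := fun x => (hA _).2 (hκ x x.2)
  let inc : κ →+* A :=
    { toFun := fun x => ⟨x, hinc x⟩
      map_one' := rfl
      map_mul' := fun _ _ => rfl
      map_zero' := rfl
      map_add' := fun _ _ => rfl }
  have h4 : ∀ P : MvPolynomial (Fin m) κ, MvPolynomial.aeval (fun i : Fin m => a i.succ) P =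
      MvPolynomial.aeval (fun i : Fin m => a i.succ) (P.map inc) := by
    intro P
    rw [MvPolynomial.aeval_def, MvPolynomial.aeval_def, MvPolynomial.eval₂_map]
    rfl
  have h5 : MvPolynomial.C (⟨b, (hA b).2 hb⟩ : A) * Q.map inc - P.map inc = 0 := by
    apply h2
    rw [map_zero, map_sub, map_mul, ← h4, ← h4, MvPolynomial.aeval_C]
    change b * _ - _ = 0
    rw [hPQ]
    field_simp
    ring
  obtain ⟨n, hn⟩ : ∃ n, Q.coeff n ≠ 0 := by
    by_contra hcon
    push Not at hcon
    apply hQ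
    have h6 : Q = 0 := by
      ext n
      rw [hcon n]
      simp
    rw [h6, map_zero]
  have h6 := congrArg (MvPolynomial.coeff n) h5
  rw [MvPolynomial.coeff_sub, MvPolynomial.coeff_C_mul, MvPolynomial.coeff_map,
    MvPolynomial.coeff_map, MvPolynomial.coeff_zero, sub_eq_zero] at h6
  have h7 : b * ((Q.coeff n : κ) : S) = ((P.coeff n : κ) : S) := congrArg Subtype.val h6
  have h8 : ((Q.coeff n : κ) : S) ≠ 0 := fun h => hn (Subtype.ext h)
  rw [eq_div_of_mul_eq h8 h7]
  exact div_mem (P.coeff n).2 (Q.coeff n).2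

end alg

section bdd

variable {K Ω : Type*} [Field K] [Field Ω] [Algebra K Ω]

lemma exists_small {y : Ω} {p : K[X]} (hp : p ≠ 0) (hpy : aeval y p = 0) {N : ℕ}
    (hN : p.natDegree ≤ N) {x : Ω} (hx : x ∈ IntermediateField.adjoin K {y}) :
    ∃ P : K[X], P.natDegree < N ∧ x = aeval y P := by
  have hy : IsAlgebraic K y := ⟨p, hp, hpy⟩
  obtain ⟨f, hf, hf'⟩ := (IntermediateField.adjoin.powerBasis hy.isIntegral).exists_eq_aeval
    ⟨x, hx⟩
  refine ⟨f, ?_, ?_⟩
  · refine lt_of_lt_of_le hf (le_trans ?_ hN)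
    rw [IntermediateField.adjoin.powerBasis_dim]
    exact natDegree_le_of_dvd (minpoly.dvd _ _ hpy) hp
  · have h1 := congrArg Subtype.val hf'
    rw [IntermediateField.adjoin.powerBasis_gen] at h1
    rw [show x = ((⟨x, hx⟩ : IntermediateField.adjoin K {y}) : Ω) from rfl, hf']
    rw [IntermediateField.adjoin.powerBasis_gen]
    have h2 := (Polynomial.aeval_algebraMap_apply Ω (IntermediateField.AdjoinSimple.gen K y) f)
    rw [IntermediateField.AdjoinSimple.algebraMap_gen] at h2
    rw [h2]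
    rfl

lemma exists_small2 {τ ϑ : Ω} {p : K[X]} (hp : p ≠ 0) (hpτ : aeval τ p = 0) {N : ℕ}
    (hN : p.natDegree ≤ N) {n : ℕ} {q : ℕ → K[X]} (hq : aeval τ (q n) ≠ 0)
    (hsum : ∑ i ∈ Finset.range (n + 1), aeval τ (q i) * ϑ ^ i = 0) (hn : n ≤ N) {x : Ω}
    (hx : x ∈ IntermediateField.adjoin K {τ, ϑ}) :
    ∃ c : Fin N → Fin N → K, x = ∑ l, (∑ i, algebraMap K Ω (c l i) * τ ^ (i : ℕ)) * ϑ ^ (l : ℕ) := by
  rw [← IntermediateField.adjoin_simple_adjoin_simple, IntermediateField.mem_restrictScalars] at hx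
  set K1 := IntermediateField.adjoin K {τ} with hK1
  have hmem : ∀ p : K[X], aeval τ p ∈ K1 := fun p => by
    rw [aeval_eq_sum_range]
    refine sum_mem fun l _ => ?_
    rw [Algebra.smul_def]
    exact mul_mem (IntermediateField.algebraMap_mem _ _)
      (pow_mem (IntermediateField.mem_adjoin_simple_self _ _) _)
  let p1 : K1[X] := ∑ i ∈ Finset.range (n + 1), C (⟨aeval τ (q i), hmem _⟩ : K1) * X ^ i
  have hp1n : p1.coeff n = ⟨aeval τ (q n), hmem _⟩ := by
    change coeff (∑ i ∈ Finset.range (n + 1), C (⟨aeval τ (q i), hmem _⟩ : K1) * X ^ i) n = _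
    simp only [finsetSum_coeff, coeff_C_mul_X_pow]
    rw [Finset.sum_ite_eq, if_pos (Finset.mem_range.2 (Nat.lt_succ_self n))]
  have hp10 : p1 ≠ 0 := by
    intro h
    rw [h, coeff_zero] at hp1n
    exact hq (congrArg Subtype.val hp1n).symm
  have hp1deg : p1.natDegree ≤ N := by
    refine natDegree_sum_le_of_forall_le _ _ fun i hi => ?_
    refine (natDegree_C_mul_X_pow_le _ _).trans ?_
    exact (Nat.lt_succ_iff.1 (Finset.mem_range.1 hi)).trans hn
  have hp1ϑ : aeval ϑ p1 = 0 := by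
    rw [← hsum, map_sum]
    refine Finset.sum_congr rfl fun i _ => ?_
    rw [map_mul, aeval_C, map_pow, aeval_X]
    rfl
  obtain ⟨P, hP, rfl⟩ := exists_small hp10 hp1ϑ hp1deg hx
  have h1 : ∀ l : ℕ, ∃ c : Fin N → K, ((P.coeff l : K1) : Ω) =
      ∑ i, algebraMap K Ω (c i) * τ ^ (i : ℕ) := by
    intro l
    obtain ⟨Q, hQ, hQ'⟩ := exists_small hp hpτ hN (P.coeff l).2
    refine ⟨fun i => Q.coeff i, ?_⟩
    rw [hQ', aeval_eq_sum_range' hQ, Finset.sum_range]
    refine Finset.sum_congr rfl fun i _ => ?_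
    rw [Algebra.smul_def]
  choose c hc using h1
  refine ⟨fun l => c l, ?_⟩
  rw [aeval_eq_sum_range' hP, Finset.sum_range]
  refine Finset.sum_congr rfl fun l _ => ?_
  rw [← hc, Algebra.smul_def]
  rfl

end bdd

end TW
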