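import Mathlib
import Pool.Agent.Helper37.TW.T4
import Pool.Agent.Helper37.TW.T5
import Pool.Agent.Helper10.UL.Thin

/-!
# The generic root in the ultrapower
-/

universe u v w

namespace TW

open Polynomial Pool.Agent.LT Pool.Agent.Helper37.UL

section iota

variable {E Ω : Type u} [Field E] [Field Ω] [Algebra E Ω] {J : Type v} {U : Ultrafilter J}
  {S : Type w} [Field S] {π : (J → Ω) →+* S} (h : UP U π)

/-- the family of the residues of an element -/
noncomputable def lc (W : J → ValuationSubring Ω) (lam : ∀ j, W j →+* E) (c : Ω) (j : J) : Ω :=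
  open Classical in if hc : c ∈ W j then algebraMap E Ω (lam j ⟨c, hc⟩) else 0

lemma lc_of_mem {W : J → ValuationSubring Ω} {lam : ∀ j, W j →+* E} {c : Ω} {j : J}
    (hc : c ∈ W j) : lc W lam c j = algebraMap E Ω (lam j ⟨c, hc⟩) := by
  unfold lc
  rw [dif_pos hc]

include h in
theorem exists_iota {W : J → ValuationSubring Ω}
    (hW : ∀ c : Ω, ∀ᶠ j in (U : Filter J), c ∈ W j) (lam : ∀ j, W j →+* E) :
    ∃ ι : Ω →+* S, ∀ c, ι c = π (lc W lam c) := by
  refine ⟨{ toFun := fun c => π (lc W lam c), map_one' := ?_, map_mul' := ?_, map_zero' := ?_,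
            map_add' := ?_ }, fun c => rfl⟩
  · rw [← map_one π, h.eq_iff]
    filter_upwards with j
    rw [lc_of_mem (one_mem (W j))]
    have h1 : (⟨1, one_mem (W j)⟩ : W j) = 1 := rfl
    rw [h1, map_one, map_one]
    rfl
  · intro c d
    rw [← map_mul, h.eq_iff]
    filter_upwards [hW c, hW d] with j hc hd
    rw [Pi.mul_apply, lc_of_mem hc, lc_of_mem hd, lc_of_mem (mul_mem hc hd), ← map_mul, ← map_mul]
    rfl
  · rw [← map_zero π, h.eq_iff]
    filter_upwards with j
    rw [lc_of_mem (zero_mem (W j))]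
    have h1 : (⟨0, zero_mem (W j)⟩ : W j) = 0 := rfl
    rw [h1, map_zero, map_zero]
    rfl
  · intro c d
    rw [← map_add, h.eq_iff]
    filter_upwards [hW c, hW d] with j hc hd
    rw [Pi.add_apply, lc_of_mem hc, lc_of_mem hd, lc_of_mem (add_mem hc hd), ← map_add, ← map_add]
    rfl

end iota

section generic

variable {F E Ω : Type u} [Field F] [Field E] [Field Ω] [Algebra F E] [Algebra F Ω]
  [Algebra E Ω] [IsScalarTower F E Ω] {m : ℕ} {J : Type v} {U : Ultrafilter J}
  {S : Type w} [Field S] {π : (J → Ω) →+* S} (h : UP U π) [Algebra F S]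
  (hFS : ∀ r : F, algebraMap F S r = UP.cst π (algebraMap F Ω r)) {vv : J → Fin (m + 1) → F}
  (hU : ∀ Ψ : MvPolynomial (Fin (m + 1)) F, Ψ ≠ 0 →
    ∀ᶠ j in (U : Filter J), MvPolynomial.eval (vv j) Ψ ≠ 0)

include h hFS hU

/-- the generic coefficients are algebraically independent -/
lemma ai_xg : AlgebraicIndependent F (UL.xg π (fun j i => algebraMap F Ω (vv j i))) := by
  have h1 : ∀ Ψ : MvPolynomial (Fin (m + 1)) F,
      MvPolynomial.aeval (UL.xg π (fun j i => algebraMap F Ω (vv j i))) Ψ = UL.evg π vv Ψ := by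
    intro Ψ
    induction Ψ using MvPolynomial.induction_on with
    | C c => rw [MvPolynomial.aeval_C, UL.evg_C, hFS]
    | add p q hp hq => rw [map_add, map_add, hp, hq]
    | mul_X p i hp => rw [map_mul, map_mul, hp, MvPolynomial.aeval_X, UL.evg_X]
  have h2 := UL.evg_injective h hU
  intro x y hxy
  apply h2
  rw [← h1, ← h1]
  exact hxy

variable {τ : J → E} (hτ : ∀ᶠ j in (U : Filter J),
  ∑ i, algebraMap F E (vv j i) * τ j ^ (i : ℕ) = 0)

omit [Algebra F S] hFS hU in
include hτ in
lemma sum_xg : ∑ i, UL.xg π (fun j i => algebraMap F Ω (vv j i)) i *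
    (π fun j => algebraMap E Ω (τ j)) ^ (i : ℕ) = 0 := by
  have h1 : π (fun j => ∑ i, algebraMap F Ω (vv j i) * algebraMap E Ω (τ j) ^ (i : ℕ)) = 0 := by
    rw [h.eq0]
    filter_upwards [hτ] with j hj
    rw [← map_zero (algebraMap E Ω), ← hj, map_sum]
    refine Finset.sum_congr rfl fun i _ => ?_
    rw [map_mul, map_pow, ← IsScalarTower.algebraMap_apply]
  have h2 : (fun j => ∑ i, algebraMap F Ω (vv j i) * algebraMap E Ω (τ j) ^ (i : ℕ)) =
      ∑ i, (fun j => algebraMap F Ω (vv j i)) * (fun j => algebraMap E Ω (τ j)) ^ (i : ℕ) := by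
    funext j
    simp only [Finset.sum_apply, Pi.mul_apply, Pi.pow_apply]
  rw [h2, map_sum] at h1
  rw [← h1]
  refine Finset.sum_congr rfl fun i _ => ?_
  rw [map_mul, map_pow]
  rfl

include hτ in
/-- the generic root is not a root of a polynomial over `F` -/
lemma eventually_aeval_ne {P : F[X]} (hP : P ≠ 0) :
    ∀ᶠ j in (U : Filter J), aeval (τ j) P ≠ 0 := by
  have h1 := (ai_adjoin (ai_xg h hFS hU) (sum_xg h hτ)).1
  by_contra hcon
  rw [← Ultrafilter.eventually_not] at hcon
  apply h1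
  refine ⟨P, hP, ?_⟩
  have h2 : π (fun j => algebraMap E Ω (aeval (τ j) P)) = 0 := by
    rw [h.eq0]
    filter_upwards [hcon] with j hj
    push Not at hj
    rw [hj, map_zero]
  rw [← h2, aeval_eq_sum_range]
  have h3 : (fun j => algebraMap E Ω (aeval (τ j) P)) =
      ∑ i ∈ Finset.range (P.natDegree + 1), (fun j => algebraMap F Ω (P.coeff i)) *
        (fun j => algebraMap E Ω (τ j)) ^ i := by
    funext j
    rw [aeval_eq_sum_range, map_sum]
    simp only [Finset.sum_apply, Pi.mul_apply, Pi.pow_apply]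
    refine Finset.sum_congr rfl fun i _ => ?_
    rw [Algebra.smul_def, map_mul, map_pow, ← IsScalarTower.algebraMap_apply]
  rw [h3, map_sum]
  refine Finset.sum_congr rfl fun i _ => ?_
  rw [map_mul, map_pow, Algebra.smul_def, hFS, UP.cst_apply]

include hτ in
/-- the generic root is a simple root -/
lemma eventually_deriv_ne [CharZero F] (hm : 1 ≤ m) :
    ∀ᶠ j in (U : Filter J),
      ∑ i : Fin m, (((i : ℕ) + 1 : ℕ) : E) * algebraMap F E (vv j i.succ) * τ j ^ (i : ℕ) ≠ 0 := by
  have h1 := deriv_ne hm (ai_xg h hFS hU) (sum_xg h hτ)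
  by_contra hcon
  rw [← Ultrafilter.eventually_not] at hcon
  apply h1
  have h2 : π (fun j => algebraMap E Ω (∑ i : Fin m, (((i : ℕ) + 1 : ℕ) : E) *
      algebraMap F E (vv j i.succ) * τ j ^ (i : ℕ))) = 0 := by
    rw [h.eq0]
    filter_upwards [hcon] with j hj
    push Not at hj
    rw [hj, map_zero]
  rw [← h2]
  have h3 : (fun j => algebraMap E Ω (∑ i : Fin m, (((i : ℕ) + 1 : ℕ) : E) *
      algebraMap F E (vv j i.succ) * τ j ^ (i : ℕ))) =
      ∑ i : Fin m, (((i : ℕ) + 1 : ℕ) : J → Ω) * (fun j => algebraMap F Ω (vv j i.succ)) *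
        (fun j => algebraMap E Ω (τ j)) ^ (i : ℕ) := by
    funext j
    rw [map_sum]
    simp only [Finset.sum_apply, Pi.mul_apply, Pi.pow_apply]
    refine Finset.sum_congr rfl fun i _ => ?_
    rw [map_mul, map_mul, map_pow, ← IsScalarTower.algebraMap_apply, map_natCast]
    rfl
  rw [h3, map_sum]
  refine Finset.sum_congr rfl fun i _ => ?_
  rw [map_mul, map_mul, map_pow, map_natCast]
  rfl

include hτ in
/-- an algebraic element is in almost all the valuation rings -/
lemma eventually_mem {T : Ω} {W : J → ValuationSubring Ω}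
    (hE : ∀ j, ∀ e : E, algebraMap E Ω e ∈ W j)
    (hT : ∀ᶠ j in (U : Filter J), (W j).valuation (T - algebraMap E Ω (τ j)) < 1) {c : Ω}
    (hc : IsAlgebraic (IntermediateField.adjoin F {T}) c) :
    ∀ᶠ j in (U : Filter J), c ∈ W j := by
  obtain ⟨P, hP0, hP⟩ := exists_good_mem (E := E) hc
  filter_upwards [hT, eventually_aeval_ne h hFS hU hτ hP0] with j h1 h2
  exact hP (W j) (τ j) (hE j) h1 h2

include hτ in
/-- a nonzero algebraic element is a unit of almost all the valuation rings -/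
lemma eventually_unit {T : Ω} {W : J → ValuationSubring Ω}
    (hE : ∀ j, ∀ e : E, algebraMap E Ω e ∈ W j)
    (hT : ∀ᶠ j in (U : Filter J), (W j).valuation (T - algebraMap E Ω (τ j)) < 1) {c : Ω}
    (hc0 : c ≠ 0) (hc : IsAlgebraic (IntermediateField.adjoin F {T}) c) :
    ∀ᶠ j in (U : Filter J), (W j).valuation c = 1 := by
  obtain ⟨P, hP0, hP⟩ := exists_good (E := E) hc0 hc
  filter_upwards [hT, eventually_aeval_ne h hFS hU hτ hP0] with j h1 h2
  exact hP (W j) (τ j) (hE j) h1 h2

end generic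

end TW
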