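import Mathlib
import Pool.Agent.Helper37.TW.T6

/-!
# The residue of an element outside `k` is not in the residue field of `k`
-/

universe u v w

namespace TW

open Polynomial Pool.Agent.LT Pool.Agent.Helper37.UL

section main

variable {F E Ω : Type u} [Field F] [Field E] [Field Ω] [Algebra F E] [Algebra F Ω]
  [Algebra E Ω] [IsScalarTower F E Ω] {m : ℕ} {J : Type v} {U : Ultrafilter J}
  {S : Type w} [Field S] {π : (J → Ω) →+* S} (h : UP U π) [Algebra F S]
  (hFS : ∀ r : F, algebraMap F S r = UP.cst π (algebraMap F Ω r)) {vv : J → Fin (m + 1) → F}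
  (hU : ∀ Ψ : MvPolynomial (Fin (m + 1)) F, Ψ ≠ 0 →
    ∀ᶠ j in (U : Filter J), MvPolynomial.eval (vv j) Ψ ≠ 0)
  (hU2 : ∀ Q : (MvPolynomial (Fin (m + 1)) F)[X], 2 ≤ Q.natDegree →
    Irreducible (Q.map (algebraMap (MvPolynomial (Fin (m + 1)) F)
      (FractionRing (MvPolynomial (Fin (m + 1)) F)))) →
    ∀ᶠ j in (U : Filter J), ∀ x : F, eval₂ (MvPolynomial.eval (vv j)) x Q ≠ 0)
  {τ : J → E} (hτ : ∀ᶠ j in (U : Filter J),
    ∑ i, algebraMap F E (vv j i) * τ j ^ (i : ℕ) = 0)
  {T : Ω} {W : J → ValuationSubring Ω} (hE : ∀ j, ∀ e : E, algebraMap E Ω e ∈ W j)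
  (hT : ∀ᶠ j in (U : Filter J), (W j).valuation (T - algebraMap E Ω (τ j)) < 1)
  {lam : ∀ j, W j →+* E}
  (hlam : ∀ j, ∀ (e : E) (he : algebraMap E Ω e ∈ W j), lam j ⟨_, he⟩ = e)
  (hlam0 : ∀ j, ∀ x : W j, lam j x = 0 ↔ (W j).valuation (x : Ω) < 1)
  (halg : ∀ c : Ω, IsAlgebraic (IntermediateField.adjoin F {T}) c)

include hlam in
omit [Algebra F E] [Algebra F Ω] [IsScalarTower F E Ω] [Field F] in
lemma lam_mem {j : J} (hEj : ∀ e : E, algebraMap E Ω e ∈ W j) {c : Ω} {e : E}
    (hc : c ∈ W j) (hlam0 : ∀ x : W j, lam j x = 0 ↔ (W j).valuation (x : Ω) < 1)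
    (hce : (W j).valuation (c - algebraMap E Ω e) < 1) : lam j ⟨c, hc⟩ = e :=
  lam_eq hEj (hlam j) hlam0 hce

/-- transporting an algebraic relation -/
lemma isAlg_map {R K A : Type*} [Field R] [Field K] [Field A] [Algebra R K] [Algebra R A]
    (f : K →ₐ[R] A) {t c : K} (hc : IsAlgebraic (IntermediateField.adjoin R {t}) c)
    {L : Type*} [Field L] [Algebra L A] (hR : ∀ r : R, algebraMap R A r ∈ Set.range (algebraMap L A))
    (ht : f t ∈ Set.range (algebraMap L A)) : IsAlgebraic L (f c) := by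
  obtain ⟨n, q, hqn, hsum⟩ := A1.exists_rel t c hc
  refine isAlg_of_rel (N := n + 1) (r := fun i => f (aeval t (q i))) (fun i => ?_)
    (Fin.last n) ?_ ?_
  · have ht' : f t ∈ (algebraMap L A).fieldRange := ht
    have h1 : f (aeval t (q i)) ∈ (algebraMap L A).fieldRange := by
      rw [← aeval_algHom_apply, aeval_eq_sum_range]
      refine sum_mem fun l _ => ?_
      rw [Algebra.smul_def]
      exact mul_mem (hR _) (pow_mem ht' _)
    exact h1
  · exact (_root_.map_ne_zero f).2 hqn
  · rw [← Fin.sum_univ_eq_sum_range (fun i => aeval t (q i) * c ^ i)] at hsum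
    rw [← map_zero f, ← hsum, map_sum]
    refine Finset.sum_congr rfl fun i _ => ?_
    rw [map_mul, map_pow]

include h hFS hU hU2 hτ hE hT hlam hlam0 halg in
/-- **The residue of an element outside `k` is almost never in the residue field of `k`.** -/
theorem eventually_notMem [CharZero F] {κ : IntermediateField F Ω} (hTκ : T ∈ κ) {θ : Ω}
    (hθκ : θ ∈ κ) {b : Ω} (hb : b ∉ κ) :
    ∀ᶠ j in (U : Filter J), ∀ (hb : b ∈ W j) (hθ : θ ∈ W j),
      lam j ⟨b, hb⟩ ∉ IntermediateField.adjoin F {τ j, lam j ⟨θ, hθ⟩} := by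
  by_contra hcon
  rw [← Ultrafilter.eventually_not] at hcon
  push Not at hcon
  apply hb
  have hmem : ∀ c : Ω, ∀ᶠ j in (U : Filter J), c ∈ W j := fun c =>
    eventually_mem h hFS hU hτ hE hT (halg c)
  obtain ⟨ι, hι⟩ := exists_iota h hmem lam
  set a := UL.xg π (fun j i => algebraMap F Ω (vv j i)) with ha
  set τ' : S := π (fun j => algebraMap E Ω (τ j)) with hτ'
  have hai : AlgebraicIndependent F a := ai_xg h hFS hU
  have hsum : ∑ i, a i * τ' ^ (i : ℕ) = 0 := sum_xg h hτ
  have hτtr : Transcendental F τ' := (ai_adjoin hai hsum).1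
  -- the generic specialisation
  have hιT : ι T = τ' := by
    rw [hι, hτ', h.eq_iff]
    filter_upwards [hT, hmem T] with j h1 h2
    rw [lc_of_mem h2, lam_mem hlam (hE j) h2 (hlam0 j) h1]
  have hιF : ∀ r : F, ι (algebraMap F Ω r) = algebraMap F S r := by
    intro r
    rw [hι, hFS, UP.cst_apply, h.eq_iff]
    filter_upwards [hmem (algebraMap F Ω r)] with j h1
    rw [lc_of_mem h1]
    have h2 : ∀ (x : Ω) (hx : x ∈ W j), x = algebraMap E Ω (algebraMap F E r) →
        lam j ⟨x, hx⟩ = algebraMap F E r := by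
      intro x hx hxe
      subst hxe
      exact hlam j _ _
    rw [h2 _ h1 (IsScalarTower.algebraMap_apply F E Ω r), ← IsScalarTower.algebraMap_apply]
  let ι' : Ω →ₐ[F] S := { ι with commutes' := hιF }
  have hι' : ∀ c, ι' c = ι c := fun _ => rfl
  -- the fields
  let L := UL.Lg π vv
  let Fs := h.gsub (algebraMap F Ω).fieldRange
  have hL1 : ∀ r : F, algebraMap F S r ∈ L := fun r => by
    rw [hFS]
    exact Subfield.subset_closure (Or.inl ⟨r, rfl⟩)
  have hL2 : ∀ i, a i ∈ L := fun i => Subfield.subset_closure (Or.inr ⟨i, rfl⟩)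
  have hLFs : L ≤ Fs := by
    change Subfield.closure _ ≤ _
    rw [Subfield.closure_le, Set.union_subset_iff]
    refine ⟨?_, ?_⟩
    · rintro _ ⟨c, rfl⟩
      exact ⟨fun _ => algebraMap F Ω c, fun _ => ⟨c, rfl⟩, rfl⟩
    · rintro _ ⟨i, rfl⟩
      exact ⟨fun j => algebraMap F Ω (vv j i), fun j => ⟨vv j i, rfl⟩, rfl⟩
  let _ : Algebra L Fs := (Subfield.inclusion hLFs).toAlgebra
  have : IsScalarTower L Fs S := IsScalarTower.of_algebraMap_eq fun x => rfl
  have : CharZero S := charZero_of_injective_algebraMap (algebraMap F S).injective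
  have : CharZero L := inferInstance
  have hrel : ∀ x : Fs, IsAlgebraic L x → x ∈ Set.range (algebraMap L Fs) := by
    intro x hx
    have h1 : IsAlgebraic L (x : S) :=
      (isAlgebraic_algebraMap_iff (A := S) (algebraMap Fs S).injective).2 hx
    have h2 := UL.Lg_closed h hU hU2 x.2 h1
    exact ⟨⟨x, h2⟩, rfl⟩
  -- algebraicity over the generic field
  have hτL : IsAlgebraic L τ' := by
    refine isAlg_of_rel (r := a) (fun i => ⟨⟨a i, hL2 i⟩, rfl⟩) 0 (hai.ne_zero 0) hsum
  have hιL : ∀ c : Ω, IsAlgebraic L (ι c) := by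
    intro c
    let A := algebraicClosure L S
    have hA : ∀ x : S, x ∈ A ↔ IsAlgebraic L x := fun x => mem_algebraicClosure_iff
    have h1 : IsAlgebraic A (ι' c) := by
      refine isAlg_map ι' (halg c) (fun r => ?_) ?_
      · exact ⟨⟨algebraMap F S r, (hA _).2 (isAlgebraic_algebraMap (⟨_, hL1 r⟩ : L))⟩, rfl⟩
      · exact ⟨⟨τ', (hA _).2 hτL⟩, hιT.symm⟩
    exact h1.restrictScalars L
  have hιR0 : ∀ c : Ω, IsAlgebraic (IntermediateField.adjoin F {τ'}) (ι c) := by
    intro c
    refine isAlg_map ι' (halg c) (fun r => ?_) ?_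
    · exact ⟨algebraMap F _ r, rfl⟩
    · exact ⟨⟨τ', IntermediateField.mem_adjoin_simple_self _ _⟩, hιT.symm⟩
  -- the element is in the field generated over `Fs`
  have hFsmem : ι b ∈ IntermediateField.adjoin Fs {τ', ι θ} := by
    obtain ⟨n, q, hqn, hqsum⟩ := A1.exists_rel T θ (halg θ)
    have hqn0 : q n ≠ 0 := by
      rintro h0
      rw [h0, map_zero] at hqn
      exact hqn rfl
    set N := max m n with hN
    have h1 : ∀ᶠ j in (U : Filter J), ∃ c : Fin N → Fin N → F,
        lc W lam b j = ∑ l, (∑ i, algebraMap F Ω (c l i) * algebraMap E Ω (τ j) ^ (i : ℕ)) *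
          (lc W lam θ j) ^ (l : ℕ) := by
      filter_upwards [hcon, eventually_aeval_ne h hFS hU hτ hqn0, hτ, hT, hmem T,
        hU (MvPolynomial.X 0) (MvPolynomial.X_ne_zero 0)] with j h1 h2 h3 h4 h5 h6
      obtain ⟨hb, hθ, hbθ⟩ := h1
      have hlT : lam j ⟨T, h5⟩ = τ j := lam_mem hlam (hE j) h5 (hlam0 j) h4
      have hF : ∀ r : F, algebraMap F Ω r ∈ W j := fun r => by
        rw [IsScalarTower.algebraMap_apply F E Ω]; exact hE j _
      have hq1 : ∀ p : F[X], ∀ hp : aeval T p ∈ W j, lam j ⟨aeval T p, hp⟩ = aeval (τ j) p := by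
        intro p hp
        refine lam_mem hlam (hE j) hp (hlam0 j) ?_
        have h7 := val_sub_aeval (hE j) h4 (p.map (algebraMap F E))
        rwa [aeval_map_algebraMap, eval_map_algebraMap] at h7
      have hrelθ : ∑ i ∈ Finset.range (n + 1), aeval (τ j) (q i) * (lam j ⟨θ, hθ⟩) ^ i = 0 := by
        have h7 : (∑ i ∈ Finset.range (n + 1), (⟨aeval T (q i), aeval_mem_O hF h5 _⟩ : W j) *
            ⟨θ, hθ⟩ ^ i) = 0 := by
          apply Subtype.ext
          change (W j).subtype _ = _
          rw [map_sum]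
          exact hqsum
        have h8 := congrArg (lam j) h7
        rw [map_zero, map_sum] at h8
        rw [← h8]
        refine Finset.sum_congr rfl fun i _ => ?_
        rw [map_mul, map_pow, hq1]
      have hp0 : (∑ i : Fin (m + 1), C (vv j i) * X ^ (i : ℕ) : F[X]) ≠ 0 := by
        intro h0
        have h7 := congrArg (fun p => coeff p 0) h0
        simp only [finsetSum_coeff, coeff_C_mul_X_pow, coeff_zero] at h7
        rw [Finset.sum_eq_single (0 : Fin (m + 1))] at h7
        · rw [if_pos (by simp)] at h7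
          rw [MvPolynomial.eval_X] at h6
          exact h6 h7
        · intro i _ hi
          rw [if_neg]
          intro h8
          exact hi (Fin.ext h8.symm)
        · intro h8
          exact absurd (Finset.mem_univ _) h8
      have hpτ : aeval (τ j) (∑ i : Fin (m + 1), C (vv j i) * X ^ (i : ℕ) : F[X]) = 0 := by
        rw [← h3, map_sum]
        refine Finset.sum_congr rfl fun i _ => ?_
        rw [map_mul, aeval_C, map_pow, aeval_X]
      have hpdeg : (∑ i : Fin (m + 1), C (vv j i) * X ^ (i : ℕ) : F[X]).natDegree ≤ N := by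
        refine natDegree_sum_le_of_forall_le _ _ fun i _ => ?_
        refine (natDegree_C_mul_X_pow_le _ _).trans ?_
        exact (Nat.lt_succ_iff.1 i.2).trans (le_max_left _ _)
      obtain ⟨c, hc⟩ := exists_small2 hp0 hpτ hpdeg h2 hrelθ (le_max_right _ _) hbθ
      refine ⟨c, ?_⟩
      rw [lc_of_mem hb, lc_of_mem hθ, hc, map_sum]
      refine Finset.sum_congr rfl fun l _ => ?_
      rw [map_mul, map_pow, map_sum]
      congr 1
      refine Finset.sum_congr rfl fun i _ => ?_
      rw [map_mul, map_pow, ← IsScalarTower.algebraMap_apply]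
    obtain ⟨c, hc⟩ := h1.choice
    have h2 : ι b = ∑ l, (∑ i, π (fun j => algebraMap F Ω (c j l i)) * τ' ^ (i : ℕ)) *
        (ι θ) ^ (l : ℕ) := by
      have h3 : ι b = π (fun j => ∑ l, (∑ i, algebraMap F Ω (c j l i) *
          algebraMap E Ω (τ j) ^ (i : ℕ)) * (lc W lam θ j) ^ (l : ℕ)) := by
        rw [hι, h.eq_iff]
        exact hc
      have h4 : (fun j => ∑ l, (∑ i, algebraMap F Ω (c j l i) *
          algebraMap E Ω (τ j) ^ (i : ℕ)) * (lc W lam θ j) ^ (l : ℕ)) =
          ∑ l, (∑ i, (fun j => algebraMap F Ω (c j l i)) *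
            (fun j => algebraMap E Ω (τ j)) ^ (i : ℕ)) * (lc W lam θ) ^ (l : ℕ) := by
        funext j
        simp only [Finset.sum_apply, Pi.mul_apply, Pi.pow_apply]
      rw [h3, h4, map_sum]
      refine Finset.sum_congr rfl fun l _ => ?_
      rw [map_mul, map_pow, map_sum, hι θ]
      congr 1
      refine Finset.sum_congr rfl fun i _ => ?_
      rw [map_mul, map_pow]
    rw [h2]
    refine sum_mem fun l _ => mul_mem (sum_mem fun i _ => mul_mem ?_ (pow_mem ?_ _)) (pow_mem ?_ _)
    · exact IntermediateField.algebraMap_mem (IntermediateField.adjoin Fs {τ', ι θ})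
        (⟨π (fun j => algebraMap F Ω (c j l i)), ⟨_, fun j => ⟨c j l i, rfl⟩, rfl⟩⟩ : Fs)
    · exact IntermediateField.subset_adjoin _ _ (by simp)
    · exact IntermediateField.subset_adjoin _ _ (by simp)
  have hLmem : ι b ∈ IntermediateField.adjoin L {τ', ι θ} := by
    refine RR.mem_adjoin_of_relClosed hrel ?_ (hιL b) hFsmem
    rintro x (rfl | hx)
    · exact hτL
    · rw [Set.mem_singleton_iff.1 hx]
      exact hιL θ
  -- descent
  let κ' : IntermediateField F S := κ.map ι'
  have hτκ' : τ' ∈ κ' := ⟨T, hTκ, hιT⟩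
  have hθκ' : ι θ ∈ κ' := ⟨θ, hθκ, rfl⟩
  have hmem' : ι b ∈ IntermediateField.adjoin κ' (Set.range a) := by
    let M := IntermediateField.adjoin κ' (Set.range a)
    have hML : L ≤ M.toSubfield := by
      change Subfield.closure _ ≤ _
      rw [Subfield.closure_le, Set.union_subset_iff]
      refine ⟨?_, ?_⟩
      · rintro _ ⟨c, rfl⟩
        change UP.cst π (algebraMap F Ω c) ∈ M
        rw [← hFS]
        exact IntermediateField.algebraMap_mem M (algebraMap F κ' c)
      · rintro _ ⟨i, rfl⟩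
        exact IntermediateField.subset_adjoin _ _ ⟨i, rfl⟩
    let M' : IntermediateField L S := M.toSubfield.toIntermediateField fun x => hML x.2
    have h1 : IntermediateField.adjoin L {τ', ι θ} ≤ M' := by
      rw [IntermediateField.adjoin_le_iff]
      rintro x (rfl | hx)
      · exact IntermediateField.algebraMap_mem M (⟨τ', hτκ'⟩ : κ')
      · rw [Set.mem_singleton_iff.1 hx]
        exact IntermediateField.algebraMap_mem M (⟨ι θ, hθκ'⟩ : κ')
    exact h1 hLmem
  have h1 := mem_of_mem hai hsum hτκ' (fun x hx => by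
    obtain ⟨y, -, rfl⟩ := hx
    exact hιR0 y) (hιR0 b) hmem'
  obtain ⟨y, hy, hyb⟩ := h1
  have h2 : y = b := ι'.injective hyb
  rw [← h2]
  exact hy

end main

end TW
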