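import Mathlib
import Pool.Agent.Helper37.TW.T5
import Pool.Agent.Helper13.LT.A1

/-!
# Zeros of the generic element of a linear system: algebraic part
-/

universe u v w

namespace TW

open Polynomial Pool.Agent.LT

/-- transporting an algebraic relation -/
lemma isAlg_map' {R K A : Type*} [Field R] [Field K] [Field A] [Algebra R K] [Algebra R A]
    (f : K →ₐ[R] A) {t c : K} (hc : IsAlgebraic (IntermediateField.adjoin R {t}) c)
    {L : Type*} [Field L] [Algebra L A] (hR : ∀ r : R, algebraMap R A r ∈ Set.range (algebraMap L A))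
    (ht : f t ∈ Set.range (algebraMap L A)) : IsAlgebraic L (f c) := by
  obtain ⟨n, q, hqn, hsum⟩ := A1.exists_rel t c hc
  refine isAlg_of_rel (N := n + 1) (r := fun i => f (aeval t (q i))) (fun i => ?_)
    (Fin.last n) ?_ ?_
  · have ht' : f t ∈ (algebraMap L A).fieldRange := ht
    have h1 : f (aeval t (q i)) ∈ (algebraMap L A).fieldRange := by
      rw [← aeval_algHom_apply, aeval_eq_sum_range]
      refine sum_mem fun l _ => ?_
      rw [Algebra.smul_def]
      exact mul_mem (hR _) (pow_mem ht' _)
    exact h1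
  · exact (_root_.map_ne_zero f).2 hqn
  · rw [← Fin.sum_univ_eq_sum_range (fun i => aeval t (q i) * c ^ i)] at hsum
    rw [← map_zero f, ← hsum, map_sum]
    refine Finset.sum_congr rfl fun i _ => ?_
    rw [map_mul, map_pow]

section alg

variable {F S : Type*} [Field F] [Field S] [Algebra F S]

lemma isAlg_trans {τ c : S} (hc : IsAlgebraic (IntermediateField.adjoin F {τ}) c)
    {A : IntermediateField F S} (hτ : IsAlgebraic A τ) : IsAlgebraic A c := by
  let C := algebraicClosure A S
  have hC : ∀ x : S, x ∈ C ↔ IsAlgebraic A x := fun x => mem_algebraicClosure_iff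
  have h1 : IsAlgebraic C (AlgHom.id F S c) := by
    refine isAlg_map' (AlgHom.id F S) hc (fun r => ?_) ?_
    · exact ⟨algebraMap A C (algebraMap F A r), rfl⟩
    · exact ⟨⟨τ, (hC _).2 hτ⟩, rfl⟩
  exact h1.restrictScalars A

variable {m : ℕ} {a : Fin (m + 1) → S} {c : Fin m → S} {τ : S}

lemma ai_split (ha : AlgebraicIndependent F a) :
    AlgebraicIndependent F (fun i : Fin m => a i.succ) ∧
      Transcendental (IntermediateField.adjoin F (Set.range fun i : Fin m => a i.succ)) (a 0) := by
  have h1 : AlgebraicIndependent F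
      (fun o : Option (Fin m) => o.elim (a 0) (fun i => a i.succ)) := by
    have h2 := ha.comp (finSuccEquiv m).symm (finSuccEquiv m).symm.injective
    convert h2 using 1
    funext o
    cases o with
    | none => simp
    | some i => simp
  obtain ⟨h2, h3⟩ := AlgebraicIndependent.option_iff.1 h1
  exact ⟨h2, IntermediateField.transcendental_adjoin_iff.2 h3⟩

lemma ai_over {ι : Type*} {b : ι → S} (hb : AlgebraicIndependent F b)
    (hτ : Transcendental (IntermediateField.adjoin F (Set.range b)) τ) :
    Transcendental F τ ∧ AlgebraicIndependent (IntermediateField.adjoin F {τ}) b := by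
  have h4 := (hb.option_iff_transcendental τ).2 (IntermediateField.transcendental_adjoin_iff.1 hτ)
  have h5 : AlgebraicIndependent F (Sum.elim b (fun _ : PUnit.{1} => τ)) := by
    have h6 := h4.comp (Equiv.optionEquivSumPUnit ι).symm (Equiv.injective _)
    convert h6 using 1
    funext o
    rcases o with i | i <;> simp
  obtain ⟨h6, h7⟩ := AlgebraicIndependent.sumElim_iff.1 h5
  refine ⟨algebraicIndependent_unique_type_iff.1 h6, ?_⟩
  rw [IntermediateField.algebraicIndependent_adjoin_iff]
  have h8 : Set.range (fun _ : PUnit.{1} => τ) = {τ} := Set.range_const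
  rwa [h8] at h7

variable (ha : AlgebraicIndependent F a) (hrel : a 0 + ∑ i : Fin m, a i.succ * c i = 0)
  (hc : ∀ i, IsAlgebraic (IntermediateField.adjoin F {τ}) (c i))

include ha hrel hc

lemma tau_tr_W : Transcendental F τ ∧
    AlgebraicIndependent (IntermediateField.adjoin F {τ}) (fun i : Fin m => a i.succ) := by
  obtain ⟨h1, h2⟩ := ai_split ha
  refine ai_over h1 fun h3 => h2 ?_
  set A := IntermediateField.adjoin F (Set.range fun i : Fin m => a i.succ) with hA
  let C := algebraicClosure A S
  have hC : ∀ x : S, x ∈ C ↔ IsAlgebraic A x := fun x => mem_algebraicClosure_iff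
  rw [← hC, eq_neg_of_add_eq_zero_left hrel]
  refine neg_mem (sum_mem fun i _ => mul_mem ?_ ?_)
  · rw [hC]
    exact isAlgebraic_algebraMap (⟨a i.succ, IntermediateField.subset_adjoin _ _ ⟨i, rfl⟩⟩ : A)
  · rw [hC]
    exact isAlg_trans (hc i) h3

/-- linear independence of the coefficients over the algebraic elements -/
lemma sum_ne_W {e : Fin m → S} (he : ∀ i, IsAlgebraic (IntermediateField.adjoin F {τ}) (e i))
    {i₀ : Fin m} (hi₀ : e i₀ ≠ 0) : ∑ i : Fin m, a i.succ * e i ≠ 0 := by
  obtain ⟨-, h1⟩ := tau_tr_W ha hrel hc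
  set R0 := IntermediateField.adjoin F {τ} with hR0
  let A := algebraicClosure R0 S
  have hA : ∀ x : S, x ∈ A ↔ IsAlgebraic R0 x := fun x => mem_algebraicClosure_iff
  have h2 : AlgebraicIndependent A (fun i : Fin m => a i.succ) := h1.extendScalars A
  have h3 := h2.linearIndependent
  intro h
  apply hi₀
  have h4 := Fintype.linearIndependent_iff.1 h3 (fun i => ⟨e i, (hA _).2 (he i)⟩) (by
    rw [← h]
    refine Finset.sum_congr rfl fun i _ => ?_
    rw [Algebra.smul_def, mul_comm]
    rfl) i₀
  exact congrArg Subtype.val h4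

/-- the point is algebraic over the field of the coefficients -/
lemma tau_alg_W : IsAlgebraic (IntermediateField.adjoin F (Set.range a)) τ := by
  by_contra h0
  obtain ⟨-, h1⟩ := ai_over ha h0
  set R0 := IntermediateField.adjoin F {τ} with hR0
  let A := algebraicClosure R0 S
  have hA : ∀ x : S, x ∈ A ↔ IsAlgebraic R0 x := fun x => mem_algebraicClosure_iff
  have h2 : AlgebraicIndependent A a := h1.extendScalars A
  have h3 := h2.linearIndependent
  have h4 := Fintype.linearIndependent_iff.1 h3
    (Fin.cons 1 (fun i => ⟨c i, (hA _).2 (hc i)⟩) : Fin (m + 1) → A) (by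
    rw [← hrel, Fin.sum_univ_succ, Fin.cons_zero, one_smul]
    congr 1
    refine Finset.sum_congr rfl fun i _ => ?_
    rw [Fin.cons_succ, Algebra.smul_def, mul_comm]
    rfl) 0
  rw [Fin.cons_zero] at h4
  exact one_ne_zero h4

/-- An algebraic element in the field generated by the generic coefficients is in the small
field. -/
theorem mem_of_mem_W {κ : IntermediateField F S} (hcκ : ∀ i, c i ∈ κ)
    (hκ : ∀ x ∈ κ, IsAlgebraic (IntermediateField.adjoin F {τ}) x) {b : S}
    (hb : IsAlgebraic (IntermediateField.adjoin F {τ}) b)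
    (hmem : b ∈ IntermediateField.adjoin κ (Set.range a)) : b ∈ κ := by
  obtain ⟨-, h1⟩ := tau_tr_W ha hrel hc
  set R0 := IntermediateField.adjoin F {τ} with hR0
  let A := algebraicClosure R0 S
  have h2 : AlgebraicIndependent A (fun i : Fin m => a i.succ) := h1.extendScalars A
  have hA : ∀ x : S, x ∈ A ↔ IsAlgebraic R0 x := fun x => mem_algebraicClosure_iff
  -- removing the first coefficient
  have h3 : IntermediateField.adjoin κ (Set.range a) ≤
      IntermediateField.adjoin κ (Set.range fun i : Fin m => a i.succ) := by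
    rw [IntermediateField.adjoin_le_iff]
    rintro _ ⟨i, rfl⟩
    refine Fin.cases ?_ (fun i => IntermediateField.subset_adjoin _ _ ⟨i, rfl⟩) i
    rw [eq_neg_of_add_eq_zero_left hrel]
    refine neg_mem (sum_mem fun i _ => mul_mem (IntermediateField.subset_adjoin _ _ ⟨i, rfl⟩) ?_)
    exact IntermediateField.algebraMap_mem (IntermediateField.adjoin κ
      (Set.range fun i : Fin m => a i.succ)) (⟨c i, hcκ i⟩ : κ)
  obtain ⟨P, Q, hPQ⟩ := (IntermediateField.mem_adjoin_range_iff κ _ b).1 (h3 hmem)
  by_cases hQ : MvPolynomial.aeval (fun i : Fin m => a i.succ) Q = 0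
  · rw [hQ, div_zero] at hPQ
    rw [hPQ]
    exact zero_mem κ
  have hinc : ∀ x : κ, (x : S) ∈ A := fun x => (hA _).2 (hκ x x.2)
  let inc : κ →+* A :=
    { toFun := fun x => ⟨x, hinc x⟩
      map_one' := rfl
      map_mul' := fun _ _ => rfl
      map_zero' := rfl
      map_add' := fun _ _ => rfl }
  have h4 : ∀ P : MvPolynomial (Fin m) κ, MvPolynomial.aeval (fun i : Fin m => a i.succ) P =
      MvPolynomial.aeval (fun i : Fin m => a i.succ) (P.map inc) := by
    intro P
    rw [MvPolynomial.aeval_def, MvPolynomial.aeval_def, MvPolynomial.eval₂_map]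
    rfl
  have h5 : MvPolynomial.C (⟨b, (hA b).2 hb⟩ : A) * Q.map inc - P.map inc = 0 := by
    apply h2
    rw [map_zero, map_sub, map_mul, ← h4, ← h4, MvPolynomial.aeval_C]
    change b * _ - _ = 0
    rw [hPQ]
    field_simp
    ring
  obtain ⟨n, hn⟩ : ∃ n, Q.coeff n ≠ 0 := by
    by_contra hcon
    push Not at hcon
    apply hQ
    have h6 : Q = 0 := by
      ext n
      rw [hcon n]
      simp
    rw [h6, map_zero]
  have h6 := congrArg (MvPolynomial.coeff n) h5
  rw [MvPolynomial.coeff_sub, MvPolynomial.coeff_C_mul, MvPolynomial.coeff_map,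
    MvPolynomial.coeff_map, MvPolynomial.coeff_zero, sub_eq_zero] at h6
  have h7 : b * ((Q.coeff n : κ) : S) = ((P.coeff n : κ) : S) := congrArg Subtype.val h6
  have h8 : ((Q.coeff n : κ) : S) ≠ 0 := fun h => hn (Subtype.ext h)
  rw [eq_div_of_mul_eq h8 h7]
  exact div_mem (P.coeff n).2 (Q.coeff n).2

end alg

end TW
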