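import Mathlib
import Pool.Agent.Helper37.TW.T4

/-!
# Simple zeros of polynomials in two variables on a curve
-/

universe u v w

namespace TW

open Polynomial IsLocalRing Pool.Agent.LT

section dX

variable {R : Type*} [CommRing R]

/-- the partial derivative with respect to the inner variable -/
noncomputable def dX (P : R[X][X]) : R[X][X] :=
  ∑ i ∈ Finset.range (P.natDegree + 1), monomial i (derivative (P.coeff i))

lemma coeff_dX (P : R[X][X]) (n : ℕ) : (dX P).coeff n = derivative (P.coeff n) := by
  unfold dX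
  rw [finsetSum_coeff]
  simp only [coeff_monomial]
  rw [Finset.sum_ite_eq']
  split_ifs with h
  · rfl
  · rw [coeff_eq_zero_of_natDegree_lt (by
      rw [Finset.mem_range] at h
      omega), map_zero]

lemma dX_add (P Q : R[X][X]) : dX (P + Q) = dX P + dX Q := by
  ext1 n
  rw [coeff_dX, coeff_add, coeff_add, coeff_dX, coeff_dX, map_add]

lemma dX_sum {ι : Type*} (s : Finset ι) (f : ι → R[X][X]) : dX (∑ i ∈ s, f i) = ∑ i ∈ s, dX (f i) := by
  ext1 n
  rw [coeff_dX, finsetSum_coeff, finsetSum_coeff, map_sum]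
  refine Finset.sum_congr rfl fun i _ => ?_
  rw [coeff_dX]

lemma dX_C_mul (p : R[X]) (Q : R[X][X]) : dX (C p * Q) = C (derivative p) * Q + C p * dX Q := by
  ext1 n
  rw [coeff_dX, coeff_C_mul, coeff_add, coeff_C_mul, coeff_C_mul, coeff_dX, derivative_mul]

lemma dX_C (p : R[X]) : dX (C p) = C (derivative p) := by
  have h1 := dX_C_mul p (1 : R[X][X])
  rw [mul_one, mul_one] at h1
  rw [h1]
  have h2 : dX (1 : R[X][X]) = 0 := by
    ext1 n
    rw [coeff_dX, coeff_one, coeff_zero]
    split_ifs
    · rw [derivative_one]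
    · rw [map_zero]
  rw [h2, mul_zero, add_zero]

lemma dX_X_mul (Q : R[X][X]) : dX (X * Q) = X * dX Q := by
  ext1 n
  rw [coeff_dX]
  rcases n with _ | n
  · rw [coeff_X_mul_zero, coeff_X_mul_zero, map_zero]
  · rw [coeff_X_mul, coeff_X_mul, coeff_dX]

lemma dX_map {R' : Type*} [CommRing R'] (f : R →+* R') (P : R[X][X]) :
    dX (P.map (mapRingHom f)) = (dX P).map (mapRingHom f) := by
  ext1 n
  rw [coeff_dX, coeff_map, coeff_map, coeff_dX, coe_mapRingHom, derivative_map]

end dX

/-- change of the coefficients -/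
lemma ev2_map {F E A : Type*} [CommRing F] [CommRing E] [CommRing A] [Algebra F E] [Algebra F A]
    [Algebra E A] [IsScalarTower F E A] (T θ : A) (P : F[X][X]) :
    ev2 E T θ (P.map (mapRingHom (algebraMap F E))) = ev2 F T θ P := by
  have h1 : ev2 F T θ = (ev2 E T θ).comp (mapRingHom (mapRingHom (algebraMap F E))) := by
    apply Polynomial.ringHom_ext'
    · apply Polynomial.ringHom_ext'
      · ext r
        simp only [RingHom.comp_apply, coe_mapRingHom, map_C]
        rw [ev2_C, ev2_C, aeval_C, aeval_C, IsScalarTower.algebraMap_apply F E A]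
      · simp only [RingHom.comp_apply, coe_mapRingHom, map_C, map_X]
        rw [ev2_C, ev2_C, aeval_X, aeval_X]
    · simp only [coe_mapRingHom, map_X, RingHom.comp_apply]
      rw [ev2_X, ev2_X]
  rw [h1]
  rfl

section simple

variable {E Ω : Type u} [Field E] [Field Ω] [Algebra E Ω] {W : ValuationSubring Ω} {T θ : Ω}
  {τ l : E}

/-- a polynomial with a zero at a point of a curve, and nonzero Jacobian -/
theorem val_simple (hE : ∀ e : E, algebraMap E Ω e ∈ W)
    (hT : W.valuation (T - algebraMap E Ω τ) < 1)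
    (hθ : W.valuation (θ - algebraMap E Ω l) < 1) {G : E[X][X]} (hG : ev2 E T θ G = 0)
    (hG' : W.valuation (ev2 E T θ (derivative G)) = 1) (P : E[X][X]) (hP : ev2 E τ l P = 0)
    (hJ : ev2 E τ l (dX P * derivative G - dX G * derivative P) ≠ 0) :
    W.valuation (ev2 E T θ P) = W.valuation (T - algebraMap E Ω τ) := by
  have hTW := mem_O hE hT
  have hθW := mem_O hE hθ
  have hG0 : ev2 E τ l G = 0 := by
    by_contra h0
    have h1 := cong hE hT hθ G
    rw [hG, zero_sub, Valuation.map_neg, val_const hE h0] at h1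
    exact lt_irrefl _ h1
  obtain ⟨N, Q, hQ⟩ := split_of_eval G hG0
  obtain ⟨A, B, hAB⟩ := split_of_eval P hP
  set q := ev2 E T θ Q with hq
  have hqW : q ∈ W := ev2_mem_W hE hTW hθW Q
  -- the relation
  have h1 : (θ - algebraMap E Ω l) * q + (T - algebraMap E Ω τ) * aeval T N = 0 := by
    have h2 := congrArg (ev2 E T θ) hQ
    rw [hG, map_add, map_mul, map_sub, ev2_X, ev2_C, ev2_C, aeval_C, map_mul, map_sub, aeval_X,
      aeval_C] at h2
    exact h2.symm
  have hqu : W.valuation q = 1 := by
    have h2 : derivative G = Q + (X - C (C l)) * derivative Q := by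
      rw [hQ, derivative_add, derivative_mul, derivative_sub, derivative_X, derivative_C,
        derivative_C, sub_zero, one_mul, add_zero]
    have h3 : ev2 E T θ (derivative G) = q + (θ - algebraMap E Ω l) * ev2 E T θ (derivative Q) := by
      rw [h2, map_add, map_mul, map_sub, ev2_X, ev2_C, aeval_C]
    have h4 : W.valuation ((θ - algebraMap E Ω l) * ev2 E T θ (derivative Q)) < 1 := by
      rw [map_mul]
      exact lt_of_le_of_lt (mul_le_of_le_one_right' ((W.valuation_le_one_iff _).2
        (ev2_mem_W hE hTW hθW _))) hθ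
    rw [h3] at hG'
    by_contra hne
    have h5 : W.valuation q < 1 := lt_of_le_of_ne ((W.valuation_le_one_iff _).2 hqW) hne
    exact (Valuation.map_add_lt _ h5 h4).ne hG'
  have h2 : q * ev2 E T θ P = (T - algebraMap E Ω τ) * ev2 E T θ (Q * C A - C N * B) := by
    have h3 := congrArg (ev2 E T θ) hAB
    rw [map_add, map_mul, map_sub, ev2_X, ev2_C, ev2_C, aeval_C, map_mul, map_sub, aeval_X,
      aeval_C] at h3
    rw [h3, map_sub, map_mul, map_mul, ev2_C, ev2_C]
    linear_combination ev2 E T θ B * h1
  have h3 := congrArg W.valuation h2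
  rw [map_mul, map_mul, hqu, one_mul] at h3
  -- the Jacobian
  have key : ∀ (P : E[X][X]) (A : E[X]) (B : E[X][X]),
      P = (X - C (C l)) * B + C ((X - C τ) * A) →
      ev2 E τ l (dX P) = aeval τ A ∧ ev2 E τ l (derivative P) = ev2 E τ l B := by
    intro P A B h
    constructor
    · rw [h, dX_add, sub_mul, sub_eq_add_neg, dX_add, dX_X_mul, ← neg_mul, ← C_neg, dX_C_mul,
        dX_C]
      simp only [map_add, map_mul, ev2_X, ev2_C, derivative_C, neg_zero,
        derivative_mul, derivative_X, sub_zero, one_mul, map_neg, aeval_C, map_sub,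
        aeval_X, Algebra.algebraMap_self, RingHom.id_apply, sub_self, zero_mul, add_zero]
      rw [map_zero]
      ring
    · rw [h, derivative_add, derivative_mul, derivative_sub, derivative_X, derivative_C,
        derivative_C, sub_zero, one_mul, add_zero, map_add, map_mul, map_sub, ev2_X, ev2_C,
        aeval_C, Algebra.algebraMap_self, RingHom.id_apply, sub_self, zero_mul, add_zero]
  obtain ⟨k1, k2⟩ := key P A B hAB
  obtain ⟨k3, k4⟩ := key G N Q hQ
  have h4 : ev2 E τ l (Q * C A - C N * B) ≠ 0 := by
    intro h0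
    apply hJ
    rw [map_sub, map_mul, map_mul, k1, k2, k3, k4, ← h0, map_sub, map_mul, map_mul, ev2_C, ev2_C]
    ring
  have h5 : W.valuation (ev2 E T θ (Q * C A - C N * B)) = 1 := by
    have h6 := cong hE hT hθ (Q * C A - C N * B)
    have h7 := val_const hE h4
    have h8 := Valuation.map_add_eq_of_lt_right W.valuation
      (x := ev2 E T θ (Q * C A - C N * B) - algebraMap E Ω (ev2 E τ l (Q * C A - C N * B)))
      (y := algebraMap E Ω (ev2 E τ l (Q * C A - C N * B))) (by rw [h7]; exact h6)
    rwa [sub_add_cancel, h7] at h8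
  rw [h3, h5, mul_one]

end simple

end TW
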