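import Mathlib
import Pool.Agent.Helper37.TW.W1
import Pool.Agent.Helper37.TW.W2
import Pool.Agent.Helper37.TW.T6
import Pool.Agent.Helper10.UL.Gen4

/-!
# Zeros of the generic element of a linear system: they are generic points
-/

universe u v w

namespace TW

open Polynomial Pool.Agent.LT Pool.Agent.Helper37.UL

section exch

variable {E Ω : Type*} [Field E] [Field Ω] [Algebra E Ω]

lemma exch {T t : Ω} (ht : Transcendental E t)
    (h : IsAlgebraic (IntermediateField.adjoin E {T}) t) :
    IsAlgebraic (IntermediateField.adjoin E {t}) T := by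
  by_contra h0
  have h1 := (ai_over (b := fun _ : PUnit.{1} => t) (τ := T)
    (algebraicIndependent_unique_type_iff.2 ht) (by rw [Set.range_const]; exact h0)).2
  exact (algebraicIndependent_unique_type_iff.1 h1) h

lemma alg_of_transcendental {T t : Ω} (ht : Transcendental E t)
    (halg : ∀ z : Ω, IsAlgebraic (IntermediateField.adjoin E {T}) z) (z : Ω) :
    IsAlgebraic (IntermediateField.adjoin E {t}) z :=
  isAlg_trans (halg z) (exch ht (halg t))

end exch

section place

variable {E Ω : Type u} [Field E] [IsAlgClosed E] [Field Ω] [Algebra E Ω]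

/-- a valuation ring containing the constants is a place -/
lemma exists_base_of {T : Ω} (halg : ∀ z : Ω, IsAlgebraic (IntermediateField.adjoin E {T}) z)
    {W : ValuationSubring Ω} (hW : W ≠ ⊤) (hE : ∀ e : E, algebraMap E Ω e ∈ W) :
    ∃ t, Base E W t := by
  obtain ⟨x, hx⟩ : ∃ x : Ω, x ∉ W := by
    by_contra hcon
    push Not at hcon
    exact hW (eq_top_iff.2 fun x _ => hcon x)
  have hx0 : x ≠ 0 := by
    rintro rfl
    exact hx (zero_mem W)
  have ht : x⁻¹ ∈ W.nonunits := by
    rw [ValuationSubring.mem_nonunits_iff_or, inv_inv]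
    exact Or.inr hx
  have htr : Transcendental E x⁻¹ := by
    intro h0
    obtain ⟨e, he⟩ := minpoly.mem_range_of_degree_eq_one E x⁻¹
      (IsAlgClosed.degree_eq_one_of_irreducible E (minpoly.irreducible h0.isIntegral))
    apply hx
    have h1 := hE e⁻¹
    rw [map_inv₀, he, inv_inv] at h1
    exact h1
  exact ⟨x⁻¹, hE, inv_ne_zero hx0, ht, alg_of_transcendental htr halg⟩

end place

section generic

variable {F E Ω : Type u} [Field F] [Field E] [IsAlgClosed E] [CharZero E] [Field Ω]
  [Algebra F E]
  [Algebra F Ω] [Algebra E Ω] [IsScalarTower F E Ω] {m : ℕ} {J : Type v} {U : Ultrafilter J}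
  {vv : J → Fin (m + 1) → F}
  (hU : ∀ Ψ : MvPolynomial (Fin (m + 1)) F, Ψ ≠ 0 →
    ∀ᶠ j in (U : Filter J), MvPolynomial.eval (vv j) Ψ ≠ 0)
  {u : Fin (m + 1) → Ω} (hu0 : u 0 = 1) {W : J → ValuationSubring Ω}
  (hE : ∀ j, ∀ e : E, algebraMap E Ω e ∈ W j)
  (hv : ∀ᶠ j in (U : Filter J), (W j).valuation (∑ e, algebraMap F Ω (vv j e) * u e) < 1)
  {T : Ω} (halg : ∀ z : Ω, IsAlgebraic (IntermediateField.adjoin E {T}) z)

include hU hu0 hE hv halg

/-- every element is in almost all the valuation rings -/
theorem eventually_mem_W (c : Ω) : ∀ᶠ j in (U : Filter J), c ∈ W j := by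
  classical
  let W0 : ValuationSubring Ω :=
    { carrier := {c | ∀ᶠ j in (U : Filter J), c ∈ W j}
      mul_mem' := by
        intro a b ha hb
        filter_upwards [ha, hb] with j h1 h2
        exact mul_mem h1 h2
      one_mem' := Filter.Eventually.of_forall fun j => one_mem (W j)
      add_mem' := by
        intro a b ha hb
        filter_upwards [ha, hb] with j h1 h2
        exact add_mem h1 h2
      zero_mem' := Filter.Eventually.of_forall fun j => zero_mem (W j)
      neg_mem' := by
        intro a ha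
        filter_upwards [ha] with j h1
        exact neg_mem h1
      mem_or_inv_mem' := by
        intro a
        change (∀ᶠ j in (U : Filter J), a ∈ W j) ∨ (∀ᶠ j in (U : Filter J), a⁻¹ ∈ W j)
        rw [← Ultrafilter.eventually_or]
        exact Filter.Eventually.of_forall fun j => (W j).mem_or_inv_mem a }
  have hmem : ∀ c, c ∈ W0 ↔ ∀ᶠ j in (U : Filter J), c ∈ W j := fun c => Iff.rfl
  by_contra hcon
  have hW0 : W0 ≠ ⊤ := by
    intro h
    apply hcon
    rw [← hmem, h]
    trivial
  have hE0 : ∀ e : E, algebraMap E Ω e ∈ W0 := fun e => Filter.Eventually.of_forall fun j => hE j e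
  have hnu : ∀ y, y ∈ W0.nonunits → ∀ᶠ j in (U : Filter J), (W j).valuation y < 1 := by
    intro y hy
    rw [ValuationSubring.mem_nonunits_iff_or] at hy
    rcases hy with rfl | hy
    · exact Filter.Eventually.of_forall fun j => by rw [map_zero]; exact zero_lt_one
    · rw [hmem, ← Ultrafilter.eventually_not] at hy
      filter_upwards [hy] with j hj
      rw [← ValuationSubring.mem_nonunits_iff, ValuationSubring.mem_nonunits_iff_or]
      exact Or.inr hj
  obtain ⟨t, hb⟩ := exists_base_of halg hW0 hE0
  obtain ⟨e0, he0⟩ := Finite.exists_max (fun e => W0.valuation (u e))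
  have hM1 : 1 ≤ W0.valuation (u e0) := by
    have h1 := he0 0
    rwa [hu0, map_one] at h1
  have hM0 : W0.valuation (u e0) ≠ 0 := fun h => by
    rw [h] at hM1
    exact absurd hM1 (not_le.2 zero_lt_one)
  have hM : u e0 ≠ 0 := (Valuation.ne_zero_iff _).1 hM0
  have hx : ∀ e, u e / u e0 ∈ W0 := by
    intro e
    rw [← W0.valuation_le_one_iff, map_div₀]
    exact (div_le_one₀ (zero_lt_iff.2 hM0)).2 (he0 e)
  choose r hr using fun e => hb.exists_residue (hx e)
  have hr0 : r e0 ≠ 0 := by
    intro h0
    have h1 := hr e0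
    rw [h0, map_zero, sub_zero, div_self hM, ValuationSubring.mem_nonunits_iff, map_one] at h1
    exact lt_irrefl _ h1
  let Ψ : MvPolynomial (Fin (m + 1)) E := ∑ e, MvPolynomial.C (r e) * MvPolynomial.X e
  have hΨ : Ψ ≠ 0 := by
    intro h0
    apply hr0
    have h1 := congrArg (MvPolynomial.coeff (Finsupp.single e0 1)) h0
    change MvPolynomial.coeff (Finsupp.single e0 1)
      (∑ e, MvPolynomial.C (r e) * MvPolynomial.X e) = _ at h1
    rw [MvPolynomial.coeff_sum, Finset.sum_eq_single e0, MvPolynomial.coeff_C_mul,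
      MvPolynomial.coeff_X, if_pos rfl, mul_one, MvPolynomial.coeff_zero] at h1
    · exact h1
    · intro b _ hb
      rw [MvPolynomial.coeff_C_mul, MvPolynomial.coeff_X, if_neg, mul_zero]
      intro h2
      exact hb ((Finsupp.single_left_inj one_ne_zero).1 h2)
    · intro h2
      exact absurd (Finset.mem_univ _) h2
  have h1 := UL.gen_extend hU Ψ hΨ
  have h2 : ∀ᶠ j in (U : Filter J), ∀ e, (W j).valuation (u e / u e0 - algebraMap E Ω (r e)) < 1 :=
    Filter.eventually_all.2 fun e => hnu _ (hr e)
  have h3 : ∀ᶠ j in (U : Filter J), (u e0)⁻¹ ∈ W j := by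
    rw [← hmem, ← W0.valuation_le_one_iff, map_inv₀]
    exact inv_le_one_of_one_le₀ hM1
  obtain ⟨j, k1, k2, k3, k4⟩ := (h1.and (h2.and (h3.and hv))).exists
  apply k1
  have k5 : (W j).valuation (∑ e, algebraMap F Ω (vv j e) * (u e / u e0)) < 1 := by
    have k6 : ∑ e, algebraMap F Ω (vv j e) * (u e / u e0) =
        (u e0)⁻¹ * ∑ e, algebraMap F Ω (vv j e) * u e := by
      rw [Finset.mul_sum]
      refine Finset.sum_congr rfl fun e _ => ?_
      rw [div_eq_mul_inv]
      ring
    rw [k6, map_mul]
    exact lt_of_le_of_lt (mul_le_of_le_one_left' (((W j).valuation_le_one_iff _).2 k3)) k4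
  have hFj : ∀ r : F, algebraMap F Ω r ∈ W j := fun r => by
    rw [IsScalarTower.algebraMap_apply F E Ω]
    exact hE j _
  have k7 : (W j).valuation (∑ e, algebraMap F Ω (vv j e) *
      (u e / u e0 - algebraMap E Ω (r e))) < 1 := by
    refine Valuation.map_sum_lt _ one_ne_zero fun e _ => ?_
    rw [map_mul]
    exact lt_of_le_of_lt (mul_le_of_le_one_left' (((W j).valuation_le_one_iff _).2 (hFj _))) (k2 e)
  have k8 := Valuation.map_sub_lt _ k5 k7
  rw [← Finset.sum_sub_distrib] at k8
  have k9 : ∑ e, (algebraMap F Ω (vv j e) * (u e / u e0) - algebraMap F Ω (vv j e) *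
      (u e / u e0 - algebraMap E Ω (r e))) =
      algebraMap E Ω (MvPolynomial.eval (fun i => algebraMap F E (vv j i)) Ψ) := by
    change _ = algebraMap E Ω (MvPolynomial.eval (fun i => algebraMap F E (vv j i))
      (∑ e, MvPolynomial.C (r e) * MvPolynomial.X e))
    rw [map_sum, map_sum]
    refine Finset.sum_congr rfl fun e _ => ?_
    rw [map_mul, MvPolynomial.eval_C, MvPolynomial.eval_X, map_mul,
      ← IsScalarTower.algebraMap_apply]
    ring
  rw [k9] at k8
  by_contra h0
  rw [val_const (hE j) h0] at k8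
  exact lt_irrefl _ k8

/-- every nonzero element is a unit of almost all the valuation rings -/
theorem eventually_unit_W {c : Ω} (hc : c ≠ 0) :
    ∀ᶠ j in (U : Filter J), (W j).valuation c = 1 := by
  filter_upwards [eventually_mem_W hU hu0 hE hv halg c,
    eventually_mem_W hU hu0 hE hv halg c⁻¹] with j h1 h2
  have h3 := ((W j).valuation_le_one_iff _).2 h1
  have h4 := ((W j).valuation_le_one_iff _).2 h2
  have h5 : (W j).valuation c ≠ 0 := (Valuation.ne_zero_iff _).2 hc
  rw [map_inv₀] at h4
  exact le_antisymm h3 ((inv_le_one₀ (zero_lt_iff.2 h5)).1 h4)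

end generic

end TW
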