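import Mathlib
import Pool.Agent.Helper37.TW.W3
import Pool.Agent.Helper37.TW.T7

/-!
# Zeros of the generic element of a linear system: residue fields
-/

universe u v w

namespace TW

open Polynomial Pool.Agent.LT Pool.Agent.Helper37.UL

section main

variable {F E Ω : Type u} [Field F] [Field E] [Field Ω] [Algebra F E] [Algebra F Ω]
  [Algebra E Ω] [IsScalarTower F E Ω] {m : ℕ} {J : Type v} {U : Ultrafilter J}
  {S : Type w} [Field S] {π : (J → Ω) →+* S} (h : UP U π) [Algebra F S]
  (hFS : ∀ r : F, algebraMap F S r = UP.cst π (algebraMap F Ω r)) {vv : J → Fin (m + 1) → F}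
  {W : J → ValuationSubring Ω} (hE : ∀ j, ∀ e : E, algebraMap E Ω e ∈ W j)
  {lam : ∀ j, W j →+* E}
  (hlam : ∀ j, ∀ (e : E) (he : algebraMap E Ω e ∈ W j), lam j ⟨_, he⟩ = e)
  (hlam0 : ∀ j, ∀ x : W j, lam j x = 0 ↔ (W j).valuation (x : Ω) < 1)
  (hmem : ∀ c : Ω, ∀ᶠ j in (U : Filter J), c ∈ W j)

include h hFS hlam hmem in
lemma exists_iota_alg : ∃ ι : Ω →ₐ[F] S, ∀ c, ι c = π (lc W lam c) := by
  obtain ⟨ι, hι⟩ := exists_iota h hmem lam
  have hιF : ∀ r : F, ι (algebraMap F Ω r) = algebraMap F S r := by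
    intro r
    rw [hι, hFS, UP.cst_apply, h.eq_iff]
    filter_upwards [hmem (algebraMap F Ω r)] with j h1
    rw [lc_of_mem h1]
    have h2 : ∀ (x : Ω) (hx : x ∈ W j), x = algebraMap E Ω (algebraMap F E r) →
        lam j ⟨x, hx⟩ = algebraMap F E r := by
      intro x hx hxe
      subst hxe
      exact hlam j _ _
    rw [h2 _ h1 (IsScalarTower.algebraMap_apply F E Ω r), ← IsScalarTower.algebraMap_apply]
  exact ⟨{ ι with commutes' := hιF }, hι⟩

variable {u : Fin (m + 1) → Ω} (hu0 : u 0 = 1)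
  (hv : ∀ᶠ j in (U : Filter J), (W j).valuation (∑ e, algebraMap F Ω (vv j e) * u e) < 1)
  {ι : Ω →ₐ[F] S} (hι : ∀ c, ι c = π (lc W lam c))

omit [Algebra F E] [IsScalarTower F E Ω] in
include hι in
lemma sum_iota (c : Fin (m + 1) → Ω) :
    ∑ e, UL.xg π (fun j i => algebraMap F Ω (vv j i)) e * ι (c e) =
      π (fun j => ∑ e, algebraMap F Ω (vv j e) * lc W lam (c e) j) := by
  have h2 : (fun j => ∑ e, algebraMap F Ω (vv j e) * lc W lam (c e) j) =
      ∑ e, (fun j => algebraMap F Ω (vv j e)) * lc W lam (c e) := by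
    funext j
    simp only [Finset.sum_apply, Pi.mul_apply]
  rw [h2, map_sum]
  refine Finset.sum_congr rfl fun i _ => ?_
  rw [map_mul, hι]
  rfl

include hE hlam in
/-- the residue of a linear combination -/
lemma lc_sum {j : J} {c : Fin (m + 1) → Ω} (hc : ∀ e, c e ∈ W j)
    (hs : ∑ e, algebraMap F Ω (vv j e) * c e ∈ W j) :
    ∑ e, algebraMap F Ω (vv j e) * lc W lam (c e) j =
      algebraMap E Ω (lam j ⟨∑ e, algebraMap F Ω (vv j e) * c e, hs⟩) := by
  have hF : ∀ r : F, algebraMap F Ω r ∈ W j := fun r => by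
    rw [IsScalarTower.algebraMap_apply F E Ω]; exact hE j _
  have hlF : ∀ r : F, lam j ⟨algebraMap F Ω r, hF r⟩ = algebraMap F E r := by
    intro r
    have h2 : ∀ (x : Ω) (hx : x ∈ W j), x = algebraMap E Ω (algebraMap F E r) →
        lam j ⟨x, hx⟩ = algebraMap F E r := by
      intro x hx hxe
      subst hxe
      exact hlam j _ _
    exact h2 _ _ (IsScalarTower.algebraMap_apply F E Ω r)
  have h1 : (⟨∑ e, algebraMap F Ω (vv j e) * c e, hs⟩ : W j) =
      ∑ e, ⟨algebraMap F Ω (vv j e), hF _⟩ * ⟨c e, hc e⟩ := by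
    apply Subtype.ext
    change _ = (W j).subtype _
    rw [map_sum]
    rfl
  rw [h1, map_sum, map_sum]
  refine Finset.sum_congr rfl fun e _ => ?_
  rw [lc_of_mem (hc e), map_mul, map_mul, hlF, ← IsScalarTower.algebraMap_apply]

include h hE hlam hlam0 hmem hu0 hv hι in
/-- the relation of the generic coefficients -/
lemma rel_W : UL.xg π (fun j i => algebraMap F Ω (vv j i)) 0 +
    ∑ i : Fin m, UL.xg π (fun j i => algebraMap F Ω (vv j i)) i.succ * ι (u i.succ) = 0 := by
  have h1 := sum_iota (vv := vv) hι u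
  rw [Fin.sum_univ_succ, hu0, map_one, mul_one] at h1
  rw [h1, h.eq0]
  filter_upwards [hv, Filter.eventually_all.2 fun e => hmem (u e)] with j h2 h3
  have hs : ∑ e, algebraMap F Ω (vv j e) * u e ∈ W j := ((W j).valuation_le_one_iff _).1 h2.le
  rw [lc_sum hE hlam h3 hs, (hlam0 j ⟨_, hs⟩).2 h2, map_zero]

variable {T : Ω} (halg : ∀ c : Ω, IsAlgebraic (IntermediateField.adjoin F {T}) c)
  (hU : ∀ Ψ : MvPolynomial (Fin (m + 1)) F, Ψ ≠ 0 →
    ∀ᶠ j in (U : Filter J), MvPolynomial.eval (vv j) Ψ ≠ 0)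

omit [Field Ω] [Algebra F Ω] in
lemma alg_iota {F Ω : Type u} [Field F] [Field Ω] [Algebra F Ω] [Algebra F S] {ι : Ω →ₐ[F] S}
    {T : Ω} (halg : ∀ c : Ω, IsAlgebraic (IntermediateField.adjoin F {T}) c) (c : Ω) :
    IsAlgebraic (IntermediateField.adjoin F {ι T}) (ι c) := by
  refine isAlg_map' ι (halg c) (fun r => ?_) ?_
  · exact ⟨algebraMap F _ r, rfl⟩
  · exact ⟨⟨ι T, IntermediateField.mem_adjoin_simple_self _ _⟩, rfl⟩

include h hFS hE hlam hlam0 hmem hu0 hv hι halg hU in
/-- generic linear combinations do not vanish at the generic zero -/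
lemma eventually_sum_ne {c : Fin (m + 1) → Ω} {i₀ : Fin m}
    (hi₀ : c i₀.succ - u i₀.succ * c 0 ≠ 0) :
    ∀ᶠ j in (U : Filter J), ∑ e, algebraMap F Ω (vv j e) * lc W lam (c e) j ≠ 0 := by
  by_contra hcon
  rw [← Ultrafilter.eventually_not] at hcon
  have h1 : ∑ e, UL.xg π (fun j i => algebraMap F Ω (vv j i)) e * ι (c e) = 0 := by
    rw [sum_iota hι, h.eq0]
    filter_upwards [hcon] with j hj
    push Not at hj
    exact hj
  have hai := ai_xg h hFS hU
  have hrel := rel_W h hE hlam hlam0 hmem hu0 hv hι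
  refine sum_ne_W hai hrel (τ := ι T) (fun i => alg_iota halg _)
    (e := fun i => ι (c i.succ - u i.succ * c 0)) (fun i => alg_iota halg _)
    (i₀ := i₀) ((_root_.map_ne_zero ι).2 hi₀) ?_
  rw [Fin.sum_univ_succ, eq_neg_of_add_eq_zero_left hrel] at h1
  rw [← h1, neg_mul, Finset.sum_mul, ← sub_eq_neg_add, ← Finset.sum_sub_distrib]
  refine Finset.sum_congr rfl fun i _ => ?_
  rw [map_sub, map_mul]
  ring

variable (hU2 : ∀ Q : (MvPolynomial (Fin (m + 1)) F)[X], 2 ≤ Q.natDegree →
    Irreducible (Q.map (algebraMap (MvPolynomial (Fin (m + 1)) F)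
      (FractionRing (MvPolynomial (Fin (m + 1)) F)))) →
    ∀ᶠ j in (U : Filter J), ∀ x : F, eval₂ (MvPolynomial.eval (vv j)) x Q ≠ 0)

include h hFS hE hlam hlam0 hmem hu0 hv hι halg hU hU2 in
/-- **The residue of an element outside `k` is almost never in the residue field of `k`.** -/
theorem eventually_notMem_W [CharZero F] {κ : IntermediateField F Ω} (hTκ : T ∈ κ) {θ : Ω}
    (hθκ : θ ∈ κ) (huκ : ∀ e, u e ∈ κ) {b : Ω} (hb : b ∉ κ) :
    ∀ᶠ j in (U : Filter J), ∀ (hb : b ∈ W j) (hT : T ∈ W j) (hθ : θ ∈ W j),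
      lam j ⟨b, hb⟩ ∉ IntermediateField.adjoin F {lam j ⟨T, hT⟩, lam j ⟨θ, hθ⟩} := by
  by_contra hcon
  rw [← Ultrafilter.eventually_not] at hcon
  push Not at hcon
  apply hb
  set a := UL.xg π (fun j i => algebraMap F Ω (vv j i)) with ha
  set τ' : S := ι T with hτ'
  have hai : AlgebraicIndependent F a := ai_xg h hFS hU
  have hrel : a 0 + ∑ i : Fin m, a i.succ * ι (u i.succ) = 0 :=
    rel_W h hE hlam hlam0 hmem hu0 hv hι
  have hιR0 : ∀ c : Ω, IsAlgebraic (IntermediateField.adjoin F {τ'}) (ι c) := alg_iota halg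
  have hcR0 : ∀ i : Fin m, IsAlgebraic (IntermediateField.adjoin F {τ'}) (ι (u i.succ)) :=
    fun i => hιR0 _
  -- the fields
  let L := UL.Lg π vv
  let Fs := h.gsub (algebraMap F Ω).fieldRange
  have hL1 : ∀ r : F, algebraMap F S r ∈ L := fun r => by
    rw [hFS]
    exact Subfield.subset_closure (Or.inl ⟨r, rfl⟩)
  have hL2 : ∀ i, a i ∈ L := fun i => Subfield.subset_closure (Or.inr ⟨i, rfl⟩)
  have hLFs : L ≤ Fs := by
    change Subfield.closure _ ≤ _
    rw [Subfield.closure_le, Set.union_subset_iff]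
    refine ⟨?_, ?_⟩
    · rintro _ ⟨c, rfl⟩
      exact ⟨fun _ => algebraMap F Ω c, fun _ => ⟨c, rfl⟩, rfl⟩
    · rintro _ ⟨i, rfl⟩
      exact ⟨fun j => algebraMap F Ω (vv j i), fun j => ⟨vv j i, rfl⟩, rfl⟩
  let _ : Algebra L Fs := (Subfield.inclusion hLFs).toAlgebra
  have : IsScalarTower L Fs S := IsScalarTower.of_algebraMap_eq fun x => rfl
  have : CharZero S := charZero_of_injective_algebraMap (algebraMap F S).injective
  have : CharZero L := inferInstance
  have hrelcl : ∀ x : Fs, IsAlgebraic L x → x ∈ Set.range (algebraMap L Fs) := by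
    intro x hx
    have h1 : IsAlgebraic L (x : S) :=
      (isAlgebraic_algebraMap_iff (A := S) (algebraMap Fs S).injective).2 hx
    have h2 := UL.Lg_closed h hU hU2 x.2 h1
    exact ⟨⟨x, h2⟩, rfl⟩
  -- algebraicity over the generic field
  have hτL : IsAlgebraic L τ' := by
    have h1 := tau_alg_W hai hrel hcR0
    obtain ⟨p, hp0, hp⟩ := h1
    obtain ⟨i₀, hi₀⟩ : ∃ i : Fin (p.natDegree + 1), p.coeff i ≠ 0 :=
      ⟨Fin.last _, by rw [Fin.val_last]; exact leadingCoeff_ne_zero.2 hp0⟩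
    refine isAlg_of_rel (N := p.natDegree + 1)
      (r := fun i => ((p.coeff i : IntermediateField.adjoin F (Set.range a)) : S))
      (fun i => ?_) i₀ (fun h => hi₀ (Subtype.ext h)) ?_
    · have h2 : IntermediateField.adjoin F (Set.range a) ≤ L.toIntermediateField hL1 := by
        rw [IntermediateField.adjoin_le_iff]
        rintro _ ⟨i, rfl⟩
        exact hL2 i
      exact ⟨⟨_, h2 (p.coeff i).2⟩, rfl⟩
    · rw [← hp, aeval_eq_sum_range, Finset.sum_range]
      refine Finset.sum_congr rfl fun i _ => ?_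
      rw [Algebra.smul_def]
      rfl
  have hιL : ∀ c : Ω, IsAlgebraic L (ι c) := by
    intro c
    let A := algebraicClosure L S
    have hA : ∀ x : S, x ∈ A ↔ IsAlgebraic L x := fun x => mem_algebraicClosure_iff
    have h1 : IsAlgebraic A (ι c) := by
      refine isAlg_map' ι (halg c) (fun r => ?_) ?_
      · exact ⟨⟨algebraMap F S r, (hA _).2 (isAlgebraic_algebraMap (⟨_, hL1 r⟩ : L))⟩, rfl⟩
      · exact ⟨⟨τ', (hA _).2 hτL⟩, rfl⟩
    exact h1.restrictScalars L
  -- a bounded equation of the residue of `T`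
  obtain ⟨N₁, p, hp⟩ : ∃ (N₁ : ℕ) (p : J → F[X]), ∀ᶠ j in (U : Filter J), p j ≠ 0 ∧
      (p j).natDegree ≤ N₁ ∧ ∀ hT : T ∈ W j, aeval (lam j ⟨T, hT⟩) (p j) = 0 := by
    obtain ⟨q, hq0, hq⟩ := hτL
    have h1 : ∀ i : ℕ, ∃ g : J → F, ((q.coeff i : L) : S) = π (fun j => algebraMap F Ω (g j)) := by
      intro i
      obtain ⟨f, hf, hf'⟩ := hLFs (q.coeff i).2
      choose g hg using hf
      refine ⟨g, ?_⟩
      rw [← hf']
      congr 1
      funext j
      exact (hg j).symm
    choose g hg using h1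
    refine ⟨q.natDegree, fun j => ∑ i : Fin (q.natDegree + 1), C (g i j) * X ^ (i : ℕ), ?_⟩
    have h2 : π (fun j => ∑ i : Fin (q.natDegree + 1), algebraMap F Ω (g i j) *
        lc W lam T j ^ (i : ℕ)) = 0 := by
      have h3 : (fun j => ∑ i : Fin (q.natDegree + 1), algebraMap F Ω (g i j) *
          lc W lam T j ^ (i : ℕ)) = ∑ i : Fin (q.natDegree + 1),
          (fun j => algebraMap F Ω (g i j)) * (lc W lam T) ^ (i : ℕ) := by
        funext j
        simp only [Finset.sum_apply, Pi.mul_apply, Pi.pow_apply]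
      rw [h3, map_sum, ← hq, aeval_eq_sum_range, Finset.sum_range]
      refine Finset.sum_congr rfl fun i _ => ?_
      rw [map_mul, map_pow, ← hι, Algebra.smul_def, ← hg]
      rfl
    have h4 : π (fun j => algebraMap F Ω (g q.natDegree j)) ≠ 0 := by
      rw [← hg]
      intro h5
      exact leadingCoeff_ne_zero.2 hq0 (Subtype.ext h5)
    rw [h.eq0] at h2
    rw [h.ne0] at h4
    filter_upwards [h2, h4] with j k1 k2
    refine ⟨?_, ?_, ?_⟩
    · intro h0
      apply k2
      have h7 := congrArg (fun p => coeff p q.natDegree) h0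
      simp only [finsetSum_coeff, coeff_C_mul_X_pow, coeff_zero] at h7
      rw [Finset.sum_eq_single (Fin.last q.natDegree)] at h7
      · rw [if_pos (by simp)] at h7
        rw [Fin.val_last] at h7
        rw [h7, map_zero]
      · intro i _ hi
        rw [if_neg]
        intro h8
        apply hi
        apply Fin.ext
        rw [Fin.val_last]
        exact h8.symm
      · intro h8
        exact absurd (Finset.mem_univ _) h8
    · refine natDegree_sum_le_of_forall_le _ _ fun i _ => ?_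
      refine (natDegree_C_mul_X_pow_le _ _).trans ?_
      exact Nat.lt_succ_iff.1 i.2
    · intro hT
      apply (algebraMap E Ω).injective
      rw [map_zero, ← k1, map_sum, map_sum]
      refine Finset.sum_congr rfl fun i _ => ?_
      rw [map_mul, aeval_C, map_pow, aeval_X, map_mul, map_pow, lc_of_mem hT,
        ← IsScalarTower.algebraMap_apply]
  -- the element is in the field generated over `Fs`
  have hFsmem : ι b ∈ IntermediateField.adjoin Fs {τ', ι θ} := by
    obtain ⟨n, q, hqn, hqsum⟩ := A1.exists_rel T θ (halg θ)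
    have hqn' : ∀ᶠ j in (U : Filter J), lc W lam (aeval T (q n)) j ≠ 0 := by
      rw [← h.ne0, ← hι]
      exact (_root_.map_ne_zero ι).2 hqn
    set N := max N₁ n with hN
    have h1 : ∀ᶠ j in (U : Filter J), ∃ c : Fin N → Fin N → F,
        lc W lam b j = ∑ l, (∑ i, algebraMap F Ω (c l i) * lc W lam T j ^ (i : ℕ)) *
          (lc W lam θ j) ^ (l : ℕ) := by
      filter_upwards [hcon, hqn', hmem (aeval T (q n)), hp] with j h1 h2 h3 h4
      obtain ⟨hb, h5, hθ, hbθ⟩ := h1
      obtain ⟨hp0, hpdeg, hpτ⟩ := h4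
      have hF : ∀ r : F, algebraMap F Ω r ∈ W j := fun r => by
        rw [IsScalarTower.algebraMap_apply F E Ω]; exact hE j _
      have hq1 : ∀ p : F[X], ∀ hp : aeval T p ∈ W j,
          lam j ⟨aeval T p, hp⟩ = aeval (lam j ⟨T, h5⟩) p := by
        intro p hp
        refine lam_mem hlam (hE j) hp (hlam0 j) ?_
        have h7 := val_sub_aeval (hE j) (lam_sub (hE j) (hlam j) (hlam0 j) ⟨T, h5⟩)
          (p.map (algebraMap F E))
        rwa [aeval_map_algebraMap, eval_map_algebraMap] at h7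
      rw [lc_of_mem h3, hq1] at h2
      have h2' : aeval (lam j ⟨T, h5⟩) (q n) ≠ 0 := fun h => h2 (by rw [h, map_zero])
      have hrelθ : ∑ i ∈ Finset.range (n + 1), aeval (lam j ⟨T, h5⟩) (q i) *
          (lam j ⟨θ, hθ⟩) ^ i = 0 := by
        have h7 : (∑ i ∈ Finset.range (n + 1), (⟨aeval T (q i), aeval_mem_O hF h5 _⟩ : W j) *
            ⟨θ, hθ⟩ ^ i) = 0 := by
          apply Subtype.ext
          change (W j).subtype _ = _
          rw [map_sum]
          exact hqsum
        have h8 := congrArg (lam j) h7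
        rw [map_zero, map_sum] at h8
        rw [← h8]
        refine Finset.sum_congr rfl fun i _ => ?_
        rw [map_mul, map_pow, hq1]
      obtain ⟨c, hc⟩ := exists_small2 hp0 (hpτ h5) (hpdeg.trans (le_max_left _ _)) h2' hrelθ
        (le_max_right _ _) hbθ
      refine ⟨c, ?_⟩
      rw [lc_of_mem hb, lc_of_mem hθ, lc_of_mem h5, hc, map_sum]
      refine Finset.sum_congr rfl fun l _ => ?_
      rw [map_mul, map_pow, map_sum]
      congr 1
      refine Finset.sum_congr rfl fun i _ => ?_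
      rw [map_mul, map_pow, ← IsScalarTower.algebraMap_apply]
    obtain ⟨c, hc⟩ := h1.choice
    have h2 : ι b = ∑ l, (∑ i, π (fun j => algebraMap F Ω (c j l i)) * τ' ^ (i : ℕ)) *
        (ι θ) ^ (l : ℕ) := by
      have h3 : ι b = π (fun j => ∑ l, (∑ i, algebraMap F Ω (c j l i) *
          lc W lam T j ^ (i : ℕ)) * (lc W lam θ j) ^ (l : ℕ)) := by
        rw [hι, h.eq_iff]
        exact hc
      have h4 : (fun j => ∑ l, (∑ i, algebraMap F Ω (c j l i) *
          lc W lam T j ^ (i : ℕ)) * (lc W lam θ j) ^ (l : ℕ)) =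
          ∑ l, (∑ i, (fun j => algebraMap F Ω (c j l i)) *
            (lc W lam T) ^ (i : ℕ)) * (lc W lam θ) ^ (l : ℕ) := by
        funext j
        simp only [Finset.sum_apply, Pi.mul_apply, Pi.pow_apply]
      rw [h3, h4, map_sum]
      refine Finset.sum_congr rfl fun l _ => ?_
      rw [map_mul, map_pow, map_sum, hι θ]
      congr 1
      refine Finset.sum_congr rfl fun i _ => ?_
      rw [map_mul, map_pow, ← hι T]
    rw [h2]
    refine sum_mem fun l _ => mul_mem (sum_mem fun i _ => mul_mem ?_ (pow_mem ?_ _)) (pow_mem ?_ _)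
    · exact IntermediateField.algebraMap_mem (IntermediateField.adjoin Fs {τ', ι θ})
        (⟨π (fun j => algebraMap F Ω (c j l i)), ⟨_, fun j => ⟨c j l i, rfl⟩, rfl⟩⟩ : Fs)
    · exact IntermediateField.subset_adjoin _ _ (by simp)
    · exact IntermediateField.subset_adjoin _ _ (by simp)
  have hLmem : ι b ∈ IntermediateField.adjoin L {τ', ι θ} := by
    refine RR.mem_adjoin_of_relClosed hrelcl ?_ (hιL b) hFsmem
    rintro x (rfl | hx)
    · exact hτL
    · rw [Set.mem_singleton_iff.1 hx]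
      exact hιL θ
  -- descent
  let κ' : IntermediateField F S := κ.map ι
  have hτκ' : τ' ∈ κ' := ⟨T, hTκ, rfl⟩
  have hθκ' : ι θ ∈ κ' := ⟨θ, hθκ, rfl⟩
  have hmem' : ι b ∈ IntermediateField.adjoin κ' (Set.range a) := by
    let M := IntermediateField.adjoin κ' (Set.range a)
    have hML : L ≤ M.toSubfield := by
      change Subfield.closure _ ≤ _
      rw [Subfield.closure_le, Set.union_subset_iff]
      refine ⟨?_, ?_⟩
      · rintro _ ⟨c, rfl⟩
        change UP.cst π (algebraMap F Ω c) ∈ M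
        rw [← hFS]
        exact IntermediateField.algebraMap_mem M (algebraMap F κ' c)
      · rintro _ ⟨i, rfl⟩
        exact IntermediateField.subset_adjoin _ _ ⟨i, rfl⟩
    let M' : IntermediateField L S := M.toSubfield.toIntermediateField fun x => hML x.2
    have h1 : IntermediateField.adjoin L {τ', ι θ} ≤ M' := by
      rw [IntermediateField.adjoin_le_iff]
      rintro x (rfl | hx)
      · exact IntermediateField.algebraMap_mem M (⟨τ', hτκ'⟩ : κ')
      · rw [Set.mem_singleton_iff.1 hx]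
        exact IntermediateField.algebraMap_mem M (⟨ι θ, hθκ'⟩ : κ')
    exact h1 hLmem
  have h1 := mem_of_mem_W (κ := κ') hai hrel hcR0 (fun i => ⟨u i.succ, huκ _, rfl⟩) (fun x hx => by
    obtain ⟨y, -, rfl⟩ := hx
    exact hιR0 y) (hιR0 b) hmem'
  obtain ⟨y, hy, hyb⟩ := h1
  have h2 : y = b := ι.injective hyb
  rw [← h2]
  exact hy

end main

end TW
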