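import Mathlib
import Pool.Agent.Helper37.TW.T7

/-!
# Good places exist outside a thin set
-/

universe u v w

namespace TW

open Polynomial Pool.Agent.LT Pool.Agent.Helper37.UL

section prelim

variable {F k Ω : Type u} [Field F] [Field k] [Algebra F k] [Field Ω] [Algebra k Ω] [Algebra F Ω]
  [IsScalarTower F k Ω]

lemma map_adjoin_mem {s : Set k} {x : k} (hx : x ∈ IntermediateField.adjoin F s) :
    algebraMap k Ω x ∈ IntermediateField.adjoin F (algebraMap k Ω '' s) := by
  have h1 := IntermediateField.adjoin_map F s (IsScalarTower.toAlgHom F k Ω)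
  have h2 : (IsScalarTower.toAlgHom F k Ω) x ∈
      (IntermediateField.adjoin F s).map (IsScalarTower.toAlgHom F k Ω) := ⟨x, hx, rfl⟩
  rw [h1] at h2
  exact h2

/-- everything is algebraic over the rational function field -/
lemma isAlg_all [Algebra.IsAlgebraic k Ω] {T : k}
    [FiniteDimensional (IntermediateField.adjoin F {T}) k] (c : Ω) :
    IsAlgebraic (IntermediateField.adjoin F {algebraMap k Ω T}) c := by
  have h1 : Algebra.IsAlgebraic (IntermediateField.adjoin F {T}) Ω :=
    Algebra.IsAlgebraic.trans (IntermediateField.adjoin F {T}) k Ω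
  obtain ⟨p, hp0, hp⟩ := h1.isAlgebraic c
  obtain ⟨i₀, hi₀⟩ : ∃ i : Fin (p.natDegree + 1), p.coeff i ≠ 0 :=
    ⟨Fin.last _, by rw [Fin.val_last]; exact leadingCoeff_ne_zero.2 hp0⟩
  refine isAlg_of_rel (N := p.natDegree + 1)
    (r := fun i => algebraMap k Ω (p.coeff i : k)) (fun i => ?_) i₀ ?_ ?_
  · have h2 := map_adjoin_mem (Ω := Ω) (p.coeff i).2
    rw [Set.image_singleton] at h2
    exact ⟨⟨_, h2⟩, rfl⟩
  · exact (_root_.map_ne_zero _).2 (fun h => hi₀ (Subtype.ext h))
  · rw [← hp, aeval_eq_sum_range, Finset.sum_range]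
    refine Finset.sum_congr rfl fun i _ => ?_
    rw [Algebra.smul_def]
    rfl

/-- the equation of the primitive element -/
lemma exists_eqn [CharZero F] {T θ : Ω} (hT : Transcendental F T)
    (hθ : IsAlgebraic (IntermediateField.adjoin F {T}) θ) :
    ∃ G : F[X][X], ev2 F T θ G = 0 ∧ ev2 F T θ (derivative G) ≠ 0 := by
  classical
  have hex : ∃ n : ℕ, ∃ P : F[X][X], P ≠ 0 ∧ ev2 F T θ P = 0 ∧ P.natDegree = n := by
    obtain ⟨n, q, hqn, hsum⟩ := A1.exists_rel T θ hθ
    refine ⟨_, ∑ i ∈ Finset.range (n + 1), C (q i) * X ^ i, ?_, ?_, rfl⟩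
    · intro h
      have h1 := congrArg (fun p => coeff p n) h
      simp only [finsetSum_coeff, coeff_C_mul_X_pow, coeff_zero] at h1
      rw [Finset.sum_ite_eq, if_pos (Finset.mem_range.2 (Nat.lt_succ_self n))] at h1
      rw [h1, map_zero] at hqn
      exact hqn rfl
    · rw [← hsum, map_sum]
      refine Finset.sum_congr rfl fun i _ => ?_
      rw [map_mul, map_pow, ev2_C, ev2_X]
  obtain ⟨G, hG0, hG, hGn⟩ := Nat.find_spec hex
  refine ⟨G, hG, fun h => ?_⟩
  have hpos : G.natDegree ≠ 0 := by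
    intro h0
    obtain ⟨p, hp⟩ := natDegree_eq_zero.1 h0
    rw [← hp, ev2_C] at hG
    apply hT
    refine ⟨p, ?_, hG⟩
    rintro rfl
    rw [C_0] at hp
    exact hG0 hp.symm
  have hlt : (derivative G).natDegree < G.natDegree := natDegree_derivative_lt hpos
  have hG'0 : derivative G ≠ 0 := by
    intro h0
    exact hpos (derivative_eq_zero.1 h0)
  rw [hGn] at hlt
  exact Nat.find_min hex hlt ⟨derivative G, hG'0, h, rfl⟩

end prelim

section main

variable {F k Ω : Type u} [Field F] [CharZero F] [Field k] [Algebra F k] [Field Ω]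
  [IsAlgClosed Ω] [Algebra k Ω] [Algebra F Ω] [IsScalarTower F k Ω] [Algebra.IsAlgebraic k Ω]

omit [CharZero F] [IsAlgClosed Ω] [Algebra.IsAlgebraic k Ω] in
/-- the value of the polynomial with coefficients `a` at `T` -/
lemma val_v {E : Type u} [Field E] [Algebra F E] [Algebra E Ω] [IsScalarTower F E Ω] {m : ℕ}
    {a : Fin (m + 1) → F} {T : k} {τ : E} {W : ValuationSubring Ω}
    (hE : ∀ e : E, algebraMap E Ω e ∈ W)
    (hT : W.valuation (algebraMap k Ω T - algebraMap E Ω τ) < 1)
    (hτ : ∑ i, algebraMap F E (a i) * τ ^ (i : ℕ) = 0)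
    (hτ' : ∑ i : Fin m, (((i : ℕ) + 1 : ℕ) : E) * algebraMap F E (a i.succ) * τ ^ (i : ℕ) ≠ 0) :
    W.valuation (algebraMap k Ω (∑ i, algebraMap F k (a i) * T ^ (i : ℕ))) =
      W.valuation (algebraMap k Ω T - algebraMap E Ω τ) := by
  have h1 := val_aeval_eq hE hT (v := ∑ i : Fin (m + 1), C (algebraMap F E (a i)) * X ^ (i : ℕ))
    (by
      rw [eval_finsetSum, ← hτ]
      refine Finset.sum_congr rfl fun i _ => ?_
      rw [eval_mul, eval_C, eval_pow, eval_X]) (by
      rw [derivative_sum, eval_finsetSum, Fin.sum_univ_succ]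
      intro h0
      apply hτ'
      rw [← h0]
      simp only [derivative_mul, derivative_C, zero_mul, zero_add, derivative_X_pow, Fin.val_zero,
        Fin.val_succ, Nat.cast_zero, C_0, mul_zero, eval_zero, Nat.add_sub_cancel, eval_mul,
        eval_C, eval_pow, eval_X]
      refine Finset.sum_congr rfl fun i _ => ?_
      ring)
  rw [← h1]
  congr 1
  rw [map_sum, map_sum]
  refine Finset.sum_congr rfl fun i _ => ?_
  rw [map_mul, map_mul, map_pow, map_pow, aeval_C, aeval_X, ← IsScalarTower.algebraMap_apply,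
    ← IsScalarTower.algebraMap_apply]

/-- **Good places exist outside a thin set.** -/
theorem thin_places {T : k} (hT : Transcendental F T)
    [FiniteDimensional (IntermediateField.adjoin F {T}) k] {m : ℕ} (hm : 1 ≤ m)
    (B : Finset Ω) (hB : ∀ b ∈ B, b ∉ Set.range (algebraMap k Ω)) (U0 : Finset Ω)
    (hU0 : ∀ u ∈ U0, u ≠ 0) :
    UL.IsThin {a : Fin (m + 1) → F | ¬ ∃ (W : ValuationSubring Ω) (τ : algebraicClosure F Ω),
      Base (algebraicClosure F Ω) W
        (algebraMap k Ω T - algebraMap (algebraicClosure F Ω) Ω τ) ∧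
      (∀ u ∈ U0, W.valuation u = 1) ∧
      (∑ i, algebraMap F k (a i) * T ^ (i : ℕ)) ≠ 0 ∧
      W.valuation (algebraMap k Ω (∑ i, algebraMap F k (a i) * T ^ (i : ℕ))) < 1 ∧
      (∀ z : k, z ≠ 0 → ∃ i : ℤ, W.valuation (algebraMap k Ω z) =
        W.valuation (algebraMap k Ω (∑ i, algebraMap F k (a i) * T ^ (i : ℕ))) ^ i) ∧
      ∀ b ∈ B, ∃ γ : Ω ≃ₐ[k] Ω, (∀ z, γ z ∈ W ↔ z ∈ W) ∧ γ b ≠ b} := by
  classical
  by_contra hthin
  set Z := {a : Fin (m + 1) → F | ¬ ∃ (W : ValuationSubring Ω) (τ : algebraicClosure F Ω),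
      Base (algebraicClosure F Ω) W
        (algebraMap k Ω T - algebraMap (algebraicClosure F Ω) Ω τ) ∧
      (∀ u ∈ U0, W.valuation u = 1) ∧
      (∑ i, algebraMap F k (a i) * T ^ (i : ℕ)) ≠ 0 ∧
      W.valuation (algebraMap k Ω (∑ i, algebraMap F k (a i) * T ^ (i : ℕ))) < 1 ∧
      (∀ z : k, z ≠ 0 → ∃ i : ℤ, W.valuation (algebraMap k Ω z) =
        W.valuation (algebraMap k Ω (∑ i, algebraMap F k (a i) * T ^ (i : ℕ))) ^ i) ∧
      ∀ b ∈ B, ∃ γ : Ω ≃ₐ[k] Ω, (∀ z, γ z ∈ W ↔ z ∈ W) ∧ γ b ≠ b} with hZ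
  let vv : Z → Fin (m + 1) → F := Subtype.val
  have hvv : ¬ UL.IsThin (Set.range vv) := by
    rw [Subtype.range_coe]
    exact hthin
  obtain ⟨U, hU, hU2⟩ := UL.exists_ultra_thin vv hvv
  obtain ⟨S, _, π, h⟩ := exists_up U Ω
  let _ : Algebra F S := ((UP.cst π).comp (algebraMap F Ω)).toAlgebra
  have hFS : ∀ r : F, algebraMap F S r = UP.cst π (algebraMap F Ω r) := fun _ => rfl
  -- the constants
  let E := algebraicClosure F Ω
  have hEcl : IsAlgClosure F E := algebraicClosure.isAlgClosure F Ω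
  have hEclosed : IsAlgClosed E := hEcl.isAlgClosed
  have hE0 : CharZero E := charZero_of_injective_algebraMap (algebraMap F E).injective
  set T' := algebraMap k Ω T with hT'
  have hT'tr : Transcendental F T' := (transcendental_algebraMap_iff (algebraMap k Ω).injective).2 hT
  have hT'E : Transcendental E T' := hT'tr.extendScalars E
  have halg : ∀ c : Ω, IsAlgebraic (IntermediateField.adjoin F {T'}) c := isAlg_all
  have halgE : ∀ c : Ω, IsAlgebraic (IntermediateField.adjoin E {T'}) c := by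
    intro c
    refine isAlg_map (AlgHom.id F Ω) (halg c) (fun r => ?_) ?_
    · exact ⟨algebraMap E _ (algebraMap F E r), rfl⟩
    · exact ⟨⟨T', IntermediateField.mem_adjoin_simple_self _ _⟩, rfl⟩
  -- the roots
  have hroot : ∀ j : Z, ∃ τ : E, vv j (Fin.last m) ≠ 0 →
      ∑ i, algebraMap F E (vv j i) * τ ^ (i : ℕ) = 0 := by
    intro j
    by_cases hj : vv j (Fin.last m) = 0
    · exact ⟨0, fun h => absurd hj h⟩
    · let p : E[X] := ∑ i : Fin (m + 1), C (algebraMap F E (vv j i)) * X ^ (i : ℕ)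
      have hpm : p.coeff m = algebraMap F E (vv j (Fin.last m)) := by
        change coeff (∑ i : Fin (m + 1), C (algebraMap F E (vv j i)) * X ^ (i : ℕ)) m = _
        simp only [finsetSum_coeff, coeff_C_mul_X_pow]
        rw [Finset.sum_eq_single (Fin.last m)]
        · rw [if_pos (by simp)]
        · intro i _ hi
          rw [if_neg]
          intro h2
          apply hi
          apply Fin.ext
          rw [Fin.val_last]
          exact h2.symm
        · intro h2
          exact absurd (Finset.mem_univ _) h2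
      have hdeg : p.degree ≠ 0 := by
        intro h0
        have h1 : p.coeff m = 0 := by
          apply coeff_eq_zero_of_degree_lt
          rw [h0]
          exact_mod_cast hm
        rw [hpm, map_eq_zero] at h1
        exact hj h1
      obtain ⟨τ, hτ⟩ := IsAlgClosed.exists_root p hdeg
      refine ⟨τ, fun _ => ?_⟩
      rw [IsRoot.def] at hτ
      rw [← hτ]
      change _ = eval τ (∑ i : Fin (m + 1), C (algebraMap F E (vv j i)) * X ^ (i : ℕ))
      rw [eval_finsetSum]
      refine Finset.sum_congr rfl fun i _ => ?_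
      rw [eval_mul, eval_C, eval_pow, eval_X]
  choose τ hτ0 using hroot
  have hτ : ∀ᶠ j in (U : Filter Z), ∑ i, algebraMap F E (vv j i) * τ j ^ (i : ℕ) = 0 := by
    filter_upwards [hU (MvPolynomial.X (Fin.last m)) (MvPolynomial.X_ne_zero _)] with j hj
    rw [MvPolynomial.eval_X] at hj
    exact hτ0 j hj
  -- the places
  choose W hW using fun j => exists_place hT'E halgE (τ j)
  choose lam hlam hlam0 using fun j => exists_lam (hW j)
  have hWE : ∀ j, ∀ e : E, algebraMap E Ω e ∈ W j := fun j => (hW j).const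
  have hWT : ∀ j, (W j).valuation (T' - algebraMap E Ω (τ j)) < 1 := fun j =>
    ((W j).mem_nonunits_iff).1 (hW j).t_mem
  have hWT' : ∀ᶠ j in (U : Filter Z), (W j).valuation (T' - algebraMap E Ω (τ j)) < 1 :=
    Filter.Eventually.of_forall hWT
  -- the primitive element
  have hchark : CharZero k := charZero_of_injective_algebraMap (algebraMap F k).injective
  obtain ⟨θ, hθ⟩ := Field.exists_primitive_element (IntermediateField.adjoin F {T}) k
  have hadj : IntermediateField.adjoin F {T, θ} = ⊤ := by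
    rw [← IntermediateField.adjoin_simple_adjoin_simple, hθ, IntermediateField.restrictScalars_top]
  obtain ⟨G, hG, hG'⟩ := exists_eqn (F := F) (θ := algebraMap k Ω θ) hT'tr (halg _)
  -- choice of a point
  let κ : IntermediateField F Ω := (IsScalarTower.toAlgHom F k Ω).fieldRange
  have hTκ : T' ∈ κ := ⟨T, rfl⟩
  have hθκ : algebraMap k Ω θ ∈ κ := ⟨θ, rfl⟩
  have hBκ : ∀ b ∈ B, ∀ᶠ j in (U : Filter Z), ∀ (hb : b ∈ W j) (hθ : algebraMap k Ω θ ∈ W j),
      lam j ⟨b, hb⟩ ∉ IntermediateField.adjoin F {τ j, lam j ⟨algebraMap k Ω θ, hθ⟩} := by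
    intro b hb
    refine eventually_notMem h hFS hU hU2 hτ hWE hWT' hlam hlam0 halg hTκ hθκ ?_
    intro h1
    exact hB b hb h1
  obtain ⟨j, h1, h2, h3, h4, h5, h6, h7⟩ := (hτ.and ((eventually_deriv_ne h hFS hU hτ hm).and
    (((Filter.eventually_all_finset U0).2 fun u hu =>
      eventually_unit h hFS hU hτ hWE hWT' (hU0 u hu) (halg u)).and
    ((eventually_unit h hFS hU hτ hWE hWT' hG' (halg _)).and
    ((eventually_mem h hFS hU hτ hWE hWT' (halg (algebraMap k Ω θ))).and
    (((Filter.eventually_all_finset B).2 fun b _ =>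
      eventually_mem h hFS hU hτ hWE hWT' (halg b)).and
    ((Filter.eventually_all_finset B).2 hBκ))))))).exists
  have hv := val_v (k := k) (hWE j) (hWT j) h1 h2
  apply j.2
  refine ⟨W j, τ j, hW j, h3, ?_, ?_, ?_, ?_⟩
  · intro h0
    have h8 : (∑ i, algebraMap F k (vv j i) * T ^ (i : ℕ)) = 0 := h0
    rw [h8, map_zero, map_zero] at hv
    exact (Valuation.ne_zero_iff _).2 (hW j).t_ne hv.symm
  · exact lt_of_eq_of_lt hv (hWT j)
  · intro z hz
    have h8 : algebraMap k Ω z ∈ IntermediateField.adjoin F {T', algebraMap k Ω θ} := by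
      have h9 : z ∈ IntermediateField.adjoin F {T, θ} := by
        rw [hadj]; exact IntermediateField.mem_top
      have h10 := map_adjoin_mem (Ω := Ω) h9
      rwa [Set.image_pair] at h10
    obtain ⟨i, hi⟩ := vals_k (hW j) (lam_sub (hWE j) (hlam j) (hlam0 j) ⟨_, h5⟩) hG h4 h8
      ((_root_.map_ne_zero _).2 hz)
    refine ⟨i, hi.trans ?_⟩
    exact congrArg (fun x => x ^ i) hv.symm
  · intro b hb
    exact exists_gamma hadj (hW j) hT'E halgE (hlam j) (hlam0 j) hG h4 h5 (h6 b hb)
      (h7 b hb (h6 b hb) h5)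

end main

end TW
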