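import Mathlib
import Pool.Agent.Helper37.TW.W4
import Pool.Agent.Helper37.TW.T8
import Pool.Agent.Helper10.UL.ThinOne

/-!
# Good places exist outside a thin set: linear systems
-/

universe u v w

namespace TW

open Polynomial Pool.Agent.LT Pool.Agent.Helper37.UL

section prelim

variable {F Ω : Type u} [Field F] [Field Ω] [Algebra F Ω]

/-- the Jacobian with respect to the equation of the curve -/
noncomputable def jac {R : Type*} [CommRing R] (G P : R[X][X]) : R[X][X] :=
  dX P * derivative G - dX G * derivative P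

lemma jac_lin {R : Type*} [CommRing R] {ι : Type*} (s : Finset ι) (G : R[X][X]) (c : ι → R)
    (P : ι → R[X][X]) : jac G (∑ e ∈ s, C (C (c e)) * P e) = ∑ e ∈ s, C (C (c e)) * jac G (P e) := by
  unfold jac
  rw [dX_sum, derivative_sum, Finset.sum_mul, Finset.mul_sum, ← Finset.sum_sub_distrib]
  refine Finset.sum_congr rfl fun e _ => ?_
  rw [dX_C_mul, derivative_C, C_0, zero_mul, zero_add, derivative_C_mul]
  ring

lemma jac_X_mul {R : Type*} [CommRing R] (G Q : R[X][X]) :
    jac G (C X * Q) = Q * derivative G + C X * jac G Q := by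
  unfold jac
  rw [dX_C_mul, derivative_X, C_1, one_mul, derivative_C_mul]
  ring

lemma jac_map {R R' : Type*} [CommRing R] [CommRing R'] (f : R →+* R') (G P : R[X][X]) :
    jac (G.map (mapRingHom f)) (P.map (mapRingHom f)) = (jac G P).map (mapRingHom f) := by
  unfold jac
  rw [Polynomial.map_sub, Polynomial.map_mul, Polynomial.map_mul, dX_map, dX_map, derivative_map,
    derivative_map]

/-- common denominators -/
lemma exists_common {m : ℕ} {T θ : Ω} {u : Fin (m + 1) → Ω} (hu0 : u 0 = 1) {i₁ : Fin m}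
    (hu1 : u i₁.succ = T) (hu : ∀ e, u e ∈ IntermediateField.adjoin F {T, θ}) :
    ∃ (Q : F[X][X]) (P : Fin (m + 1) → F[X][X]), ev2 F T θ Q ≠ 0 ∧ P 0 = Q ∧
      P i₁.succ = C X * Q ∧ ∀ e, ev2 F T θ (P e) = u e * ev2 F T θ Q := by
  classical
  choose A B hB hAB using fun e => exists_div (hu e)
  have hQ : ev2 F T θ (∏ e, B e) ≠ 0 := by
    rw [map_prod]
    exact Finset.prod_ne_zero_iff.2 fun e _ => hB e
  refine ⟨∏ e, B e, fun e => if e = 0 then ∏ e, B e else if e = i₁.succ then C X * ∏ e, B e else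
    A e * ∏ e' ∈ Finset.univ.erase e, B e', hQ, ?_, ?_, ?_⟩
  · dsimp only
    rw [if_pos rfl]
  · dsimp only
    rw [if_neg (Fin.succ_ne_zero _), if_pos rfl]
  · intro e
    dsimp only
    by_cases h0 : e = 0
    · rw [if_pos h0, h0, hu0, one_mul]
    by_cases h1 : e = i₁.succ
    · rw [if_neg h0, if_pos h1, map_mul, ev2_C, aeval_X, h1, hu1]
    · rw [if_neg h0, if_neg h1, map_mul, hAB e, ← Finset.mul_prod_erase _ _ (Finset.mem_univ e),
        map_mul]
      field_simp [hB e]

/-- the linear combinations which are algebraic -/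
lemma thin_algebraic {m : ℕ} {u : Fin (m + 1) → Ω} {e₁ : Fin (m + 1)}
    (hT : Transcendental F (u e₁)) :
    UL.IsThin {a : Fin (m + 1) → F | ¬ Transcendental F (∑ e, algebraMap F Ω (a e) * u e)} := by
  classical
  let p : Submodule F (Fin (m + 1) → F) :=
    { carrier := {a | IsAlgebraic F (∑ e, algebraMap F Ω (a e) * u e)}
      add_mem' := by
        intro a b ha hb
        change IsAlgebraic F (∑ e, algebraMap F Ω ((a + b) e) * u e)
        have h1 : ∑ e, algebraMap F Ω ((a + b) e) * u e =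
            ∑ e, algebraMap F Ω (a e) * u e + ∑ e, algebraMap F Ω (b e) * u e := by
          rw [← Finset.sum_add_distrib]
          refine Finset.sum_congr rfl fun e _ => ?_
          rw [Pi.add_apply, map_add]
          ring
        rw [h1]
        exact IsAlgebraic.add ha hb
      zero_mem' := by
        change IsAlgebraic F (∑ e, algebraMap F Ω ((0 : Fin (m + 1) → F) e) * u e)
        simp only [Pi.zero_apply, map_zero, zero_mul, Finset.sum_const_zero]
        exact isAlgebraic_zero
      smul_mem' := by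
        intro c a ha
        change IsAlgebraic F (∑ e, algebraMap F Ω ((c • a) e) * u e)
        have h1 : ∑ e, algebraMap F Ω ((c • a) e) * u e =
            algebraMap F Ω c * ∑ e, algebraMap F Ω (a e) * u e := by
          rw [Finset.mul_sum]
          refine Finset.sum_congr rfl fun e _ => ?_
          rw [Pi.smul_apply, smul_eq_mul, map_mul]
          ring
        rw [h1]
        exact IsAlgebraic.mul (isAlgebraic_algebraMap c) ha }
  have hp : p < ⊤ := by
    rw [lt_top_iff_ne_top]
    intro h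
    apply hT
    have h1 : (Pi.single e₁ 1 : Fin (m + 1) → F) ∈ p := by rw [h]; trivial
    have h2 : IsAlgebraic F (∑ e, algebraMap F Ω ((Pi.single e₁ 1 : Fin (m + 1) → F) e) * u e) := h1
    rw [Finset.sum_eq_single e₁] at h2
    · rwa [Pi.single_eq_same, map_one, one_mul] at h2
    · intro b _ hb
      rw [Pi.single_eq_of_ne hb, map_zero, zero_mul]
    · intro h3
      exact absurd (Finset.mem_univ _) h3
  obtain ⟨f, hf0, hf⟩ := Submodule.exists_le_ker_of_lt_top p hp
  obtain ⟨i, hi⟩ : ∃ i, f (Pi.single i 1) ≠ 0 := by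
    by_contra hcon
    push Not at hcon
    apply hf0
    refine LinearMap.pi_ext' fun i => ?_
    ext
    simp [hcon i]
  refine UL.IsThin.of_zeros (Ψ := ∑ e, MvPolynomial.C (f (Pi.single e 1)) * MvPolynomial.X e) ?_ ?_
  · intro h0
    apply hi
    have h1 := congrArg (MvPolynomial.coeff (Finsupp.single i 1)) h0
    rw [MvPolynomial.coeff_sum, Finset.sum_eq_single i, MvPolynomial.coeff_C_mul,
      MvPolynomial.coeff_X, if_pos rfl, mul_one, MvPolynomial.coeff_zero] at h1
    · exact h1
    · intro b _ hb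
      rw [MvPolynomial.coeff_C_mul, MvPolynomial.coeff_X, if_neg, mul_zero]
      intro h2
      exact hb ((Finsupp.single_left_inj one_ne_zero).1 h2)
    · intro h2
      exact absurd (Finset.mem_univ _) h2
  · intro a ha
    have h1 : a ∈ p := by
      by_contra h
      exact ha h
    have h2 : f a = 0 := hf h1
    rw [map_sum, ← h2]
    conv_rhs => rw [LinearMap.pi_apply_eq_sum_univ f a]
    refine Finset.sum_congr rfl fun e _ => ?_
    rw [map_mul, MvPolynomial.eval_C, MvPolynomial.eval_X, smul_eq_mul, mul_comm]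
    congr 2
    funext j
    rw [Pi.single_apply]
    simp only [eq_comm]

end prelim

section main

variable {F k Ω : Type u} [Field F] [CharZero F] [Field k] [Algebra F k] [Field Ω]
  [IsAlgClosed Ω] [Algebra k Ω] [Algebra F Ω] [IsScalarTower F k Ω] [Algebra.IsAlgebraic k Ω]

/-- **Good places exist outside a thin set**, normalised linear systems. -/
theorem thin_places_u {T : k} (hT : Transcendental F T)
    [FiniteDimensional (IntermediateField.adjoin F {T}) k] {m : ℕ} {u : Fin (m + 1) → k}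
    (hu0 : u 0 = 1) {i₁ : Fin m} (hu1 : u i₁.succ = T)
    (B : Finset Ω) (hB : ∀ b ∈ B, b ∉ Set.range (algebraMap k Ω)) (U0 : Finset Ω)
    (hU0 : ∀ u ∈ U0, u ≠ 0) :
    UL.IsThin {a : Fin (m + 1) → F | ¬ ∃ (W : ValuationSubring Ω) (τ : algebraicClosure F Ω),
      Base (algebraicClosure F Ω) W
        (algebraMap k Ω T - algebraMap (algebraicClosure F Ω) Ω τ) ∧
      (∀ u ∈ U0, W.valuation u = 1) ∧
      (∑ i, algebraMap F k (a i) * u i) ≠ 0 ∧
      W.valuation (algebraMap k Ω (∑ i, algebraMap F k (a i) * u i)) < 1 ∧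
      (∀ z : k, z ≠ 0 → ∃ i : ℤ, W.valuation (algebraMap k Ω z) =
        W.valuation (algebraMap k Ω (∑ i, algebraMap F k (a i) * u i)) ^ i) ∧
      ∀ b ∈ B, ∃ γ : Ω ≃ₐ[k] Ω, (∀ z, γ z ∈ W ↔ z ∈ W) ∧ γ b ≠ b} := by
  classical
  set Z := {a : Fin (m + 1) → F | ¬ ∃ (W : ValuationSubring Ω) (τ : algebraicClosure F Ω),
      Base (algebraicClosure F Ω) W
        (algebraMap k Ω T - algebraMap (algebraicClosure F Ω) Ω τ) ∧
      (∀ u ∈ U0, W.valuation u = 1) ∧
      (∑ i, algebraMap F k (a i) * u i) ≠ 0 ∧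
      W.valuation (algebraMap k Ω (∑ i, algebraMap F k (a i) * u i)) < 1 ∧
      (∀ z : k, z ≠ 0 → ∃ i : ℤ, W.valuation (algebraMap k Ω z) =
        W.valuation (algebraMap k Ω (∑ i, algebraMap F k (a i) * u i)) ^ i) ∧
      ∀ b ∈ B, ∃ γ : Ω ≃ₐ[k] Ω, (∀ z, γ z ∈ W ↔ z ∈ W) ∧ γ b ≠ b} with hZ
  let Z' := {a : Fin (m + 1) → F | a ∈ Z ∧ Transcendental F (∑ e, algebraMap F k (a e) * u e)}
  suffices hthin : UL.IsThin Z' by
    refine (hthin.union (thin_algebraic (u := u) (e₁ := i₁.succ) (by rw [hu1]; exact hT))).mono ?_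
    intro a ha
    by_cases h : Transcendental F (∑ e, algebraMap F k (a e) * u e)
    · exact Or.inl ⟨ha, h⟩
    · exact Or.inr h
  by_contra hthin
  let vv : Z' → Fin (m + 1) → F := Subtype.val
  have hvv : ¬ UL.IsThin (Set.range vv) := by
    rw [Subtype.range_coe]
    exact hthin
  obtain ⟨U, hU, hU2⟩ := UL.exists_ultra_thin vv hvv
  obtain ⟨S, _, π, h⟩ := exists_up U Ω
  let _ : Algebra F S := ((UP.cst π).comp (algebraMap F Ω)).toAlgebra
  have hFS : ∀ r : F, algebraMap F S r = UP.cst π (algebraMap F Ω r) := fun _ => rfl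
  -- the constants
  let E := algebraicClosure F Ω
  have hEcl : IsAlgClosure F E := algebraicClosure.isAlgClosure F Ω
  have hEclosed : IsAlgClosed E := hEcl.isAlgClosed
  have hE0 : CharZero E := charZero_of_injective_algebraMap (algebraMap F E).injective
  set T' := algebraMap k Ω T with hT'
  have hT'tr : Transcendental F T' := (transcendental_algebraMap_iff (algebraMap k Ω).injective).2 hT
  have hT'E : Transcendental E T' := hT'tr.extendScalars E
  have halg : ∀ c : Ω, IsAlgebraic (IntermediateField.adjoin F {T'}) c := isAlg_all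
  have halgE : ∀ c : Ω, IsAlgebraic (IntermediateField.adjoin E {T'}) c := by
    intro c
    refine isAlg_map (AlgHom.id F Ω) (halg c) (fun r => ?_) ?_
    · exact ⟨algebraMap E _ (algebraMap F E r), rfl⟩
    · exact ⟨⟨T', IntermediateField.mem_adjoin_simple_self _ _⟩, rfl⟩
  -- the places
  let vk : Z' → k := fun j => ∑ e, algebraMap F k (vv j e) * u e
  let u' : Fin (m + 1) → Ω := fun e => algebraMap k Ω (u e)
  have hu0' : u' 0 = 1 := by
    change algebraMap k Ω (u 0) = 1
    rw [hu0, map_one]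
  have hu1' : u' i₁.succ = T' := by
    change algebraMap k Ω (u i₁.succ) = T'
    rw [hu1]
  have hvk : ∀ j, algebraMap k Ω (vk j) = ∑ e, algebraMap F Ω (vv j e) * u' e := by
    intro j
    change algebraMap k Ω (∑ e, algebraMap F k (vv j e) * u e) = _
    rw [map_sum]
    refine Finset.sum_congr rfl fun e _ => ?_
    rw [map_mul, ← IsScalarTower.algebraMap_apply]
  have hvktr : ∀ j, Transcendental E (algebraMap k Ω (vk j)) := fun j =>
    ((transcendental_algebraMap_iff (algebraMap k Ω).injective).2 j.2.2 :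
      Transcendental F (algebraMap k Ω (vk j))).extendScalars E
  have hplace : ∀ j, ∃ W : ValuationSubring Ω, Base E W (algebraMap k Ω (vk j)) := by
    intro j
    obtain ⟨W, hW⟩ := exists_place (hvktr j) (alg_of_transcendental (hvktr j) halgE) 0
    rw [map_zero, sub_zero] at hW
    exact ⟨W, hW⟩
  choose W hW using hplace
  choose lam hlam hlam0 using fun j => exists_lam (hW j)
  have hWE : ∀ j, ∀ e : E, algebraMap E Ω e ∈ W j := fun j => (hW j).const
  have hWv : ∀ j, (W j).valuation (∑ e, algebraMap F Ω (vv j e) * u' e) < 1 := fun j => by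
    rw [← hvk]
    exact ((W j).mem_nonunits_iff).1 (hW j).t_mem
  have hWv' : ∀ᶠ j in (U : Filter Z'),
      (W j).valuation (∑ e, algebraMap F Ω (vv j e) * u' e) < 1 := Filter.Eventually.of_forall hWv
  have hmem : ∀ c : Ω, ∀ᶠ j in (U : Filter Z'), c ∈ W j :=
    eventually_mem_W hU hu0' hWE hWv' halgE
  have hunit : ∀ c : Ω, c ≠ 0 → ∀ᶠ j in (U : Filter Z'), (W j).valuation c = 1 := fun c hc =>
    eventually_unit_W hU hu0' hWE hWv' halgE hc
  obtain ⟨ι, hι⟩ := exists_iota_alg h hFS hlam hmem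
  -- the primitive element
  have hchark : CharZero k := charZero_of_injective_algebraMap (algebraMap F k).injective
  obtain ⟨θ, hθ⟩ := Field.exists_primitive_element (IntermediateField.adjoin F {T}) k
  have hadj : IntermediateField.adjoin F {T, θ} = ⊤ := by
    rw [← IntermediateField.adjoin_simple_adjoin_simple, hθ, IntermediateField.restrictScalars_top]
  set θ' := algebraMap k Ω θ with hθ'
  have hkadj : ∀ z : k, algebraMap k Ω z ∈ IntermediateField.adjoin F {T', θ'} := by
    intro z
    have h9 : z ∈ IntermediateField.adjoin F {T, θ} := by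
      rw [hadj]; exact IntermediateField.mem_top
    have h10 := map_adjoin_mem (Ω := Ω) h9
    rwa [Set.image_pair] at h10
  obtain ⟨G, hG, hG'⟩ := exists_eqn (F := F) (θ := θ') hT'tr (halg _)
  obtain ⟨Q, P, hQ0, hP0, hP1, hP⟩ := exists_common hu0' hu1' (fun e => hkadj (u e))
  -- the Jacobian
  have hjac : ∀ᶠ j in (U : Filter Z'), ∑ e, algebraMap F Ω (vv j e) *
      lc W lam (ev2 F T' θ' (jac G (P e))) j ≠ 0 := by
    refine eventually_sum_ne h hFS hWE hlam hlam0 hmem hu0' hWv' hι halg hU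
      (c := fun e => ev2 F T' θ' (jac G (P e))) (i₀ := i₁) ?_
    rw [hu1', hP0, hP1, jac_X_mul, map_add, map_mul, map_mul, ev2_C, aeval_X, add_sub_cancel_right]
    exact mul_ne_zero hQ0 hG'
  -- choice of a point
  let κ : IntermediateField F Ω := (IsScalarTower.toAlgHom F k Ω).fieldRange
  have hTκ : T' ∈ κ := ⟨T, rfl⟩
  have hθκ : θ' ∈ κ := ⟨θ, rfl⟩
  have hBκ : ∀ b ∈ B, ∀ᶠ j in (U : Filter Z'), ∀ (hb : b ∈ W j) (hT : T' ∈ W j) (hθ : θ' ∈ W j),
      lam j ⟨b, hb⟩ ∉ IntermediateField.adjoin F {lam j ⟨T', hT⟩, lam j ⟨θ', hθ⟩} := by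
    intro b hb
    refine eventually_notMem_W h hFS hWE hlam hlam0 hmem hu0' hWv' hι halg hU hU2 hTκ hθκ
      (fun e => ⟨u e, rfl⟩) ?_
    intro h1
    exact hB b hb h1
  have c9 : ∀ᶠ j in (U : Filter Z'), ∀ e, ev2 F T' θ' (jac G (P e)) ∈ W j :=
    Filter.eventually_all.2 fun e => hmem (ev2 F T' θ' (jac G (P e)))
  have c7 := (Filter.eventually_all_finset B).2 hBκ
  have c6 : ∀ᶠ j in (U : Filter Z'), ∀ b ∈ B, b ∈ W j :=
    (Filter.eventually_all_finset B).2 fun b _ => hmem b
  have c2 : ∀ᶠ j in (U : Filter Z'), ∀ u ∈ U0, (W j).valuation u = 1 :=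
    (Filter.eventually_all_finset U0).2 fun u hu => hunit u (hU0 u hu)
  obtain ⟨j, k1, k2, k3, k4, k5, k6, k7, k8, k9⟩ := (hjac.and (c2.and ((hunit _ hG').and
    ((hmem T').and ((hmem θ').and (c6.and (c7.and ((hunit _ hQ0).and c9)))))))).exists
  set τ : E := lam j ⟨T', k4⟩ with hτ
  set l : E := lam j ⟨θ', k5⟩ with hl
  have hTτ : (W j).valuation (T' - algebraMap E Ω τ) < 1 :=
    lam_sub (hWE j) (hlam j) (hlam0 j) ⟨T', k4⟩
  have hθl : (W j).valuation (θ' - algebraMap E Ω l) < 1 :=
    lam_sub (hWE j) (hlam j) (hlam0 j) ⟨θ', k5⟩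
  -- the residues of the polynomials
  have hlev : ∀ (R : F[X][X]) (hR : ev2 F T' θ' R ∈ W j),
      lam j ⟨ev2 F T' θ' R, hR⟩ = ev2 F τ l R := by
    intro R hR
    refine lam_eq (hWE j) (hlam j) (hlam0 j) ?_
    have h1 := cong (hWE j) hTτ hθl (R.map (mapRingHom (algebraMap F E)))
    rwa [ev2_map, ev2_map] at h1
  -- the simple zero
  let Pj : F[X][X] := ∑ e, C (C (vv j e)) * P e
  have hPj : ev2 F T' θ' Pj = algebraMap k Ω (vk j) * ev2 F T' θ' Q := by
    change ev2 F T' θ' (∑ e, C (C (vv j e)) * P e) = _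
    rw [hvk, map_sum, Finset.sum_mul]
    refine Finset.sum_congr rfl fun e _ => ?_
    rw [map_mul, ev2_C, aeval_C, hP]
    ring
  have hvPj : (W j).valuation (ev2 F T' θ' Pj) = (W j).valuation (algebraMap k Ω (vk j)) := by
    rw [hPj, map_mul, k8, mul_one]
  have hvlt : (W j).valuation (algebraMap k Ω (vk j)) < 1 := by
    rw [hvk]
    exact hWv j
  have hPj0 : ev2 F τ l Pj = 0 := by
    have h1 : ev2 F T' θ' Pj ∈ W j := ((W j).valuation_le_one_iff _).1 (by
      rw [hvPj]; exact hvlt.le)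
    rw [← hlev Pj h1, hlam0]
    exact lt_of_eq_of_lt hvPj hvlt
  have hJj : ev2 F τ l (jac G Pj) ≠ 0 := by
    intro h0
    apply k1
    have h1 : jac G Pj = ∑ e, C (C (vv j e)) * jac G (P e) := jac_lin _ _ _ _
    rw [h1, map_sum] at h0
    rw [← map_zero (algebraMap E Ω), ← h0, map_sum]
    refine Finset.sum_congr rfl fun e _ => ?_
    rw [lc_of_mem (k9 e), hlev, map_mul, map_mul, ev2_C, aeval_C, ← IsScalarTower.algebraMap_apply]
  have hval : (W j).valuation (algebraMap k Ω (vk j)) =
      (W j).valuation (T' - algebraMap E Ω τ) := by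
    have h1 := val_simple (hWE j) hTτ hθl (G := G.map (mapRingHom (algebraMap F E)))
      (by rw [ev2_map]; exact hG) (by rw [derivative_map, ev2_map]; exact k3)
      (Pj.map (mapRingHom (algebraMap F E))) (by rw [ev2_map]; exact hPj0) (by
        change ev2 E τ l (jac (G.map (mapRingHom (algebraMap F E)))
          (Pj.map (mapRingHom (algebraMap F E)))) ≠ 0
        rw [jac_map, ev2_map]
        exact hJj)
    rw [ev2_map, hvPj] at h1
    exact h1
  -- the base
  have hTne : T' - algebraMap E Ω τ ≠ 0 := by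
    intro h0
    apply hT'E
    rw [sub_eq_zero.1 h0]
    exact isAlgebraic_algebraMap τ
  have hTtr : Transcendental E (T' - algebraMap E Ω τ) := by
    intro h0
    apply hT'E
    have h1 := h0.add (isAlgebraic_algebraMap (A := Ω) τ)
    rwa [sub_add_cancel] at h1
  have hbase : Base E (W j) (T' - algebraMap E Ω τ) :=
    ⟨hWE j, hTne, ((W j).mem_nonunits_iff).2 hTτ, alg_of_transcendental hTtr halgE⟩
  have hvk0 : vk j ≠ 0 := by
    intro h0
    rw [h0, map_zero, map_zero] at hval
    exact (Valuation.ne_zero_iff _).2 hTne hval.symm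
  apply j.2.1
  refine ⟨W j, τ, hbase, k2, hvk0, hvlt, ?_, ?_⟩
  · intro z hz
    obtain ⟨i, hi⟩ := vals_k hbase hθl hG k3 (hkadj z) ((_root_.map_ne_zero _).2 hz)
    refine ⟨i, hi.trans ?_⟩
    exact congrArg (fun x => x ^ i) hval.symm
  · intro b hb
    exact exists_gamma hadj hbase hT'E halgE (hlam j) (hlam0 j) hG k3 k5 (k6 b hb)
      (k7 b hb (k6 b hb) k4 k5)

end main

end TW
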