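import Mathlib
import Pool.Agent.Helper37.TW.W5

/-!
# Good places exist outside a thin set: linear systems (the form used for the twists)
-/

universe u

namespace Pool.Agent.TW

open UL

/-- For all `a` outside a thin set there is a valuation ring `W` of the algebraic closure of `k`, containing `F`,
at which `v = ∑ a_i w_i` has a zero, such that the values of `k` are the powers of the value of `v`, the elements of
`U0` are units and the elements of `B` are moved by the decomposition group of `W` over `k`. -/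
theorem thin_places_Wi {F k C : Type u} [Field F] [CharZero F] [Field k] [Algebra F k] [Field C]
    [Algebra k C] [IsAlgClosure k C] {T : k} (hT : Transcendental F T)
    [FiniteDimensional (IntermediateField.adjoin F {T}) k] {m : ℕ} {w : Fin (m + 1) → k}
    (hw0 : w 0 ≠ 0) {i₁ : Fin m} (hw1 : w i₁.succ = T * w 0) (B : Finset C)
    (hB : ∀ b ∈ B, b ∉ Set.range (algebraMap k C)) (U0 : Finset C) (hU0 : 0 ∉ U0) :
    IsThin {a : Fin (m + 1) → F | ¬ ∃ W : ValuationSubring C, W ≠ ⊤ ∧
      (∀ c : F, algebraMap k C (algebraMap F k c) ∈ W) ∧ (∀ u ∈ U0, W.valuation u = 1) ∧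
      algebraMap k C (∑ i, algebraMap F k (a i) * w i) ∈ W.nonunits ∧
      (∀ z : k, z ≠ 0 → ∃ i : ℤ, W.valuation (algebraMap k C z) =
        W.valuation (algebraMap k C (∑ i, algebraMap F k (a i) * w i)) ^ i) ∧
      ∀ b ∈ B, ∃ γ : C ≃ₐ[k] C, (∀ z, γ z ∈ W ↔ z ∈ W) ∧ γ b ≠ b} := by
  classical
  let _ : Algebra F C := ((algebraMap k C).comp (algebraMap F k)).toAlgebra
  have h1 : IsScalarTower F k C := IsScalarTower.of_algebraMap_eq fun _ => rfl
  have h2 : IsAlgClosed C := IsAlgClosure.isAlgClosed k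
  have h3 : Algebra.IsAlgebraic k C := IsAlgClosure.isAlgebraic
  have hu0 : w 0 / w 0 = 1 := div_self hw0
  have hu1 : w i₁.succ / w 0 = T := by rw [hw1, mul_div_cancel_right₀ _ hw0]
  have hsum : ∀ a : Fin (m + 1) → F, ∑ i, algebraMap F k (a i) * w i =
      w 0 * ∑ i, algebraMap F k (a i) * (w i / w 0) := by
    intro a
    rw [Finset.mul_sum]
    refine Finset.sum_congr rfl fun i _ => ?_
    field_simp
  refine (_root_.TW.thin_places_u (Ω := C) hT (u := fun i => w i / w 0) hu0 (i₁ := i₁) hu1 B hB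
    (insert (algebraMap k C (w 0)) U0) (fun u hu => ?_)).mono ?_
  · rcases Finset.mem_insert.1 hu with rfl | hu
    · exact (_root_.map_ne_zero _).2 hw0
    · exact fun h => hU0 (h ▸ hu)
  intro a ha hW
  apply ha
  obtain ⟨W, τ, hb, hU, hv0, hv, hd, hB'⟩ := hW
  have hval : W.valuation (algebraMap k C (∑ i, algebraMap F k (a i) * w i)) =
      W.valuation (algebraMap k C (∑ i, algebraMap F k (a i) * (w i / w 0))) := by
    rw [hsum, map_mul, map_mul, hU _ (Finset.mem_insert_self _ _), one_mul]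
  refine ⟨W, ?_, fun c => ?_, fun u hu => hU u (Finset.mem_insert_of_mem hu),
    (W.mem_nonunits_iff).2 (by rw [hval]; exact hv), fun z hz => ?_, hB'⟩
  · rintro rfl
    have h4 : (⊤ : ValuationSubring C).valuation (algebraMap k C
        (∑ i, algebraMap F k (a i) * (w i / w 0)))⁻¹ ≤ 1 :=
      (ValuationSubring.valuation_le_one_iff _ _).2 trivial
    rw [map_inv₀] at h4
    have h5 : (0 : (⊤ : ValuationSubring C).ValueGroup) <
        (⊤ : ValuationSubring C).valuation (algebraMap k C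
          (∑ i, algebraMap F k (a i) * (w i / w 0))) :=
      zero_lt_iff.2 ((Valuation.ne_zero_iff _).2 ((_root_.map_ne_zero _).2 hv0))
    exact absurd hv (not_lt.2 ((inv_le_one₀ h5).1 h4))
  · exact hb.const (algebraMap F (algebraicClosure F C) c)
  · obtain ⟨i, hi⟩ := hd z hz
    exact ⟨i, by rw [hi, hval]⟩

/-- The same with the special index `1`. -/
theorem thin_places_W {F k C : Type u} [Field F] [CharZero F] [Field k] [Algebra F k] [Field C]
    [Algebra k C] [IsAlgClosure k C] {T : k} (hT : Transcendental F T)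
    [FiniteDimensional (IntermediateField.adjoin F {T}) k] {m : ℕ} (hm : 1 ≤ m)
    {w : Fin (m + 1) → k} (hw0 : w 0 ≠ 0) (hw1 : ∀ e : Fin (m + 1), (e : ℕ) = 1 → w e = T * w 0)
    (B : Finset C)
    (hB : ∀ b ∈ B, b ∉ Set.range (algebraMap k C)) (U0 : Finset C) (hU0 : 0 ∉ U0) :
    IsThin {a : Fin (m + 1) → F | ¬ ∃ W : ValuationSubring C, W ≠ ⊤ ∧
      (∀ c : F, algebraMap k C (algebraMap F k c) ∈ W) ∧ (∀ u ∈ U0, W.valuation u = 1) ∧
      algebraMap k C (∑ i, algebraMap F k (a i) * w i) ∈ W.nonunits ∧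
      (∀ z : k, z ≠ 0 → ∃ i : ℤ, W.valuation (algebraMap k C z) =
        W.valuation (algebraMap k C (∑ i, algebraMap F k (a i) * w i)) ^ i) ∧
      ∀ b ∈ B, ∃ γ : C ≃ₐ[k] C, (∀ z, γ z ∈ W ↔ z ∈ W) ∧ γ b ≠ b} :=
  thin_places_Wi hT hw0 (i₁ := ⟨0, hm⟩) (hw1 _ rfl) B hB U0 hU0

end Pool.Agent.TW
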