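import Pool.Agent.Helper37.TW.Wts

/-!
# Project TW (MP_e66f84_ag), counting theorem, block CNt
-/

set_option autoImplicit false
set_option maxHeartbeats 1000000

namespace Pool.Agent.TW37

open Filter Topology Pool.Agent.Helper99.HG Pool.Agent.HG Pool.Agent.Helper97.HG2
open Pool.Agent.TW (WJt TBt)

variable {k : ℕ} {G : Type}

/-- the main count -/
theorem main_countt [CommGroup G] {D : CD k G} (hS : Sys D.P D.nm) {ε C : ℝ} {A : ℕ} (hC : 0 < C) (hε : 0 < ε) (hε1 : ε ≤ 1)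
    (hBT : BTc D ε C A) {z : ℕ → ℕ} {N X : ℕ} (hN : 2 ≤ N) (hz : 2 ≤ z (N - 1)) (hX : 3 ≤ X) {j₀ : Fin k} (hSp : Special D j₀)
    {os : D.P → D.O} (hos : ∀ p, (∃ o ∈ D.V p, D.cmp o = j₀) → os p ∈ D.V p ∧ D.cmp (os p) = j₀)
    {K₀ : ℕ} (hV : ∀ p, (D.V p).card ≤ K₀)
    {PB : ℕ → Finset (Fin k) → Prop} (hPB : ∀ κ J, PB κ J → J.Nonempty) (S : Finset (Finset D.P))
    (hSc : ∀ c ∈ S, Nm D c ≤ X ∧ (∃ τ : D.P → D.O, BadT D c τ ∧ ∀ κ < N, PB κ (Js (Kof D z N c τ) κ)) ∧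
      (∀ κ, 1 ≤ κ → κ + 1 ≤ N - 1 → (∏ p ∈ (pf D c).filter (fun p => D.nm p ≤ z κ), D.nm p) ^ A ≤ z (κ + 1)))
    {B : ℝ} {Bf : (Fin k → ℕ) → ℕ → ℝ}
    (hBf : ∀ K : Fin k → ℕ, (∀ j, K j ≤ N) → (∀ κ < N, PB κ (Js K κ)) → ∀ κ < N,
      ∀ t : D.P → Fin k → D.ι → G, SA (DK D j₀ os z N K) z N X K κ t ≤ Bf K κ)
    (hB : ∀ K : Fin k → ℕ, (∀ j, K j ≤ N) → (∀ κ < N, PB κ (Js K κ)) →
      ∑ κ ∈ Finset.range N, Bf K κ ≤ B) :
    (S.card : ℝ) ≤ (N + 1) ^ k * (K₀ * C * EE ε C K₀ X ^ k / Real.log (z (N - 1)) ^ (1 - ε) * X *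
      Real.exp (D.Ex.card + B)) := by
  classical
  set Ks := (Fintype.piFinset fun _ : Fin k => Finset.range (N + 1)).filter fun K => ∀ κ < N, PB κ (Js K κ) with hKs
  let SK : (Fin k → ℕ) → Finset (Finset D.P) := fun K => S.filter fun c => ∃ τ : D.P → D.O, BadT D c τ ∧ Kof D z N c τ = K
  have hsub : S ⊆ Ks.biUnion SK := by
    intro c hc
    obtain ⟨h1, ⟨τ, h2, h3⟩, h4⟩ := hSc c hc
    refine Finset.mem_biUnion.mpr ⟨Kof D z N c τ, Finset.mem_filter.mpr ⟨Fintype.mem_piFinset.mpr fun j =>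
      Finset.mem_range.mpr (Nat.lt_succ_of_le (Kof_le (by omega) c τ j)), h3⟩, Finset.mem_filter.mpr ⟨hc, τ, h2, rfl⟩⟩
  have hlX : 0 ≤ Real.log X := Real.log_natCast_nonneg X
  have hlz : 0 ≤ Real.log (z (N - 1)) := Real.log_natCast_nonneg _
  have hE0 : 0 ≤ EE ε C K₀ X := zero_le_one.trans (EE_ge_one hC hε hX)
  have hK1 : ∀ K ∈ Ks, ((SK K).card : ℝ) ≤ K₀ * C * EE ε C K₀ X ^ k / Real.log (z (N - 1)) ^ (1 - ε) * X *
      Real.exp (D.Ex.card + B) := by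
    intro K hK
    obtain ⟨hKa, hKb⟩ := Finset.mem_filter.mp hK
    have hKle : ∀ j, K j ≤ N := fun j => by
      have := Finset.mem_range.mp (Fintype.mem_piFinset.mp hKa j)
      omega
    have h1 := perKt (D := DK D j₀ os z N K) (K₀ := K₀) hS hC hε hε1 (BTc_DK hS hBT)
      (fun p => (Finset.card_le_card (DK_V_sub (D := D) (j₀ := j₀) (os := os) (z := z) (N := N) (K := K) p)).trans (hV p))
      hN hz hX hKle (hPB _ _ (hKb (N - 1) (by omega))) (SK K) (by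
        intro c hc
        obtain ⟨hcS, τ, hτ, hτK⟩ := Finset.mem_filter.mp hc
        obtain ⟨h1, _, h4⟩ := hSc c hcS
        obtain ⟨τ', h5, h6⟩ := badT_DK (z := z) (N := N) hSp hos hτ
        rw [hτK] at h5 h6
        have h7 := cover_cfg (D := DK D j₀ os z N K) (A := A) (X := X) hS h1 h5 h4
        rw [h6] at h7
        exact h7) (B := Bf K) (fun κ hκ t => hBf K hKle hKb κ hκ t)
    refine h1.trans ?_
    have h2 := hB K hKle hKb
    refine mul_le_mul_of_nonneg_left (Real.exp_le_exp.mpr ?_) (by positivity)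
    exact add_le_add le_rfl h2
  have hcard : (S.card : ℝ) ≤ ∑ K ∈ Ks, ((SK K).card : ℝ) := by
    exact_mod_cast (Finset.card_le_card hsub).trans Finset.card_biUnion_le
  refine (hcard.trans (Finset.sum_le_sum hK1)).trans ?_
  rw [Finset.sum_const, nsmul_eq_mul]
  have h5 : Ks.card ≤ (N + 1) ^ k := by
    refine (Finset.card_filter_le _ _).trans ?_
    rw [Fintype.card_piFinset]
    simp
  have h6 : (Ks.card : ℝ) ≤ (N + 1) ^ k := by exact_mod_cast h5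
  exact mul_le_mul_of_nonneg_right h6 (by positivity)

private theorem exp_ll98 {X : ℕ} (hX : 3 ≤ X) (a : ℝ) : Real.exp (a * Real.log (Real.log X)) = Real.log X ^ a := by
  rw [Real.rpow_def_of_pos (by linarith [log_ge_one hX]), mul_comm]

private theorem rpow_le98 {X : ℕ} (hX : 3 ≤ X) {a η : ℝ} (h : η ≤ a) : Real.log X ^ (-a) ≤ Real.log X ^ (-η) :=
  Real.rpow_le_rpow_of_exponent_le (log_ge_one hX) (by linarith)

open Classical in
/-- BLOCK CNt -/
theorem countNt : Pool.Agent.TW.StmtCountNt := by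
  intro k G _ D hS hV hBT j₀ hSp hTAB θ hθ0 hθ1
  obtain ⟨K₀, hV⟩ := hV
  -- the trivial case
  by_cases hO : Nonempty D.O
  swap
  · refine ⟨1, 1, one_pos, one_pos, fun X hX S hSc => ?_⟩
    have hsub : S ⊆ {∅} := by
      intro c hc
      obtain ⟨τ, _, p, _⟩ := (hSc c hc).2
      exact absurd ⟨τ p⟩ hO
    have h1 : S.card ≤ 1 := by
      have := Finset.card_le_card hsub
      simpa using this
    have h2 : (S.card : ℝ) ≤ 1 := by exact_mod_cast h1
    have h3 := log_ge_one hX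
    have hX0 : (0 : ℝ) < X := by exact_mod_cast (by omega : 0 < X)
    have h4 : Real.log X ≤ X := (Real.log_le_sub_one_of_pos hX0).trans (by linarith)
    refine h2.trans ?_
    rw [Real.rpow_one, one_mul, le_div_iff₀ (by linarith), one_mul]
    exact h4
  obtain ⟨o₀⟩ := hO
  obtain ⟨os, hos⟩ : ∃ os : D.P → D.O, ∀ p, (∃ o ∈ D.V p, D.cmp o = j₀) → os p ∈ D.V p ∧ D.cmp (os p) = j₀ := by
    have : ∀ p : D.P, ∃ o : D.O, (∃ o ∈ D.V p, D.cmp o = j₀) → o ∈ D.V p ∧ D.cmp o = j₀ := by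
      intro p
      by_cases h : ∃ o ∈ D.V p, D.cmp o = j₀
      · obtain ⟨o, h1, h2⟩ := h
        exact ⟨o, fun _ => ⟨h1, h2⟩⟩
      · exact ⟨o₀, fun h' => absurd h' h⟩
    choose os hos using this
    exact ⟨os, hos⟩
  obtain ⟨δB, CB, hδB, hδB1, hCB, hTB⟩ := unif_Bt D
  obtain ⟨δA, CA, hδA, hCA, hTA⟩ := unif_A97 D
  obtain ⟨CM', hMe'⟩ := hS.mert
  obtain ⟨CM, hCM, hMe⟩ : ∃ CM : ℝ, 0 ≤ CM ∧ ∀ y x : ℕ, 2 ≤ y → y ≤ x → ∀ S : Finset D.P, (∀ p ∈ S, y < D.nm p ∧ D.nm p ≤ x) →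
      ∑ p ∈ S, (1 : ℝ) / D.nm p ≤ Real.log (Real.log x) - Real.log (Real.log y) + CM :=
    ⟨|CM'|, abs_nonneg _, fun y x hy hx S h => (hMe' y x hy hx S h).trans (by linarith [le_abs_self CM'])⟩
  -- parameters
  obtain ⟨σ, hσ⟩ : ∃ σ : ℝ, σ = δB * θ := ⟨_, rfl⟩
  have hσ0 : 0 < σ := by
    rw [hσ]
    positivity
  have hσ1 : σ ≤ 1 := by
    rw [hσ]
    nlinarith
  obtain ⟨e, he⟩ : ∃ e : ℝ, e = σ / (4 * (k + 1)) := ⟨_, rfl⟩
  have hk1 : (0 : ℝ) < (k : ℝ) + 1 := by positivity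
  have he0 : 0 < e := by
    rw [he]
    positivity
  have hek : (k + 1) * e = σ / 4 := by
    rw [he]
    field_simp
  have he1 : e ≤ 1 := by
    have h1 : 1 * e ≤ (k + 1) * e := mul_le_mul_of_nonneg_right (by linarith [(Nat.cast_nonneg k : (0 : ℝ) ≤ k)]) he0.le
    linarith
  obtain ⟨C, A', hC, hBT'⟩ := hBT e he0
  obtain ⟨A, hA⟩ : ∃ A : ℕ, A = A' + 1 := ⟨_, rfl⟩
  have hBTc : BTc D e C A := by
    intro j m hm τ hτ t h h2 hmA T hT
    refine hBT' j m hm τ hτ t h h2 (le_trans ?_ hmA) T hT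
    exact Nat.pow_le_pow_right (Nm_pos hS m) (by omega)
  obtain ⟨N, hN'⟩ := exists_nat_gt (4 * (1 + 2 * k * K₀) / σ)
  have hN1 : 4 * (1 + 2 * (k : ℝ) * K₀) < σ * N := by
    rw [div_lt_iff₀ hσ0] at hN'
    linarith
  have hNpos : (0 : ℝ) < N := lt_of_le_of_lt (by positivity) hN'
  have hN2 : 2 ≤ N := by
    by_contra hlt
    have h1 : (N : ℝ) ≤ 1 := by exact_mod_cast (by omega : N ≤ 1)
    have h2 : 0 ≤ 2 * (k : ℝ) * K₀ := by positivity
    nlinarith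
  have hNfrac : (1 + 2 * (k : ℝ) * K₀) / N ≤ σ / 4 := by
    rw [div_le_iff₀ hNpos]
    linarith
  -- the scales below the large prime
  obtain ⟨κ₀, hκ₀⟩ : ∃ κ₀ : ℕ, κ₀ = ⌈θ * N⌉₊ := ⟨_, rfl⟩
  have hκ₀N : κ₀ ≤ N := by
    rw [hκ₀]
    refine Nat.ceil_le.mpr ?_
    nlinarith
  have hκ₀θ : θ ≤ (κ₀ : ℝ) / N := by
    rw [le_div_iff₀ hNpos, hκ₀]
    exact Nat.le_ceil _
  obtain ⟨C₁, hC₁, hE⟩ := exc_E97 hS
  obtain ⟨C₂, hC₂, hF⟩ := exc_F97 hS hδA hTA
  obtain ⟨c₀, hc₀⟩ : ∃ c₀ : ℝ, c₀ = (Real.log 4 + CB) + (K₀ + 1) * (Real.log 4 + CM) + K₀ * (pr D 2).card := ⟨_, rfl⟩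
  obtain ⟨B₀, hB₀⟩ : ∃ B₀ : ℝ, B₀ = D.Ex.card + N * c₀ := ⟨_, rfl⟩
  obtain ⟨C₃, hC₃⟩ : ∃ C₃ : ℝ, C₃ = (N + 1) ^ k * (K₀ * C * (1 + 16 / e * (K₀ * C)) ^ k * 4 * Real.exp B₀) := ⟨_, rfl⟩
  have hC₃0 : 0 ≤ C₃ := by
    rw [hC₃]
    positivity
  obtain ⟨η, hη⟩ : ∃ η : ℝ, η = min (1 / (N : ℝ)) (min (δA / N) (σ / 2)) := ⟨_, rfl⟩
  have hη0 : 0 < η := by
    rw [hη]
    exact lt_min (by positivity) (lt_min (by positivity) (by positivity))
  refine ⟨η, (N : ℝ) * (4 * A * C₁) + (N : ℝ) * (Fintype.card (Finset (Fin k)) * C₂) + C₃ + 1, hη0, by positivity, fun X hX S hSc => ?_⟩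
  have hX0 : (0 : ℝ) < X := by exact_mod_cast (by omega : 0 < X)
  have hlX := log_ge_one hX
  set z := zz N X with hz
  -- the exceptional sets
  let SE : ℕ → Finset (Finset D.P) := fun κ => S.filter fun c =>
    ¬ (∏ p ∈ (pf D c).filter (fun p => D.nm p ≤ z κ), D.nm p) ^ A ≤ z (κ + 1)
  let SF : ℕ → Finset (Fin k) → Finset (Finset D.P) := fun κ J => S.filter fun c =>
    ¬ (J = {j₀} ∨ TBt D J) ∧ ¬ ∃ p ∈ pf D c, sc z N (D.nm p) = κ ∧ ∀ o ∈ D.V p, D.cmp o ∉ J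
  obtain ⟨Good, hGood⟩ : ∃ Good : Finset D.P → Prop, ∀ c, Good c ↔
      (∀ κ < N, ∀ J, ¬ (J = {j₀} ∨ TBt D J) → ∃ p ∈ pf D c, sc z N (D.nm p) = κ ∧ ∀ o ∈ D.V p, D.cmp o ∉ J) ∧
      (∀ κ, 1 ≤ κ → κ + 1 ≤ N - 1 → (∏ p ∈ (pf D c).filter (fun p => D.nm p ≤ z κ), D.nm p) ^ A ≤ z (κ + 1)) :=
    ⟨_, fun _ => Iff.rfl⟩
  set S' := S.filter Good with hS'
  have hcov : S ⊆ ((Finset.range (N - 1)).biUnion SE ∪ (Finset.range N).biUnion fun κ => Finset.univ.biUnion fun J => SF κ J) ∪ S' := by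
    intro c hc
    by_cases g1 : ∀ κ < N, ∀ J, ¬ (J = {j₀} ∨ TBt D J) → ∃ p ∈ pf D c, sc z N (D.nm p) = κ ∧ ∀ o ∈ D.V p, D.cmp o ∉ J
    · by_cases g2 : ∀ κ, 1 ≤ κ → κ + 1 ≤ N - 1 → (∏ p ∈ (pf D c).filter (fun p => D.nm p ≤ z κ), D.nm p) ^ A ≤ z (κ + 1)
      · exact Finset.mem_union_right _ (Finset.mem_filter.mpr ⟨hc, (hGood c).mpr ⟨g1, g2⟩⟩)
      · simp only [not_forall] at g2
        obtain ⟨κ, h1, h2, h3⟩ := g2
        refine Finset.mem_union_left _ (Finset.mem_union_left _ (Finset.mem_biUnion.mpr ⟨κ, Finset.mem_range.mpr (by omega), ?_⟩))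
        exact Finset.mem_filter.mpr ⟨hc, h3⟩
    · simp only [not_forall] at g1
      obtain ⟨κ, h1, J, h2, h3⟩ := g1
      refine Finset.mem_union_left _ (Finset.mem_union_right _ (Finset.mem_biUnion.mpr ⟨κ, Finset.mem_range.mpr h1,
        Finset.mem_biUnion.mpr ⟨J, Finset.mem_univ _, ?_⟩⟩))
      exact Finset.mem_filter.mpr ⟨hc, h2, h3⟩
  have hcard : (S.card : ℝ) ≤ (∑ κ ∈ Finset.range (N - 1), ((SE κ).card : ℝ)) +
      (∑ κ ∈ Finset.range N, ∑ J : Finset (Fin k), ((SF κ J).card : ℝ)) + S'.card := by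
    have g1 := Finset.card_le_card hcov
    have g2 := (Finset.card_union_le ((Finset.range (N - 1)).biUnion SE ∪ (Finset.range N).biUnion fun κ => Finset.univ.biUnion fun J => SF κ J) S')
    have g3 := (Finset.card_union_le ((Finset.range (N - 1)).biUnion SE) ((Finset.range N).biUnion fun κ => Finset.univ.biUnion fun J => SF κ J))
    have g4 := Finset.card_biUnion_le (s := Finset.range (N - 1)) (t := SE)
    have g5 : ((Finset.range N).biUnion fun κ => Finset.univ.biUnion fun J => SF κ J).card ≤ ∑ κ ∈ Finset.range N, ∑ J : Finset (Fin k), (SF κ J).card :=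
      Finset.card_biUnion_le.trans (Finset.sum_le_sum fun κ _ => Finset.card_biUnion_le)
    have g6 : S.card ≤ (∑ κ ∈ Finset.range (N - 1), (SE κ).card) + (∑ κ ∈ Finset.range N, ∑ J : Finset (Fin k), (SF κ J).card) + S'.card := by omega
    exact_mod_cast g6
  have b1 : ∑ κ ∈ Finset.range (N - 1), ((SE κ).card : ℝ) ≤ X * ((N : ℝ) * (4 * A * C₁) * Real.log X ^ (-(1 / (N : ℝ)))) := by
    have g : ∀ κ ∈ Finset.range (N - 1), ((SE κ).card : ℝ) ≤ 4 * A * C₁ * X * Real.log X ^ (-(1 / (N : ℝ))) := by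
      intro κ hκ
      have hκ' := Finset.mem_range.mp hκ
      refine hE N A X κ hX (by omega) (by omega) (SE κ) fun c hc => ?_
      obtain ⟨g1, g2⟩ := Finset.mem_filter.mp hc
      exact ⟨(hSc c g1).1, g2⟩
    refine (Finset.sum_le_sum g).trans ?_
    rw [Finset.sum_const, Finset.card_range, nsmul_eq_mul]
    have h1 : ((N - 1 : ℕ) : ℝ) ≤ N := by exact_mod_cast Nat.sub_le N 1
    calc ((N - 1 : ℕ) : ℝ) * (4 * A * C₁ * X * Real.log X ^ (-(1 / (N : ℝ)))) ≤ N * (4 * A * C₁ * X * Real.log X ^ (-(1 / (N : ℝ)))) :=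
          mul_le_mul_of_nonneg_right h1 (by positivity)
      _ = _ := by ring
  have b2 : ∑ κ ∈ Finset.range N, ∑ J : Finset (Fin k), ((SF κ J).card : ℝ) ≤
      X * ((N : ℝ) * (Fintype.card (Finset (Fin k)) * C₂) * Real.log X ^ (-(δA / (N : ℝ)))) := by
    have g : ∀ κ ∈ Finset.range N, ∀ J ∈ (Finset.univ : Finset (Finset (Fin k))), ((SF κ J).card : ℝ) ≤ C₂ * X * Real.log X ^ (-(δA / (N : ℝ))) := by
      intro κ hκ J _
      by_cases hJ : J = {j₀} ∨ TBt D J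
      · have : SF κ J = ∅ := by
          rw [Finset.eq_empty_iff_forall_notMem]
          intro c hc
          exact (Finset.mem_filter.mp hc).2.1 hJ
        rw [this]
        simp only [Finset.card_empty, Nat.cast_zero]
        positivity
      · have hJA : TA D J := by
          rcases hTAB J with h | h | h
          · exact absurd (Or.inl h) hJ
          · exact h
          · exact absurd (Or.inr h) hJ
        refine hF N X κ J hX (Finset.mem_range.mp hκ) hJA (SF κ J) fun c hc => ?_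
        obtain ⟨g1, g2⟩ := Finset.mem_filter.mp hc
        exact ⟨(hSc c g1).1, g2.2⟩
    refine (Finset.sum_le_sum fun κ hκ => Finset.sum_le_sum (g κ hκ)).trans (le_of_eq ?_)
    rw [Finset.sum_const, Finset.sum_const, Finset.card_range, Finset.card_univ, nsmul_eq_mul, nsmul_eq_mul]
    ring
  have b3 : (S'.card : ℝ) ≤ X * (C₃ * Real.log X ^ (-(σ / 2))) := by
    have g1 := main_countt hS hC he0 he1 hBTc (z := z) hN2 (zz_two hX) hX hSp hos hV
      (PB := fun κ J => (J = {j₀} ∨ TBt D J) ∧ (κ < κ₀ → J ≠ {j₀}))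
      (fun κ J hJ => by
        rcases hJ.1 with h | h
        · rw [h]
          exact Finset.singleton_nonempty j₀
        · exact h.1) S' (by
      intro c hc
      obtain ⟨k1, k23⟩ := Finset.mem_filter.mp hc
      obtain ⟨k2, k3⟩ := (hGood c).mp k23
      obtain ⟨k4, τ, k5, p, k6, k7, k8⟩ := hSc c k1
      refine ⟨k4, ⟨τ, k5, fun κ hκ => ⟨?_, fun hκ' => ?_⟩⟩, k3⟩
      · by_contra h
        obtain ⟨p', hp, hps, hpo⟩ := k2 κ hκ _ h
        refine hpo (τ p') (k5 p' hp).1 ?_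
        refine Finset.mem_filter.mpr ⟨Finset.mem_univ _, ?_⟩
        rw [← hps]
        exact lt_Kof hp
      · intro h
        have h1 : (κ : ℝ) < θ * N := by
          rw [hκ₀] at hκ'
          exact Nat.lt_ceil.mp hκ'
        have h2 : κ ≤ sc z N (D.nm p) := le_sc_of_exp hX (by omega) hκ h1 k8
        have h3 : D.cmp (τ p) ∈ Js (Kof D z N c τ) κ := Finset.mem_filter.mpr ⟨Finset.mem_univ _, h2.trans_lt (lt_Kof k6)⟩
        rw [h] at h3
        exact k7 (Finset.mem_singleton.mp h3))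
      (Bf := fun K κ => (1 - δB) * (Real.log (Real.log X) / N) +
        (if κ₀ ≤ κ then δB * (Real.log (Real.log X) / N) else 0) +
        (if Js K κ ≠ Js K (κ + 2) then K₀ * (Real.log (Real.log X) / N) else 0) + c₀)
      (B := N * c₀ + ((1 - σ) + 2 * k * K₀ / N) * Real.log (Real.log X))
      (fun K _ hK κ hκ t => by
        rw [hc₀]
        exact sum_sc hS hV j₀ os hδB.le hδB1 hCB hCM hTB hMe (by omega : 0 < N) hX K hκ (hK κ hκ).1
          (hK κ hκ).2 t)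
      (fun K _ hK => by
        have h2 : 0 ≤ Real.log (Real.log X) := Real.log_nonneg hlX
        have h1 := sum_bd (δ := δB) (ℓ := Real.log (Real.log X)) (c := c₀) (K₀ := K₀) (by omega : 0 < N)
          hκ₀N K (Nat.cast_nonneg K₀) h2
        have h3 : (1 - δB * ((κ₀ : ℝ) / N)) + 2 * k * K₀ / N ≤ (1 - σ) + 2 * k * K₀ / N := by
          have : σ ≤ δB * ((κ₀ : ℝ) / N) := by
            rw [hσ]
            exact mul_le_mul_of_nonneg_left hκ₀θ hδB.le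
          linarith
        have h4 := mul_le_mul_of_nonneg_right h3 h2
        exact h1.trans (by linarith))
    refine g1.trans ?_
    have e0 : (D.Ex.card : ℝ) + (N * c₀ + ((1 - σ) + 2 * k * K₀ / N) * Real.log (Real.log X)) =
        B₀ + ((1 - σ) + 2 * k * K₀ / N) * Real.log (Real.log X) := by
      rw [hB₀]
      ring
    rw [e0]
    unfold EE
    rw [Real.exp_add, exp_ll98 hX, mul_pow, ← Real.rpow_natCast (Real.log X ^ e) k, ← Real.rpow_mul (by linarith)]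
    have hLp : 0 < Real.log X := by linarith
    have g2 : 1 / 4 * Real.log X ^ ((((N - 1 : ℕ) : ℝ) / N) * (1 - e)) ≤ Real.log (z (N - 1)) ^ (1 - e) := by
      have k1 := le_log_zz (N := N) (κ := N - 1) hX (Nat.sub_le N 1)
      have k2 : (1 / 4 * Real.log X ^ (((N - 1 : ℕ) : ℝ) / N)) ^ (1 - e) ≤ Real.log (z (N - 1)) ^ (1 - e) :=
        Real.rpow_le_rpow (by positivity) k1 (by linarith)
      rw [Real.mul_rpow (by norm_num) (by positivity), ← Real.rpow_mul hLp.le] at k2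
      refine le_trans (mul_le_mul_of_nonneg_right ?_ (by positivity)) k2
      calc (1 / 4 : ℝ) = (1 / 4 : ℝ) ^ (1 : ℝ) := (Real.rpow_one _).symm
        _ ≤ (1 / 4 : ℝ) ^ (1 - e) := Real.rpow_le_rpow_of_exponent_ge (by norm_num) (by norm_num) (by linarith)
    have g3 : 0 < Real.log X ^ ((((N - 1 : ℕ) : ℝ) / N) * (1 - e)) := by positivity
    have g4 : K₀ * C * ((1 + 16 / e * (K₀ * C)) ^ k * Real.log X ^ (e * k)) / Real.log (z (N - 1)) ^ (1 - e) ≤
        K₀ * C * ((1 + 16 / e * (K₀ * C)) ^ k * Real.log X ^ (e * k)) / (1 / 4 * Real.log X ^ ((((N - 1 : ℕ) : ℝ) / N) * (1 - e))) :=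
      div_le_div_of_nonneg_left (by positivity) (by positivity) g2
    have g5 : Real.log X ^ (e * k) / Real.log X ^ ((((N - 1 : ℕ) : ℝ) / N) * (1 - e)) * Real.log X ^ ((1 - σ) + 2 * k * K₀ / N) ≤
        Real.log X ^ (-(σ / 2)) := by
      rw [← Real.rpow_sub hLp, ← Real.rpow_add hLp]
      refine Real.rpow_le_rpow_of_exponent_le hlX ?_
      have k1 : ((N - 1 : ℕ) : ℝ) / N = 1 - 1 / N := by
        rw [Nat.cast_sub (by omega)]
        field_simp
        push_cast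
        ring
      rw [k1]
      have k2 : (1 + 2 * (k : ℝ) * K₀) / N = 1 / N + 2 * k * K₀ / N := by ring
      have k3 : 0 ≤ 1 / (N : ℝ) * e := by positivity
      have k4 : (1 - 1 / (N : ℝ)) * (1 - e) = 1 - 1 / N - e + 1 / N * e := by ring
      rw [k4]
      have k5 : e * k + e = σ / 4 := by
        rw [← hek]
        ring
      linarith
    rw [hC₃]
    calc (N + 1 : ℝ) ^ k * (K₀ * C * ((1 + 16 / e * (K₀ * C)) ^ k * Real.log X ^ (e * k)) / Real.log (z (N - 1)) ^ (1 - e) * X *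
          (Real.exp B₀ * Real.log X ^ ((1 - σ) + 2 * k * K₀ / N)))
        ≤ (N + 1 : ℝ) ^ k * (K₀ * C * ((1 + 16 / e * (K₀ * C)) ^ k * Real.log X ^ (e * k)) / (1 / 4 * Real.log X ^ ((((N - 1 : ℕ) : ℝ) / N) * (1 - e))) * X *
          (Real.exp B₀ * Real.log X ^ ((1 - σ) + 2 * k * K₀ / N))) := by
          refine mul_le_mul_of_nonneg_left ?_ (by positivity)
          refine mul_le_mul_of_nonneg_right ?_ (by positivity)
          exact mul_le_mul_of_nonneg_right g4 hX0.le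
      _ = (N + 1 : ℝ) ^ k * (K₀ * C * (1 + 16 / e * (K₀ * C)) ^ k * 4 * Real.exp B₀) * X *
          (Real.log X ^ (e * k) / Real.log X ^ ((((N - 1 : ℕ) : ℝ) / N) * (1 - e)) * Real.log X ^ ((1 - σ) + 2 * k * K₀ / N)) := by
          field_simp
      _ ≤ (N + 1 : ℝ) ^ k * (K₀ * C * (1 + 16 / e * (K₀ * C)) ^ k * 4 * Real.exp B₀) * X * Real.log X ^ (-(σ / 2)) :=
          mul_le_mul_of_nonneg_left g5 (by positivity)
      _ = _ := by ring
  have r1 : Real.log X ^ (-(1 / (N : ℝ))) ≤ Real.log X ^ (-η) := rpow_le98 hX (by rw [hη]; exact min_le_left _ _)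
  have r2 : Real.log X ^ (-(δA / (N : ℝ))) ≤ Real.log X ^ (-η) :=
    rpow_le98 hX (by rw [hη]; exact (min_le_right _ _).trans (min_le_left _ _))
  have r3 : Real.log X ^ (-(σ / 2)) ≤ Real.log X ^ (-η) :=
    rpow_le98 hX (by rw [hη]; exact (min_le_right _ _).trans (min_le_right _ _))
  have r0 : 0 < Real.log X ^ (-η) := Real.rpow_pos_of_pos (by linarith) _
  have s1 : (N : ℝ) * (4 * A * C₁) * Real.log X ^ (-(1 / (N : ℝ))) ≤ (N : ℝ) * (4 * A * C₁) * Real.log X ^ (-η) :=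
    mul_le_mul_of_nonneg_left r1 (by positivity)
  have s2 : (N : ℝ) * (Fintype.card (Finset (Fin k)) * C₂) * Real.log X ^ (-(δA / (N : ℝ))) ≤
      (N : ℝ) * (Fintype.card (Finset (Fin k)) * C₂) * Real.log X ^ (-η) := mul_le_mul_of_nonneg_left r2 (by positivity)
  have s3 : C₃ * Real.log X ^ (-(σ / 2)) ≤ C₃ * Real.log X ^ (-η) := mul_le_mul_of_nonneg_left r3 hC₃0
  have s4 : (N : ℝ) * (4 * A * C₁) * Real.log X ^ (-(1 / (N : ℝ))) +
      (N : ℝ) * (Fintype.card (Finset (Fin k)) * C₂) * Real.log X ^ (-(δA / (N : ℝ))) + C₃ * Real.log X ^ (-(σ / 2)) ≤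
      ((N : ℝ) * (4 * A * C₁) + (N : ℝ) * (Fintype.card (Finset (Fin k)) * C₂) + C₃ + 1) * Real.log X ^ (-η) := by
    have e : ((N : ℝ) * (4 * A * C₁) + (N : ℝ) * (Fintype.card (Finset (Fin k)) * C₂) + C₃ + 1) * Real.log X ^ (-η) =
      (N : ℝ) * (4 * A * C₁) * Real.log X ^ (-η) + (N : ℝ) * (Fintype.card (Finset (Fin k)) * C₂) * Real.log X ^ (-η) +
        C₃ * Real.log X ^ (-η) + Real.log X ^ (-η) := by ring
    rw [e]
    linarith
  calc (S.card : ℝ) ≤ X * ((N : ℝ) * (4 * A * C₁) * Real.log X ^ (-(1 / (N : ℝ)))) +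
        X * ((N : ℝ) * (Fintype.card (Finset (Fin k)) * C₂) * Real.log X ^ (-(δA / (N : ℝ)))) + X * (C₃ * Real.log X ^ (-(σ / 2))) := by linarith
    _ = X * ((N : ℝ) * (4 * A * C₁) * Real.log X ^ (-(1 / (N : ℝ))) +
        (N : ℝ) * (Fintype.card (Finset (Fin k)) * C₂) * Real.log X ^ (-(δA / (N : ℝ))) + C₃ * Real.log X ^ (-(σ / 2))) := by ring
    _ ≤ X * (((N : ℝ) * (4 * A * C₁) + (N : ℝ) * (Fintype.card (Finset (Fin k)) * C₂) + C₃ + 1) * Real.log X ^ (-η)) :=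
        mul_le_mul_of_nonneg_left s4 hX0.le
    _ = _ := by
        rw [Real.rpow_neg (by linarith), div_eq_mul_inv]
        ring

end Pool.Agent.TW37
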