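import Pool.Agent.Helper37.TW.Rec

/-!
# Project TW (MP_e66f84_ag), counting theorem: the configuration of a set with given options
-/

set_option autoImplicit false
set_option maxHeartbeats 1000000

namespace Pool.Agent.TW37

open Filter Topology Pool.Agent.Helper99.HG Pool.Agent.HG Pool.Agent.Helper97.HG2

variable {k : ℕ} {G : Type}

open Classical in
/-- the configuration of a set `c` with options `τ` and special primes `q` -/
noncomputable def cfgOf (D : CD k G) (c : Finset D.P) (τ : D.P → D.O) (q : Fin k → Finset D.P) :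
    Cfg D :=
  (c.filter (fun p => p ∈ D.Ex), ((pf D c) \ Finset.univ.biUnion q).image (fun p => (p, τ p)),
    fun j => (q j).image fun p => (p, τ p))

theorem graph_inj {P O : Type} (τ : P → O) : Function.Injective fun p => (p, τ p) :=
  fun _ _ h => congrArg Prod.fst h

theorem prod_graph {P O M : Type} [CommMonoid M] [DecidableEq (P × O)] (τ : P → O) (s : Finset P) (F : P × O → M) :
    ∏ b ∈ s.image (fun p => (p, τ p)), F b = ∏ p ∈ s, F (p, τ p) :=
  Finset.prod_image fun _ _ _ _ h => graph_inj τ h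

theorem prod_graph_filter {P O M : Type} [CommMonoid M] [DecidableEq (P × O)] (τ : P → O)
    (s : Finset P) (Q : P × O → Prop) [DecidablePred Q] (F : P × O → M) :
    ∏ b ∈ (s.image (fun p => (p, τ p))).filter Q, F b =
      ∏ p ∈ s.filter (fun p => Q (p, τ p)), F (p, τ p) := by
  rw [Finset.filter_image, prod_graph]

section cov

variable {D : CD k G} {z : ℕ → ℕ} {N A X : ℕ} {K : Fin k → ℕ} {c : Finset D.P} {τ : D.P → D.O}
  {q : Fin k → Finset D.P}

open Classical in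
/-- the configuration determines the set -/
theorem cfg_union (hq : ∀ j, ∀ p ∈ q j, p ∈ pf D c ∧ D.cmp (τ p) = j) :
    (cfgOf D c τ q).1 ∪ ((cfgOf D c τ q).2.1.image Prod.fst ∪
      Finset.univ.biUnion fun j => ((cfgOf D c τ q).2.2 j).image Prod.fst) = c := by
  ext p
  simp only [cfgOf, Finset.mem_union, Finset.mem_image, Finset.mem_biUnion, Finset.mem_filter,
    Finset.mem_sdiff, Finset.mem_univ, true_and]
  constructor
  · rintro (h | ⟨a, ⟨r, ⟨h1, _⟩, rfl⟩, rfl⟩ | ⟨j, a, ⟨r, h1, rfl⟩, rfl⟩)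
    · exact h.1
    · exact (mem_pf.mp h1).1
    · exact (mem_pf.mp (hq j r h1).1).1
  · intro hp
    by_cases h1 : p ∈ D.Ex
    · exact Or.inl ⟨hp, h1⟩
    · right
      by_cases h2 : ∃ j, p ∈ q j
      · obtain ⟨j, hj⟩ := h2
        exact Or.inr ⟨j, (p, τ p), ⟨p, hj, rfl⟩, rfl⟩
      · exact Or.inl ⟨(p, τ p), ⟨p, ⟨mem_pf.mpr ⟨hp, h1⟩, h2⟩, rfl⟩, rfl⟩

open Classical in
/-- the norm of the configuration -/
theorem cfg_norm (hq : ∀ j, ∀ p ∈ q j, p ∈ pf D c ∧ D.cmp (τ p) = j) :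
    Nm D (cfgOf D c τ q).1 * NmA D (cfgOf D c τ q).2.1 * ∏ j, NmA D ((cfgOf D c τ q).2.2 j) =
      Nm D c := by
  have h1 : NmA D (cfgOf D c τ q).2.1 = Nm D ((pf D c) \ Finset.univ.biUnion q) :=
    prod_graph τ _ (fun b => D.nm b.1)
  have h2 : ∀ j, NmA D ((cfgOf D c τ q).2.2 j) = Nm D (q j) := fun j =>
    prod_graph τ _ (fun b => D.nm b.1)
  have h3 : ∏ j, Nm D (q j) = Nm D (Finset.univ.biUnion q) := by
    unfold Nm
    rw [Finset.prod_biUnion]
    intro i _ j _ hij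
    rw [Function.onFun, Finset.disjoint_left]
    intro p g1 g2
    exact hij ((hq i p g1).2.symm.trans (hq j p g2).2)
  rw [h1, Finset.prod_congr rfl fun j _ => h2 j, h3, mul_assoc]
  have h4 : Finset.univ.biUnion q ⊆ pf D c := by
    intro p hp
    obtain ⟨j, _, hj⟩ := Finset.mem_biUnion.mp hp
    exact (hq j p hj).1
  have h5 : Nm D ((pf D c) \ Finset.univ.biUnion q) * Nm D (Finset.univ.biUnion q) =
      Nm D (pf D c) := by
    unfold Nm
    exact Finset.prod_sdiff h4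
  rw [h5]
  unfold Nm pf cfgOf
  exact Finset.prod_filter_mul_prod_filter_not c (fun p => p ∈ D.Ex) D.nm

open Classical in
/-- the configuration is admissible -/
theorem cfg_adm [CommGroup G] (hS : Sys D.P D.nm) (hcX : Nm D c ≤ X) (hτ : BadT D c τ)
    (hsm : ∀ κ, 1 ≤ κ → κ + 1 ≤ N - 1 →
      (∏ p ∈ (pf D c).filter (fun p => D.nm p ≤ z κ), D.nm p) ^ A ≤ z (κ + 1))
    (hq : ∀ j, ∀ p ∈ q j, p ∈ pf D c ∧ D.cmp (τ p) = j) (hq0 : ∀ j, K j = 0 → q j = ∅)
    (hq1 : ∀ j, K j ≠ 0 → K j ≤ N → ∃ Q, q j = {Q} ∧ sc z N (D.nm Q) + 1 = K j)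
    (hK : ∀ p ∈ pf D c, sc z N (D.nm p) < K (D.cmp (τ p))) :
    Adm D z N A X K (cfgOf D c τ q) := by
  obtain ⟨T, hT⟩ : ∃ T, T = Finset.univ.biUnion q := ⟨_, rfl⟩
  have hTm : ∀ p, p ∈ T ↔ ∃ j, p ∈ q j := by
    intro p
    rw [hT, Finset.mem_biUnion]
    simp only [Finset.mem_univ, true_and]
  have hmem : ∀ a ∈ (cfgOf D c τ q).2.1, ∃ p, p ∈ pf D c ∧ p ∉ T ∧ a = (p, τ p) := by
    intro a ha
    obtain ⟨p, hp, rfl⟩ := Finset.mem_image.mp ha
    rw [← hT] at hp
    exact ⟨p, (Finset.mem_sdiff.mp hp).1, (Finset.mem_sdiff.mp hp).2, rfl⟩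
  refine ⟨?_, ?_, ?_, ?_, ?_, ?_, ?_⟩
  · intro p hp
    exact (Finset.mem_filter.mp hp).2
  · intro a ha
    obtain ⟨p, h1, h2, rfl⟩ := hmem a ha
    exact ⟨(mem_pf.mp h1).2, (nm_le_Nm hS (mem_pf.mp h1).1).trans hcX, (hτ p h1).1, hK p h1⟩
  · intro a ha b hb h
    obtain ⟨p, h1, h2, rfl⟩ := hmem a ha
    obtain ⟨r, h3, h4, rfl⟩ := hmem b hb
    have h5 : p = r := h
    rw [h5]
  · intro a ha j hj i hi
    obtain ⟨p, h1, h2, rfl⟩ := hmem a ha
    have h3 := (hτ p h1).2 j i hi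
    have hcp : D.cmp (τ p) ≠ j := by
      intro h
      have := hK p h1
      rw [h] at this
      exact absurd hj (by simpa using this)
    show (∏ b ∈ ((((pf D c) \ Finset.univ.biUnion q).image (fun p => (p, τ p)))).filter
      (fun b => D.cmp b.2 = j), D.χ p i b.1 b.2) *
      ∏ b ∈ (q j).image (fun p => (p, τ p)), D.χ p i b.1 b.2 = D.g p (τ p) i
    rw [prod_graph_filter, prod_graph, ← h3, ← hT, ← Finset.prod_union]
    · refine Finset.prod_congr ?_ fun _ _ => rfl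
      ext r
      simp only [Finset.mem_union, Finset.mem_filter, Finset.mem_sdiff]
      constructor
      · rintro (⟨⟨g1, g2⟩, g3⟩ | g1)
        · exact ⟨g1, fun h => hcp (h ▸ g3), g3⟩
        · exact ⟨(hq j r g1).1, fun h => hcp (h ▸ (hq j r g1).2), (hq j r g1).2⟩
      · rintro ⟨g1, g2, g3⟩
        by_cases hr : r ∈ T
        · right
          obtain ⟨j', hj'⟩ := (hTm r).mp hr
          rw [← g3, (hq j' r hj').2]
          exact hj'
        · exact Or.inl ⟨⟨g1, hr⟩, g3⟩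
    · rw [Finset.disjoint_left]
      intro r g1 g2
      exact (Finset.mem_sdiff.mp (Finset.mem_filter.mp g1).1).2 ((hTm r).mpr ⟨j, g2⟩)
  · intro j hj
    show (q j).image _ = ∅
    rw [hq0 j hj, Finset.image_empty]
  · intro j hj hjN
    obtain ⟨Q, hQ1, hQ2⟩ := hq1 j hj hjN
    have hQq : Q ∈ q j := by
      rw [hQ1]
      exact Finset.mem_singleton_self Q
    have hQj := hq j Q hQq
    have hQT : Q ∈ T := (hTm Q).mpr ⟨j, hQq⟩
    refine ⟨(Q, τ Q), ?_, ?_⟩
    · show (q j).image _ = _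
      rw [hQ1, Finset.image_singleton]
    · refine ⟨(mem_pf.mp hQj.1).2, (nm_le_Nm hS (mem_pf.mp hQj.1).1).trans hcX, (hτ Q hQj.1).1,
        hQj.2, hQ2, ?_, ?_⟩
      · intro a ha h
        obtain ⟨p, h1, h2, rfl⟩ := hmem a ha
        have h3 : p = Q := h
        rw [h3] at h2
        exact h2 hQT
      · intro a ha _ i hi
        obtain ⟨p, h1, h2, rfl⟩ := hmem a ha
        have h3 := (hτ p h1).2 j i hi
        have hQp : Q ≠ p := fun h => h2 (h ▸ hQT)
        have e : (pf D c).filter (fun r => r ≠ p ∧ D.cmp (τ r) = j) =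
            insert Q (((pf D c) \ T).filter (fun r => r ≠ p ∧ D.cmp (τ r) = j)) := by
          ext r
          simp only [Finset.mem_insert, Finset.mem_filter, Finset.mem_sdiff]
          constructor
          · rintro ⟨g1, g2, g3⟩
            by_cases hr : r ∈ T
            · left
              obtain ⟨j', hj'⟩ := (hTm r).mp hr
              have h6 : j' = j := (hq j' r hj').2.symm.trans g3
              rw [h6, hQ1, Finset.mem_singleton] at hj'
              exact hj'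
            · exact Or.inr ⟨⟨g1, hr⟩, g2, g3⟩
          · rintro (rfl | ⟨⟨g1, _⟩, g3, g4⟩)
            · exact ⟨hQj.1, hQp, hQj.2⟩
            · exact ⟨g1, g3, g4⟩
        have hnot : Q ∉ ((pf D c) \ T).filter (fun r => r ≠ p ∧ D.cmp (τ r) = j) := fun h =>
          (Finset.mem_sdiff.mp (Finset.mem_filter.mp h).1).2 hQT
        rw [e, Finset.prod_insert hnot] at h3
        show D.χ p i Q (τ Q) = D.g p (τ p) i *
          (∏ c' ∈ ((((pf D c) \ Finset.univ.biUnion q).image (fun p => (p, τ p)))).filter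
            (fun c' => c'.1 ≠ p ∧ D.cmp c'.2 = j), D.χ p i c'.1 c'.2)⁻¹
        rw [prod_graph_filter, eq_mul_inv_iff_mul_eq, ← hT]
        exact h3
  · intro κ h1 h2
    refine (Nat.pow_le_pow_left ?_ _).trans (hsm κ h1 h2)
    show ∏ a ∈ ((((pf D c) \ Finset.univ.biUnion q).image (fun p => (p, τ p)))).filter
      (fun a => D.nm a.1 ≤ z κ), D.nm a.1 ≤ _
    rw [prod_graph_filter]
    refine Nat.le_of_dvd (Finset.prod_pos fun p _ => ?_) (Finset.prod_dvd_prod_of_subset _ _ _ ?_)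
    · have := hS.two p
      omega
    · exact Finset.filter_subset_filter _ Finset.sdiff_subset

open Classical in
/-- the configuration of a set with given options, with the scales `Kof` -/
theorem cover_cfg [CommGroup G] (hS : Sys D.P D.nm) (hcX : Nm D c ≤ X)
    (hτ : BadT D c τ)
    (hsm : ∀ κ, 1 ≤ κ → κ + 1 ≤ N - 1 →
      (∏ p ∈ (pf D c).filter (fun p => D.nm p ≤ z κ), D.nm p) ^ A ≤ z (κ + 1)) :
    ∃ ω : Cfg D, Adm D z N A X (Kof D z N c τ) ω ∧
      Nm D ω.1 * NmA D ω.2.1 * ∏ j, NmA D (ω.2.2 j) ≤ X ∧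
      ω.1 ∪ (ω.2.1.image Prod.fst ∪ Finset.univ.biUnion fun j => (ω.2.2 j).image Prod.fst) = c := by
  obtain ⟨K, hKdef⟩ : ∃ K, K = Kof D z N c τ := ⟨_, rfl⟩
  rw [← hKdef]
  have hK : ∀ p ∈ pf D c, sc z N (D.nm p) < K (D.cmp (τ p)) := fun p hp => by
    rw [hKdef]
    exact lt_Kof hp
  have hq : ∀ j, ∃ q : Finset D.P, if K j = 0 then q = ∅ else
      ∃ Q, q = {Q} ∧ Q ∈ pf D c ∧ D.cmp (τ Q) = j ∧ sc z N (D.nm Q) + 1 = K j := by
    intro j
    by_cases h : K j = 0
    · exact ⟨∅, by rw [if_pos h]⟩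
    · have hne : ((pf D c).filter fun p => D.cmp (τ p) = j).Nonempty := by
        rw [Finset.nonempty_iff_ne_empty]
        intro he
        refine h ?_
        rw [hKdef]
        unfold Kof
        rw [he]
        rfl
      obtain ⟨q, hq1, hq2⟩ := Finset.exists_mem_eq_sup _ hne fun p => sc z N (D.nm p) + 1
      refine ⟨{q}, ?_⟩
      rw [if_neg h]
      refine ⟨q, rfl, (Finset.mem_filter.mp hq1).1, (Finset.mem_filter.mp hq1).2, ?_⟩
      rw [hKdef]
      exact hq2.symm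
  choose q hq using hq
  have hq0 : ∀ j, K j = 0 → q j = ∅ := fun j h => by
    have := hq j
    rwa [if_pos h] at this
  have hq1 : ∀ j, K j ≠ 0 → ∃ Q, q j = {Q} ∧ Q ∈ pf D c ∧ D.cmp (τ Q) = j ∧
      sc z N (D.nm Q) + 1 = K j := fun j h => by
    have := hq j
    rwa [if_neg h] at this
  have hqm : ∀ j, ∀ p ∈ q j, p ∈ pf D c ∧ D.cmp (τ p) = j := by
    intro j p hp
    have h : K j ≠ 0 := by
      intro h
      rw [hq0 j h] at hp
      exact absurd hp (Finset.notMem_empty _)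
    obtain ⟨Q, h1, h2, h3, _⟩ := hq1 j h
    rw [h1, Finset.mem_singleton] at hp
    subst hp
    exact ⟨h2, h3⟩
  refine ⟨cfgOf D c τ q, cfg_adm hS hcX hτ hsm hqm hq0 (fun j h _ => ?_) hK, ?_, cfg_union hqm⟩
  · obtain ⟨Q, h1, _, _, h4⟩ := hq1 j h
    exact ⟨Q, h1, h4⟩
  · rw [cfg_norm hqm]
    exact hcX

end cov

end Pool.Agent.TW37
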