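import Pool.Agent.Helper97.TW.Fin

/-!
# Project TW (MP_e66f84_ag): the rational points of almost all twists

`f ∈ k[x]` separable of odd degree.  If all sections of `y² = c f(x)` agree modulo `2` with the
point at infinity, then every `k`-point `(x₀, y₀)` satisfies `c a (x₀ - θ) ∈ k(θ)²`, `a` the leading
coefficient and `θ` a root of `f`: the numbers `x₀` are the values of a function at the `k`-points
of a fixed curve, which does not depend on `c`.
-/

set_option autoImplicit false
set_option linter.unusedSectionVars false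

namespace Pool.Agent.TW37

open VC Polynomial NumberField Filter Topology Pool.Agent.Helper91.Sect
open Pool.Agent.TW (Lev AgrInf IsRt Xbar Oth)
open Pool.Agent.Helper88.HG (pvr tt)

noncomputable section

/-- `x₀` is the value at a `k`-point of the fixed curve: `x₀ - θ = t z²` with `t ∈ k`,
`z ∈ k(θ) = k[x]/(f)`. -/
def OnCf {k : Type} [Field k] (f : k[X]) (x₀ : k) : Prop :=
  ∃ (t : k) (z : AdjoinRoot f), algebraMap k (AdjoinRoot f) x₀ - AdjoinRoot.root f =
    algebraMap k (AdjoinRoot f) t * z ^ 2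

section lau

variable {k : Type} [Field k] [CharZero k]

open Pool.Agent.Helper88.HG in
/-- the curve at the point `(x₀, y₀)` -/
theorem laurent_pt {f : k[X]} {c x₀ y₀ : k} (hP : y₀ ^ 2 = c * eval x₀ f)
    (hy : y₀ ≠ 0) :
    ∃ x y : LaurentSeries k, Transcendental k x ∧
      y ^ 2 = algebraMap k (LaurentSeries k) c * aeval x f ∧
      (x - algebraMap k (LaurentSeries k) x₀)⁻¹ ∉ pvr k := by
  have hc : c ≠ 0 := by
    rintro rfl
    rw [zero_mul] at hP
    exact hy (pow_eq_zero_iff two_ne_zero |>.1 hP)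
  have he : eval x₀ f ≠ 0 := by
    intro h
    rw [h, mul_zero] at hP
    exact hy (pow_eq_zero_iff two_ne_zero |>.1 hP)
  obtain ⟨w, hw⟩ : ∃ w : k[X], w = C (eval x₀ f)⁻¹ * f.comp (C x₀ + X) := ⟨_, rfl⟩
  have hw1 : PowerSeries.constantCoeff (w : PowerSeries k) = 1 := by
    rw [← PowerSeries.coeff_zero_eq_constantCoeff_apply, coeff_coe, coeff_zero_eq_eval_zero, hw]
    simp only [eval_mul, eval_C, eval_comp, eval_add, eval_X, add_zero]
    exact inv_mul_cancel₀ he
  obtain ⟨u, hu⟩ := exists_sqrt (w : PowerSeries k) hw1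
  have ht0 := tt_ne_zero k
  refine ⟨algebraMap k (LaurentSeries k) x₀ + tt k,
    algebraMap k (LaurentSeries k) y₀ * algebraMap (PowerSeries k) (LaurentSeries k) u, ?_, ?_, ?_⟩
  · intro halg
    apply transcendental_tt k
    have h2 : tt k = (algebraMap k (LaurentSeries k) x₀ + tt k) -
        algebraMap k (LaurentSeries k) x₀ := by ring
    rw [h2]
    exact halg.sub (isAlgebraic_algebraMap _)
  · have h1 : (algebraMap (PowerSeries k) (LaurentSeries k) u) ^ 2 = aeval (tt k) w := by
      rw [← map_pow, hu, coe_aeval]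
    rw [mul_pow, h1, ← map_pow, hP, map_mul, hw, map_mul, aeval_C, aeval_comp, map_add, aeval_C,
      aeval_X]
    have h3 : algebraMap k (LaurentSeries k) (eval x₀ f) *
        algebraMap k (LaurentSeries k) (eval x₀ f)⁻¹ = 1 := by
      rw [← map_mul, mul_inv_cancel₀ he, map_one]
    calc _ = algebraMap k (LaurentSeries k) c * (algebraMap k (LaurentSeries k) (eval x₀ f) *
        algebraMap k (LaurentSeries k) (eval x₀ f)⁻¹) *
          aeval (algebraMap k (LaurentSeries k) x₀ + tt k) f := by ring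
      _ = _ := by rw [h3, mul_one]
  · rw [add_sub_cancel_left]
    rintro ⟨g, hg⟩
    have h1 : algebraMap (PowerSeries k) (LaurentSeries k) (g * PowerSeries.X) =
        algebraMap (PowerSeries k) (LaurentSeries k) 1 := by
      rw [map_mul, hg, map_one]
      exact inv_mul_cancel₀ ht0
    have h2 := IsFractionRing.injective (PowerSeries k) (LaurentSeries k) h1
    have h3 := congrArg PowerSeries.constantCoeff h2
    rw [map_mul, PowerSeries.constantCoeff_X, mul_zero, map_one] at h3
    exact zero_ne_one h3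

end lau

theorem const_one {kb F : Type} [Field kb] [Field F] (P : ValuationSubring F) (j : kb →+* F)
    (hj : ∀ a, j a ∈ P) {a : kb} (ha : a ≠ 0) : P.valuation (j a) = 1 := by
  refine le_antisymm ((P.valuation_le_one_iff _).2 (hj a)) ?_
  have h1 : P.valuation (j a⁻¹) ≤ 1 := (P.valuation_le_one_iff _).2 (hj a⁻¹)
  have h2 : P.valuation (j a) ≠ 0 :=
    (Valuation.ne_zero_iff _).2 (fun h => ha ((_root_.map_eq_zero j).1 h))
  rw [map_inv₀, map_inv₀] at h1
  exact (inv_le_one₀ (zero_lt_iff.2 h2)).1 h1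

theorem eval_mem {kb F : Type} [Field kb] [Field F] (P : ValuationSubring F) (j : kb →+* F)
    (hj : ∀ a, j a ∈ P) {x : F} (hx : x ∈ P) (q : kb[X]) : eval₂ j x q ∈ P := by
  rw [eval₂_eq_sum_range]
  exact P.toSubring.sum_mem fun i _ => P.mul_mem _ _ (hj _) (pow_mem hx i)

/-- the divisor of `x - ρ` on `y² = c g(x)`, `g` of odd degree, is even -/
theorem val_sq {kb F : Type} [Field kb] [Field F] (P : ValuationSubring F) (j : kb →+* F)
    (hj : ∀ a, j a ∈ P) {x y : F} {g : kb[X]} (hg : g.Separable) (hodd : Odd g.natDegree)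
    {c e ρ : kb} (hc : c ≠ 0) (he : e ≠ 0) (hρ : g.eval ρ = 0)
    (hy : y ^ 2 = j c * eval₂ j x g) :
    ∃ z : F, P.valuation (j e * (x - j ρ)) = P.valuation z ^ 2 := by
  have he1 := const_one P j hj he
  have hc1 := const_one P j hj hc
  have hy1 : P.valuation y ^ 2 = P.valuation (eval₂ j x g) := by
    rw [← map_pow, hy, map_mul, hc1, one_mul]
  by_cases hx : x ∈ P
  · have h1 : x - j ρ ∈ P := P.toSubring.sub_mem hx (hj ρ)
    have h2 : P.valuation (x - j ρ) ≤ 1 := (P.valuation_le_one_iff _).2 h1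
    rcases h2.lt_or_eq with h3 | h3
    · obtain ⟨h, hh⟩ := dvd_iff_isRoot.2 hρ
      have h4 : h.eval ρ ≠ 0 := by
        intro h0
        rw [hh] at hg
        obtain ⟨a, b, hab⟩ := hg.isCoprime
        have h5 := congrArg (eval ρ) hab
        rw [eval_add, eval_mul, eval_mul, eval_sub, eval_X, eval_C, sub_self, mul_zero, h0,
          mul_zero, add_zero, eval_one] at h5
        exact zero_ne_one h5
      obtain ⟨q, hq⟩ : X - C ρ ∣ h - C (h.eval ρ) := X_sub_C_dvd_sub_C_eval
      have h5 : eval₂ j x h = (x - j ρ) * eval₂ j x q + j (h.eval ρ) := by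
        have h6 := congrArg (eval₂ j x) hq
        rw [eval₂_sub, eval₂_mul, eval₂_sub, eval₂_X, eval₂_C, eval₂_C] at h6
        rw [← h6]
        ring
      have h6 : P.valuation (eval₂ j x h) = 1 := by
        rw [h5, Valuation.map_add_eq_of_lt_right, const_one P j hj h4]
        rw [const_one P j hj h4, map_mul]
        exact mul_lt_one_of_nonneg_of_lt_one_left zero_le h3
          ((P.valuation_le_one_iff _).2 (eval_mem P j hj hx q))
      refine ⟨y, ?_⟩
      rw [hy1, hh, eval₂_mul, eval₂_sub, eval₂_X, eval₂_C, map_mul, map_mul, h6, he1, one_mul,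
        mul_one]
    · exact ⟨1, by rw [map_mul, he1, h3, map_one, one_pow, mul_one]⟩
  · have hx0 : x ≠ 0 := by
      rintro rfl
      exact hx (zero_mem _)
    have h1 : 1 < P.valuation x := by
      by_contra h
      exact hx ((P.valuation_le_one_iff _).1 (not_lt.1 h))
    have h2 : x⁻¹ ∈ P := (P.mem_or_inv_mem x).resolve_left hx
    have h3 : P.valuation x⁻¹ < 1 := by
      rw [map_inv₀]
      exact inv_lt_one_of_one_lt₀ h1
    obtain ⟨m, hm⟩ := hodd
    have hlc : g.leadingCoeff ≠ 0 := leadingCoeff_ne_zero.2 hg.ne_zero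
    let _ : Invertible x := invertibleOfNonzero hx0
    have h4 := eval₂_reverse_mul_pow j x g
    rw [invOf_eq_inv] at h4
    have h5 : P.valuation (eval₂ j x⁻¹ g.reverse) = 1 := by
      have h6 : eval₂ j x⁻¹ g.reverse = eval₂ j x⁻¹ g.reverse.divX * x⁻¹ + j g.leadingCoeff := by
        conv_lhs => rw [← divX_mul_X_add g.reverse]
        rw [eval₂_add, eval₂_mul, eval₂_X, eval₂_C, coeff_zero_reverse]
      rw [h6, Valuation.map_add_eq_of_lt_right, const_one P j hj hlc]
      rw [const_one P j hj hlc, map_mul]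
      exact mul_lt_one_of_nonneg_of_lt_one_right
        ((P.valuation_le_one_iff _).2 (eval_mem P j hj h2 _)) zero_le h3
    have h6 : P.valuation (x - j ρ) = P.valuation x := by
      rw [sub_eq_add_neg, Valuation.map_add_eq_of_lt_left]
      rw [Valuation.map_neg]
      exact lt_of_le_of_lt ((P.valuation_le_one_iff _).2 (hj ρ)) h1
    have hv0 : P.valuation x ≠ 0 := (Valuation.ne_zero_iff _).2 hx0
    refine ⟨y / x ^ m, ?_⟩
    have h7 : P.valuation (eval₂ j x g) = P.valuation x ^ (2 * m) * P.valuation x := by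
      rw [← h4, map_mul, h5, one_mul, hm, map_pow, pow_succ]
    rw [map_mul, he1, one_mul, h6, map_div₀, map_pow, div_pow, hy1, h7, ← pow_mul, mul_comm m 2,
      mul_div_cancel_left₀ _ (pow_ne_zero _ hv0)]

section K

variable {k K : Type} [Field k] [CharZero k] [Field K] [Algebra k K]

theorem xbar_const (x y : K) {z : AlgebraicClosure K} (hz : IsAlgebraic k z) : z ∈ Xbar k x y :=
  Subfield.subset_closure (Or.inl hz)

theorem xbar_x (x y : K) : algebraMap K (AlgebraicClosure K) x ∈ Xbar k x y :=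
  Subfield.subset_closure (Or.inr (Or.inl rfl))

theorem xbar_y (x y : K) : algebraMap K (AlgebraicClosure K) y ∈ Xbar k x y :=
  Subfield.subset_closure (Or.inr (Or.inr rfl))

/-- the square root of `c a (x - ρ)` is on the level `2` -/
theorem isRt_w {x y : K} {f : k[X]} {c : k} (hc : c ≠ 0) (hsep : f.Separable)
    (hodd : Odd f.natDegree) (hxy : y ^ 2 = algebraMap k K c * aeval x f) {ρ : kbar k K}
    (hρ : aeval ρ f = 0) {w : AlgebraicClosure K}
    (hw : w ^ 2 = algebraMap k (AlgebraicClosure K) (c * f.leadingCoeff) *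
      (algebraMap K (AlgebraicClosure K) x - ρ)) : IsRt k x y 2 w := by
  let j : kbar k K →+* Xbar k x y := ((kbar k K).val : kbar k K →+* AlgebraicClosure K).codRestrict
    (Xbar k x y) (fun z => xbar_const x y (mem_algebraicClosure_iff.1 z.2))
  have hj : ∀ z : kbar k K, ((j z : Xbar k x y) : AlgebraicClosure K) = z := fun z => rfl
  have hlc : f.leadingCoeff ≠ 0 := leadingCoeff_ne_zero.2 hsep.ne_zero
  have hinj : Function.Injective (algebraMap k (kbar k K)) := (algebraMap k (kbar k K)).injective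
  refine ⟨j (algebraMap k (kbar k K) (c * f.leadingCoeff)) * (⟨_, xbar_x x y⟩ - j ρ), ?_,
    fun P hP => ?_⟩
  · rw [hw]
    rfl
  · refine val_sq P j (fun a => hP _ ?_) (y := ⟨_, xbar_y x y⟩) (g := f.map (algebraMap k (kbar k K)))
      (c := algebraMap k (kbar k K) c) hsep.map ?_ ((map_ne_zero_iff _ hinj).2 hc)
      ((map_ne_zero_iff _ hinj).2 (mul_ne_zero hc hlc)) ?_ ?_
    · rw [hj]
      exact mem_algebraicClosure_iff.1 a.2
    · rwa [natDegree_map]
    · rw [eval_map_algebraMap]
      exact hρ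
    · rw [eval₂_map]
      apply Subtype.ext
      have h1 : ((eval₂ (j.comp (algebraMap k (kbar k K))) (⟨_, xbar_x x y⟩ : Xbar k x y) f :
          Xbar k x y) : AlgebraicClosure K) = algebraMap K (AlgebraicClosure K) (aeval x f) := by
        have h2 := hom_eval₂ f (j.comp (algebraMap k (kbar k K))) (Xbar k x y).subtype
          ⟨_, xbar_x x y⟩
        have h3 : (Xbar k x y).subtype.comp (j.comp (algebraMap k (kbar k K))) =
            algebraMap k (AlgebraicClosure K) := by
          ext a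
          rfl
        rw [h3] at h2
        rw [← aeval_algebraMap_apply]
        exact h2
      show algebraMap K (AlgebraicClosure K) y ^ 2 =
        algebraMap k (AlgebraicClosure K) c * ((eval₂ (j.comp (algebraMap k (kbar k K)))
          (⟨_, xbar_x x y⟩ : Xbar k x y) f : Xbar k x y) : AlgebraicClosure K)
      rw [h1, ← map_pow, hxy, map_mul, ← IsScalarTower.algebraMap_apply]

/-- agreement with the point at infinity modulo `2`: the square roots of `c a (x - ρ)` -/
theorem fix_w {x y : K} {f : k[X]} {c : k} (hc : c ≠ 0) (hx : Transcendental k x)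
    (hsep : f.Separable) (hodd : Odd f.natDegree) (hxy : y ^ 2 = algebraMap k K c * aeval x f)
    {s : GaloisSection k K} (hA : AgrInf s x y 2) {ρ : kbar k K}
    (hρ : aeval ρ f = 0) {w : AlgebraicClosure K}
    (hw : w ^ 2 = algebraMap k (AlgebraicClosure K) (c * f.leadingCoeff) *
      (algebraMap K (AlgebraicClosure K) x - ρ)) :
    ∃ hwK : w ∈ Kur k K, ∀ g : Gk k K, g ρ = ρ →
      (s.toHom g ⟨w, hwK⟩ : AlgebraicClosure K) = w := by
  classical
  obtain ⟨W, hWc, hxW, hL⟩ := hA
  have hW : ∀ c : k, algebraMap k (AlgebraicClosure K) c ∈ W := fun c =>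
    hWc _ (isAlgebraic_algebraMap c)
  have hwL : w ∈ Lev k x y 2 :=
    Subfield.subset_closure (Or.inr (isRt_w hc hsep hodd hxy hρ hw))
  obtain ⟨hwK, -⟩ := hL w hwL
  refine ⟨hwK, fun g hg => ?_⟩
  have hx0 : x ≠ 0 := by
    rintro rfl
    exact hx isAlgebraic_zero
  have hlc : f.leadingCoeff ≠ 0 := leadingCoeff_ne_zero.2 hsep.ne_zero
  obtain ⟨m, hm⟩ := hodd
  obtain ⟨e, he⟩ : ∃ e : k, e = c * f.leadingCoeff := ⟨_, rfl⟩
  -- notation
  obtain ⟨xC, hxC⟩ : ∃ xC, xC = algebraMap K (AlgebraicClosure K) x := ⟨_, rfl⟩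
  obtain ⟨yC, hyC⟩ : ∃ yC, yC = algebraMap K (AlgebraicClosure K) y := ⟨_, rfl⟩
  have hxC0 : xC ≠ 0 := by
    rw [hxC]
    exact (_root_.map_ne_zero _).2 hx0
  have hf0x : aeval x f ≠ 0 := by
    intro h
    exact hx ⟨f, hsep.ne_zero, h⟩
  have hy0 : y ≠ 0 := by
    rintro rfl
    rw [zero_pow two_ne_zero, eq_comm] at hxy
    exact mul_ne_zero ((_root_.map_ne_zero _).2 hc) hf0x hxy
  have hyC0 : yC ≠ 0 := by
    rw [hyC]
    exact (_root_.map_ne_zero _).2 hy0
  have hu : W.valuation xC⁻¹ < 1 := by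
    rw [← ValuationSubring.mem_nonunits_iff, ValuationSubring.mem_nonunits_iff_or]
    right
    rw [inv_inv, hxC]
    exact hxW
  have huW : xC⁻¹ ∈ W := (W.valuation_le_one_iff _).1 hu.le
  have hρW : W.valuation (ρ : AlgebraicClosure K) ≤ 1 :=
    (W.valuation_le_one_iff _).2 (const_mem hW (mem_algebraicClosure_iff.1 ρ.2))
  -- the square
  obtain ⟨η, hη⟩ : ∃ η : AlgebraicClosure K, η = w * xC ^ m / yC := ⟨_, rfl⟩
  obtain ⟨R, hR⟩ : ∃ R : AlgebraicClosure K, R = aeval xC⁻¹ f.reverse := ⟨_, rfl⟩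
  have hlcv : W.valuation (algebraMap k (AlgebraicClosure K) f.leadingCoeff) = 1 :=
    const_val_eq_one hW (isAlgebraic_algebraMap _) ((_root_.map_ne_zero _).2 hlc)
  have hRl : W.valuation (R - algebraMap k (AlgebraicClosure K) f.leadingCoeff) < 1 := by
    have h1 : R - algebraMap k (AlgebraicClosure K) f.leadingCoeff =
        xC⁻¹ * aeval xC⁻¹ f.reverse.divX := by
      rw [hR]
      conv_lhs => rw [← divX_mul_X_add f.reverse]
      rw [map_add, map_mul, aeval_X, aeval_C, coeff_zero_reverse]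
      ring
    have h2 : aeval xC⁻¹ f.reverse.divX ∈ W := by
      rw [aeval_eq_sum_range]
      refine W.toSubring.sum_mem fun i _ => ?_
      rw [Algebra.smul_def]
      exact W.mul_mem _ _ (hW _) (pow_mem huW i)
    rw [h1, map_mul]
    exact mul_lt_one_of_nonneg_of_lt_one_left zero_le hu ((W.valuation_le_one_iff _).2 h2)
  have hR1 : W.valuation R = 1 := by
    have h1 : R = (R - algebraMap k (AlgebraicClosure K) f.leadingCoeff) +
      algebraMap k (AlgebraicClosure K) f.leadingCoeff := by ring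
    rw [h1, Valuation.map_add_eq_of_lt_right _ (by rw [hlcv]; exact hRl), hlcv]
  have hR0 : R ≠ 0 := by
    rintro rfl
    rw [map_zero] at hR1
    exact zero_ne_one hR1
  have hfx : yC ^ 2 = algebraMap k (AlgebraicClosure K) c * (xC ^ (2 * m + 1) * R) := by
    have h1 := congrArg (algebraMap K (AlgebraicClosure K)) hxy
    rw [map_pow, map_mul, ← aeval_algebraMap_apply, ← hxC, ← hyC,
      ← IsScalarTower.algebraMap_apply] at h1
    have h2 := Pool.Agent.HG.eval_reverse f hxC0
    rw [← hR, hm] at h2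
    rw [h1, ← h2]
    ring
  have hcC : algebraMap k (AlgebraicClosure K) c ≠ 0 := (_root_.map_ne_zero _).2 hc
  have hη2 : η ^ 2 - 1 = (-(algebraMap k (AlgebraicClosure K) f.leadingCoeff * ρ * xC⁻¹) -
      (R - algebraMap k (AlgebraicClosure K) f.leadingCoeff)) / R := by
    rw [hη, div_pow, mul_pow, hw, hfx, ← hxC, map_mul]
    field_simp
    ring
  have hval : W.valuation (η ^ 2 - 1) < 1 := by
    rw [hη2, map_div₀, hR1, div_one]
    refine lt_of_le_of_lt (Valuation.map_sub _ _ _) (max_lt ?_ hRl)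
    rw [Valuation.map_neg, map_mul, map_mul, hlcv, one_mul]
    exact mul_lt_one_of_nonneg_of_lt_one_right hρW zero_le hu
  have hη1 : ∃ ε : AlgebraicClosure K, (ε = 1 ∨ ε = -1) ∧ W.valuation (η - ε) < 1 := by
    by_contra hcon
    push Not at hcon
    have h1 := hcon 1 (Or.inl rfl)
    have h2 := hcon (-1) (Or.inr rfl)
    have h3 : W.valuation (η ^ 2 - 1) = W.valuation (η - 1) * W.valuation (η - -1) := by
      rw [← map_mul]
      congr 1
      ring
    rw [h3] at hval
    exact absurd hval (not_lt.2 (one_le_mul h1 h2))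
  obtain ⟨ε, hε, hηε⟩ := hη1
  obtain ⟨w', hw'⟩ : ∃ w' : Kur k K, w' = ⟨w, hwK⟩ := ⟨_, rfl⟩
  rw [← hw']
  have hw'c : (w' : AlgebraicClosure K) = w := by rw [hw']
  have hw2 : s.toHom g w' ^ 2 = w' ^ 2 := by
    rw [← map_pow]
    have h1 : w' ^ 2 = algebraMap K (Kur k K) (algebraMap k K e) *
        (algebraMap K (Kur k K) x - toKur k K ρ) := by
      apply Subtype.ext
      rw [he]
      show (w' : AlgebraicClosure K) ^ 2 = _
      rw [hw'c]
      exact hw
    rw [h1, map_mul, map_sub, AlgEquiv.commutes, AlgEquiv.commutes, section_toKur, hg]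
  rcases sq_eq_sq_iff_eq_or_eq_neg.1 hw2 with h | h
  · rw [h, hw'c]
  · exfalso
    have hxK : ((algebraMap K (Kur k K) x : Kur k K) : AlgebraicClosure K) = xC := hxC.symm
    have hyK : ((algebraMap K (Kur k K) y : Kur k K) : AlgebraicClosure K) = yC := hyC.symm
    have hεL : ε ∈ Lev k x y 2 := by
      rcases hε with h | h
      · rw [h]
        exact one_mem _
      · rw [h]
        exact neg_mem (one_mem _)
    have hxL : xC ∈ Lev k x y 2 := by
      rw [hxC]
      exact Subfield.subset_closure (Or.inl (Or.inr (Or.inl rfl)))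
    have hyL : yC ∈ Lev k x y 2 := by
      rw [hyC]
      exact Subfield.subset_closure (Or.inl (Or.inr (Or.inr rfl)))
    have hηL : η - ε ∈ Lev k x y 2 := by
      rw [hη]
      exact sub_mem (div_mem (mul_mem hwL (pow_mem hxL m)) hyL) hεL
    obtain ⟨ε', hε'⟩ : ∃ ε' : Kur k K, (ε' : AlgebraicClosure K) = ε ∧ s.toHom g ε' = ε' := by
      rcases hε with h | h
      · exact ⟨1, by rw [h]; rfl, map_one _⟩
      · exact ⟨-1, by rw [h]; rfl, by rw [map_neg, map_one]⟩
    obtain ⟨η', hη'⟩ : ∃ η' : Kur k K, η' = w' * algebraMap K (Kur k K) x ^ m /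
      algebraMap K (Kur k K) y := ⟨_, rfl⟩
    have hη'c : (η' : AlgebraicClosure K) = η := by
      rw [hη', hη, ← hw'c, ← hxK, ← hyK]
      rfl
    have h1 : s.toHom g η' = -η' := by
      rw [hη', map_div₀, map_mul, map_pow, AlgEquiv.commutes, AlgEquiv.commutes, h]
      ring
    have h3 : W.valuation (-η - ε) < 1 := by
      by_cases h0 : η - ε = 0
      · have h4 : η' = ε' := by
          apply Subtype.ext
          rw [hη'c, hε'.1]
          exact sub_eq_zero.1 h0
        have h5 : (-η - ε) = 0 := by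
          have h6 : s.toHom g η' = ε' := by rw [h4, hε'.2]
          rw [h1] at h6
          have h7 := congrArg (fun z : Kur k K => (z : AlgebraicClosure K)) h6
          have h8 : -η = ε := by
            rw [← hη'c, ← hε'.1]
            exact h7
          rw [h8, sub_self]
        rw [h5, map_zero]
        exact zero_lt_one
      · obtain ⟨h4, h5⟩ := hL (η - ε)⁻¹ (inv_mem hηL)
        have h6 := (h5 g).not
        have h7 : (⟨(η - ε)⁻¹, h4⟩ : Kur k K) = (η' - ε')⁻¹ := by
          apply Subtype.ext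
          show (η - ε)⁻¹ = ((η' : AlgebraicClosure K) - (ε' : AlgebraicClosure K))⁻¹
          rw [hη'c, hε'.1]
        have h8 : ((s.toHom g ⟨(η - ε)⁻¹, h4⟩ : Kur k K) : AlgebraicClosure K) =
            (-η - ε)⁻¹ := by
          rw [h7, map_inv₀, map_sub, h1, hε'.2]
          show (-(η' : AlgebraicClosure K) - (ε' : AlgebraicClosure K))⁻¹ = _
          rw [hη'c, hε'.1]
        rw [h8] at h6
        rw [← ValuationSubring.mem_nonunits_iff, ValuationSubring.mem_nonunits_iff_or]
        right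
        rw [← h6]
        rw [← ValuationSubring.mem_nonunits_iff, ValuationSubring.mem_nonunits_iff_or] at hηε
        exact hηε.resolve_left h0
    have h4 : W.valuation ((η - ε) + (-η - ε)) < 1 :=
      lt_of_le_of_lt (Valuation.map_add _ _ _) (max_lt hηε h3)
    have h5 : (η - ε) + (-η - ε) = -(2 * ε) := by ring
    rw [h5, Valuation.map_neg, map_mul] at h4
    have h6 : W.valuation (2 : AlgebraicClosure K) = 1 := by
      have hch : CharZero K := charZero_of_injective_algebraMap (algebraMap k K).injective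
      have h7 : (2 : AlgebraicClosure K) = algebraMap k (AlgebraicClosure K) 2 := by
        rw [map_ofNat]
      rw [h7]
      exact const_val_eq_one hW (isAlgebraic_algebraMap _)
        ((_root_.map_ne_zero _).2 two_ne_zero)
    have h7 : W.valuation ε = 1 := by
      rcases hε with h | h
      · rw [h, map_one]
      · rw [h, Valuation.map_neg, map_one]
    rw [h6, h7, mul_one] at h4
    exact lt_irrefl _ h4

/-- the value of the square root at a rational point -/
theorem val_pt (V : ValuationSubring K) (hk : ∀ c : k, algebraMap k K c ∈ V)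
    (hres : ∀ z ∈ V, ∃ c : k, V.valuation (z - algebraMap k K c) < 1) {x y : K} {f : k[X]} {c : k}
    (hc : c ≠ 0) (hx : Transcendental k x) (hsep : f.Separable)
    (hodd : Odd f.natDegree) (hxy : y ^ 2 = algebraMap k K c * aeval x f)
    (hA : ∀ s : GaloisSection k K, AgrInf s x y 2) {x₀ : k}
    (hx₀ : V.valuation (x - algebraMap k K x₀) < 1) {ρ : kbar k K} (hρ : aeval ρ f = 0) :
    ∃ d : kbar k K, d ^ 2 = algebraMap k (kbar k K) (c * f.leadingCoeff) *
      (algebraMap k (kbar k K) x₀ - ρ) ∧ ∀ g : Gk k K, g ρ = ρ → g d = d := by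
  classical
  obtain ⟨s, W, hW, hVW, hs⟩ := Pool.Agent.HG.section_of_place' V hk hres
  obtain ⟨e, he⟩ : ∃ e : k, e = c * f.leadingCoeff := ⟨_, rfl⟩
  obtain ⟨w, hw⟩ : ∃ w : AlgebraicClosure K, w ^ 2 =
      algebraMap k (AlgebraicClosure K) (c * f.leadingCoeff) *
      (algebraMap K (AlgebraicClosure K) x - ρ) := IsAlgClosed.exists_pow_nat_eq _ two_pos
  obtain ⟨hwK, hfix⟩ := fix_w hc hx hsep hodd hxy (hA s) hρ hw
  obtain ⟨d₀, hd₀⟩ : ∃ d₀ : kbar k K, d₀ ^ 2 = algebraMap k (kbar k K) (c * f.leadingCoeff) *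
      (algebraMap k (kbar k K) x₀ - ρ) := IsAlgClosed.exists_pow_nat_eq _ two_pos
  have hd₀c : (d₀ : AlgebraicClosure K) ^ 2 =
      algebraMap k (AlgebraicClosure K) (c * f.leadingCoeff) *
        (algebraMap k (AlgebraicClosure K) x₀ - ρ) :=
    congrArg (fun z : kbar k K => (z : AlgebraicClosure K)) hd₀
  have h1 : W.valuation (w ^ 2 - (d₀ : AlgebraicClosure K) ^ 2) < 1 := by
    have h2 : w ^ 2 - (d₀ : AlgebraicClosure K) ^ 2 =
        algebraMap k (AlgebraicClosure K) (c * f.leadingCoeff) *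
        algebraMap K (AlgebraicClosure K) (x - algebraMap k K x₀) := by
      rw [hw, hd₀c, map_sub, ← IsScalarTower.algebraMap_apply]
      ring
    rw [h2, map_mul]
    exact mul_lt_one_of_nonneg_of_lt_one_right ((W.valuation_le_one_iff _).2 (hW _)) zero_le
      (hVW _ hx₀)
  obtain ⟨d, hd, hwd⟩ : ∃ d : kbar k K, d ^ 2 = d₀ ^ 2 ∧
      W.valuation (w - (d : AlgebraicClosure K)) < 1 := by
    by_contra hcon
    push Not at hcon
    have h2 := hcon d₀ rfl
    have h3 := hcon (-d₀) (neg_sq d₀)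
    have h4 : w ^ 2 - (d₀ : AlgebraicClosure K) ^ 2 = (w - (d₀ : AlgebraicClosure K)) *
        (w - ((-d₀ : kbar k K) : AlgebraicClosure K)) := by
      have h5 : ((-d₀ : kbar k K) : AlgebraicClosure K) = -(d₀ : AlgebraicClosure K) := rfl
      rw [h5]
      ring
    rw [h4, map_mul] at h1
    exact absurd h1 (not_lt.2 (one_le_mul h2 h3))
  refine ⟨d, hd.trans hd₀, fun g hg => ?_⟩
  obtain ⟨τ, hτW, hτ⟩ := hs g
  have hτlt : ∀ z, W.valuation z < 1 → W.valuation (τ z) < 1 := by
    intro z hz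
    rw [← ValuationSubring.mem_nonunits_iff, ValuationSubring.mem_nonunits_iff_or] at hz ⊢
    rcases hz with hz | hz
    · left
      rw [hz, map_zero]
    · right
      rw [← map_inv₀, hτW]
      exact hz
  have h2 : τ w = w := (hτ ⟨w, hwK⟩).symm.trans (hfix g hg)
  have h3 : τ (d : AlgebraicClosure K) = ((g d : kbar k K) : AlgebraicClosure K) := by
    rw [← s.isSection g d ⟨d, kbar_mem_Kur d⟩ rfl, hτ]
  have h4 := hτlt _ hwd
  rw [map_sub, h2, h3] at h4
  by_contra hne
  have h5 : ((g d - d : kbar k K) : AlgebraicClosure K) ≠ 0 := by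
    intro h
    exact hne (sub_eq_zero.1 (Subtype.ext h))
  have h6 := const_val_eq_one hW (mem_algebraicClosure_iff.1 (g d - d).2) h5
  have h7 : ((g d - d : kbar k K) : AlgebraicClosure K) = (w - (d : AlgebraicClosure K)) -
      (w - ((g d : kbar k K) : AlgebraicClosure K)) := by
    have h8 : ((g d - d : kbar k K) : AlgebraicClosure K) =
      ((g d : kbar k K) : AlgebraicClosure K) - (d : AlgebraicClosure K) := rfl
    rw [h8]
    ring
  rw [h7] at h6
  have h8 := lt_of_le_of_lt (Valuation.map_sub W.valuation _ _) (max_lt hwd h4)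
  rw [h6] at h8
  exact lt_irrefl _ h8

end K

section final

theorem no_root {k : Type} [Field k] {f : k[X]} (hirr : Irreducible f) (hdeg : 5 ≤ f.natDegree) (x₀ : k) :
    eval x₀ f ≠ 0 := by
  intro h
  have h1 := degree_eq_one_of_irreducible_of_root hirr h
  have h2 : f.natDegree = 1 := natDegree_eq_of_degree_eq_some (by rw [h1]; rfl)
  omega

open IntermediateField in
/-- the elements fixed by the stabiliser of `ρ` are in `k(ρ)` -/
theorem mem_adj {k K : Type} [Field k] [CharZero k] [Field K] [Algebra k K] {d ρ : kbar k K}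
    (h : ∀ g : Gk k K, g ρ = ρ → g d = d) : d ∈ k⟮ρ⟯ := by
  have hG : IsGalois k (kbar k K) := IsAlgClosure.isGalois k _
  rw [← InfiniteGalois.fixedField_fixingSubgroup k⟮ρ⟯]
  rw [IntermediateField.mem_fixedField_iff]
  intro g hg
  exact h g ((mem_fixingSubgroup_iff _ _).1 hg ρ (mem_adjoin_simple_self k ρ))

/-- a separable polynomial: from the irreducible factors -/
theorem crt_sq {k : Type} [Field k] {f q : k[X]} (hsep : f.Separable)
    (h : ∀ g : k[X], Irreducible g → g ∣ f → ∃ p : k[X], g ∣ q - p ^ 2) :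
    ∃ p : k[X], f ∣ q - p ^ 2 := by
  have key : ∀ g : k[X], g ∣ f → ∃ p : k[X], g ∣ q - p ^ 2 := by
    intro g
    induction g using WfDvdMonoid.induction_on_irreducible with
    | zero =>
      intro h0
      exact absurd (zero_dvd_iff.1 h0) hsep.ne_zero
    | unit u hu => exact fun _ => ⟨0, hu.dvd⟩
    | mul a i ha hi ih =>
      intro hdvd
      obtain ⟨p₁, hp₁⟩ := h i hi (dvd_of_mul_right_dvd hdvd)
      obtain ⟨p₂, hp₂⟩ := ih (dvd_of_mul_left_dvd hdvd)
      obtain ⟨u, v, huv⟩ := (hsep.of_dvd hdvd).isCoprime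
      refine ⟨p₁ * (v * a) + p₂ * (u * i), ?_⟩
      refine (hsep.of_dvd hdvd).isCoprime.mul_dvd ?_ ?_
      · have h1 : q - (p₁ * (v * a) + p₂ * (u * i)) ^ 2 = (q - p₁ ^ 2) +
            i * (u * (p₁ - p₂)) * (p₁ + (p₁ * (v * a) + p₂ * (u * i))) := by
          have h2 : v * a = 1 - u * i := by rw [← huv]; ring
          rw [h2]
          ring
        rw [h1]
        exact dvd_add hp₁ (Dvd.intro ((u * (p₁ - p₂)) * (p₁ + (p₁ * (v * a) + p₂ * (u * i)))) (by ring))
      · have h1 : q - (p₁ * (v * a) + p₂ * (u * i)) ^ 2 = (q - p₂ ^ 2) +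
            a * (v * (p₂ - p₁)) * (p₂ + (p₁ * (v * a) + p₂ * (u * i))) := by
          have h2 : u * i = 1 - v * a := by rw [← huv]; ring
          rw [h2]
          ring
        rw [h1]
        exact dvd_add hp₂ (Dvd.intro ((v * (p₂ - p₁)) * (p₂ + (p₁ * (v * a) + p₂ * (u * i)))) (by ring))
  exact key f dvd_rfl

/-- the conclusion for a place of `K` above the rational point -/
theorem pt_gen {k K : Type} [Field k] [CharZero k] [Field K] [Algebra k K] (V : ValuationSubring K)
    (hk : ∀ c : k, algebraMap k K c ∈ V)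
    (hres : ∀ z ∈ V, ∃ c : k, V.valuation (z - algebraMap k K c) < 1) {x y : K} {f : k[X]} {c : k}
    (hc : c ≠ 0) (hx : Transcendental k x) (hsep : f.Separable)
    (hodd : Odd f.natDegree) (hxy : y ^ 2 = algebraMap k K c * aeval x f)
    (hA : ∀ s : GaloisSection k K, AgrInf s x y 2) {x₀ : k}
    (hx₀ : V.valuation (x - algebraMap k K x₀) < 1) :
    ∃ z : AdjoinRoot f, algebraMap k (AdjoinRoot f) (c * f.leadingCoeff) *
      (algebraMap k (AdjoinRoot f) x₀ - AdjoinRoot.root f) = z ^ 2 := by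
  obtain ⟨p, hp⟩ := crt_sq (q := C (c * f.leadingCoeff) * (C x₀ - X)) hsep (by
    intro g hg hgf
    obtain ⟨ρ, hρ⟩ : ∃ ρ : kbar k K, aeval ρ g = 0 :=
      IsAlgClosed.exists_aeval_eq_zero _ g (degree_pos_of_irreducible hg).ne'
    have hρf : aeval ρ f = 0 := by
      obtain ⟨h, rfl⟩ := hgf
      rw [map_mul, hρ, zero_mul]
    obtain ⟨d, hd, hfix⟩ := val_pt V hk hres hc hx hsep hodd hxy hA hx₀ hρf
    have hdm := mem_adj hfix
    have hρi : IsIntegral k ρ := Algebra.IsIntegral.isIntegral ρ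
    rw [← IntermediateField.mem_toSubalgebra,
      IntermediateField.adjoin_simple_toSubalgebra_of_isAlgebraic hρi.isAlgebraic,
      Algebra.adjoin_singleton_eq_range_aeval] at hdm
    obtain ⟨p, hp⟩ := hdm
    refine ⟨p, ?_⟩
    have h1 : aeval ρ (C (c * f.leadingCoeff) * (C x₀ - X) - p ^ 2) = 0 := by
      have hp' : aeval ρ p = d := hp
      rw [map_sub, map_pow, hp', hd, map_mul, map_sub, aeval_C, aeval_C, aeval_X, sub_self]
    have h2 := minpoly.dvd k ρ h1
    rw [← minpoly.eq_of_irreducible hg hρ] at h2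
    exact dvd_of_mul_right_dvd h2)
  refine ⟨AdjoinRoot.mk f p, ?_⟩
  have h1 := AdjoinRoot.mk_eq_zero.2 hp
  rw [map_sub, map_mul, map_sub, map_pow, AdjoinRoot.mk_C, AdjoinRoot.mk_C, AdjoinRoot.mk_X,
    sub_eq_zero] at h1
  exact h1

variable {k : Type} [Field k] [NumberField k]

/-- **The rational points.**  If all sections agree modulo `2` with the point at infinity then for
every `k`-point `(x₀, y₀)`, `y₀ ≠ 0`, the number `c a (x₀ - θ)` is a square in `k[θ]`. -/
theorem pt_sqS {f : k[X]} (hsep : f.Separable) (hodd : Odd f.natDegree)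
    {c : k} (hc : c ≠ 0) (hO : ¬ Oth f 2 c) {x₀ y₀ : k} (hP : y₀ ^ 2 = c * eval x₀ f)
    (hy : y₀ ≠ 0) :
    ∃ z : AdjoinRoot f, algebraMap k (AdjoinRoot f) (c * f.leadingCoeff) *
      (algebraMap k (AdjoinRoot f) x₀ - AdjoinRoot.root f) = z ^ 2 := by
  obtain ⟨x, y, hx, hxy, hxV⟩ := laurent_pt hP hy
  let E := IntermediateField.adjoin k {x, y}
  have hxE : x ∈ E := IntermediateField.subset_adjoin _ _ (by simp)
  have hyE : y ∈ E := IntermediateField.subset_adjoin _ _ (by simp)
  have hcoe : ∀ p : k[X], ((aeval (⟨x, hxE⟩ : E) p : E) : LaurentSeries k) = aeval x p := fun p =>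
    (aeval_algebraMap_apply (LaurentSeries k) (⟨x, hxE⟩ : E) p).symm
  have hx' : Transcendental k (⟨x, hxE⟩ : E) := fun halg =>
    hx (halg.algebraMap (A := LaurentSeries k))
  have hxy' : (⟨y, hyE⟩ : E) ^ 2 = algebraMap k E c * aeval (⟨x, hxE⟩ : E) f := by
    apply Subtype.ext
    show y ^ 2 = algebraMap k (LaurentSeries k) c * ((aeval (⟨x, hxE⟩ : E) f : E) :
      LaurentSeries k)
    rw [hcoe, hxy]
  exact pt_gen ((pvr k).comap (algebraMap E (LaurentSeries k))) (by
        intro c
        rw [ValuationSubring.mem_comap, ← IsScalarTower.algebraMap_apply k E (LaurentSeries k)]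
        exact Pool.Agent.Helper88.HG.pvr_const k c) (by
        intro z hz
        rw [ValuationSubring.mem_comap] at hz
        obtain ⟨c, hc⟩ := Pool.Agent.Helper88.HG.pvr_res k _ hz
        refine ⟨c, ?_⟩
        rw [← ValuationSubring.mem_nonunits_iff, ValuationSubring.mem_nonunits_iff_or] at hc ⊢
        rcases hc with hc | hc
        · left
          apply Subtype.ext
          exact hc
        · right
          rw [ValuationSubring.mem_comap, map_inv₀]
          exact hc) hc hx' hsep hodd hxy' (by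
        intro s
        by_contra hs
        exact hO ⟨E, inferInstance, inferInstance, ⟨x, hxE⟩, ⟨y, hyE⟩, hx', hxy', s, hs⟩)
      (x₀ := x₀) (by
        rw [← ValuationSubring.mem_nonunits_iff, ValuationSubring.mem_nonunits_iff_or]
        right
        rw [ValuationSubring.mem_comap, map_inv₀]
        exact hxV)

theorem y_ne {f : k[X]} (hroot : ∀ x : k, eval x f ≠ 0) {c : k} (hc : c ≠ 0) {x₀ y₀ : k}
    (hP : y₀ ^ 2 = c * eval x₀ f) : y₀ ≠ 0 := by
  rintro rfl
  rw [zero_pow two_ne_zero, eq_comm] at hP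
  exact mul_ne_zero hc (hroot x₀) hP

theorem pt_OnCfS {f : k[X]} (hsep : f.Separable) (hodd : Odd f.natDegree)
    {c : k} (hc : c ≠ 0) (hO : ¬ Oth f 2 c) {x₀ y₀ : k}
    (hP : y₀ ^ 2 = c * eval x₀ f) (hy : y₀ ≠ 0) : OnCf f x₀ := by
  obtain ⟨z, hz⟩ := pt_sqS hsep hodd hc hO hP hy
  have h0 : c * f.leadingCoeff ≠ 0 := mul_ne_zero hc (leadingCoeff_ne_zero.2 hsep.ne_zero)
  refine ⟨(c * f.leadingCoeff)⁻¹, z, ?_⟩
  rw [← hz, ← mul_assoc, ← map_mul, inv_mul_cancel₀ h0, map_one, one_mul]

/-- for almost all `c` all `k`-points come from the fixed curve -/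
theorem rare_ptsS {f : k[X]} (hsep : f.Separable) (hodd : Odd f.natDegree)
    (hroot : ∀ x : k, eval x f ≠ 0) (hR : Pool.Agent.TW.Rare (fun c : k => Oth f 2 c)) :
    Pool.Agent.TW.Rare (fun c : k => ∃ x₀ y₀ : k, y₀ ^ 2 = c * eval x₀ f ∧ ¬ OnCf f x₀) := by
  intro ε hε
  filter_upwards [hR ε hε] with X hX
  intro T hT hTc
  refine hX T hT fun c hc => ?_
  obtain ⟨h1, h2, x₀, y₀, h3, h4⟩ := hTc c hc
  refine ⟨h1, h2, ?_⟩
  by_contra hO
  exact h4 (pt_OnCfS hsep hodd h1 hO h3 (y_ne hroot h1 h3))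

/-- if the fixed curve has finitely many `k`-points then almost no `c` has a `k`-point other than
infinity -/
theorem rare_anyS {f : k[X]} (hsep : f.Separable) (hodd : Odd f.natDegree)
    (hroot : ∀ x : k, eval x f ≠ 0) (hR : Pool.Agent.TW.Rare (fun c : k => Oth f 2 c))
    (hF : {x₀ : k | OnCf f x₀}.Finite) :
    Pool.Agent.TW.Rare (fun c : k => ∃ x₀ y₀ : k, y₀ ^ 2 = c * eval x₀ f) := by
  classical
  intro ε hε
  obtain ⟨M, hM⟩ := exists_nat_gt ((hF.toFinset.card : ℝ) / (ε / 2))
  filter_upwards [rare_ptsS hsep hodd hroot hR (ε / 2) (by positivity), eventually_ge_atTop M]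
    with X hX hXM
  intro T hT hTc
  obtain ⟨T1, hT1⟩ : ∃ T1, T1 = T.filter (fun c => ∃ x₀ y₀ : k, y₀ ^ 2 = c * eval x₀ f ∧
    ¬ OnCf f x₀) := ⟨_, rfl⟩
  obtain ⟨T2, hT2⟩ : ∃ T2, T2 = T.filter (fun c => ¬ ∃ x₀ y₀ : k, y₀ ^ 2 = c * eval x₀ f ∧
    ¬ OnCf f x₀) := ⟨_, rfl⟩
  have hcard : T.card = T1.card + T2.card := by
    rw [hT1, hT2, Finset.card_filter_add_card_filter_not]
  have h1 : (T1.card : ℝ) ≤ ε / 2 * X := by
    refine hX T1 (fun c hc c' hc' => hT c ?_ c' ?_) fun c hc => ?_
    · rw [hT1] at hc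
      exact (Finset.mem_filter.1 hc).1
    · rw [hT1] at hc'
      exact (Finset.mem_filter.1 hc').1
    · rw [hT1] at hc
      obtain ⟨g1, g2⟩ := Finset.mem_filter.1 hc
      exact ⟨(hTc c g1).1, (hTc c g1).2.1, g2⟩
  have h2 : T2.card ≤ hF.toFinset.card := by
    have hch : ∀ c : k, ∃ x₀ : k, c ∈ T2 → OnCf f x₀ ∧ ∃ y₀ : k, y₀ ≠ 0 ∧
        y₀ ^ 2 = c * eval x₀ f := by
      intro c
      by_cases hc : c ∈ T2
      · rw [hT2] at hc
        obtain ⟨g1, g2⟩ := Finset.mem_filter.1 hc
        obtain ⟨g3, _, x₀, y₀, g4⟩ := hTc c g1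
        refine ⟨x₀, fun _ => ⟨?_, y₀, ?_, g4⟩⟩
        · by_contra h
          exact g2 ⟨x₀, y₀, g4, h⟩
        · exact y_ne hroot g3 g4
      · exact ⟨0, fun h => absurd h hc⟩
    choose ξ hξ using hch
    refine Finset.card_le_card_of_injOn ξ ?_ ?_
    · intro c hc
      rw [Finset.mem_coe, Set.Finite.mem_toFinset]
      exact (hξ c (Finset.mem_coe.1 hc)).1
    · intro c hc c' hc' h
      obtain ⟨_, y₁, g1, g2⟩ := hξ c (Finset.mem_coe.1 hc)
      obtain ⟨_, y₂, g3, g4⟩ := hξ c' (Finset.mem_coe.1 hc')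
      have hcT : c ∈ T := by
        have := Finset.mem_coe.1 hc
        rw [hT2] at this
        exact (Finset.mem_filter.1 this).1
      have hcT' : c' ∈ T := by
        have := Finset.mem_coe.1 hc'
        rw [hT2] at this
        exact (Finset.mem_filter.1 this).1
      refine hT c hcT c' hcT' ⟨y₁ / y₂, ?_⟩
      rw [h] at g2
      have g5 : eval (ξ c') f ≠ 0 := by
        intro h0
        rw [h0, mul_zero] at g4
        exact g3 (pow_eq_zero_iff two_ne_zero |>.1 g4)
      rw [div_pow, g2, g4]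
      have hc'0 : c' ≠ 0 := (hTc c' hcT').1
      field_simp
  have hX' : (hF.toFinset.card : ℝ) ≤ ε / 2 * X := by
    rw [div_lt_iff₀ (by positivity)] at hM
    have h3 : (M : ℝ) ≤ X := by exact_mod_cast hXM
    nlinarith
  have h3 : (T2.card : ℝ) ≤ hF.toFinset.card := by exact_mod_cast h2
  rw [hcard]
  push_cast
  linarith

/-- for almost all `c` all `k`-points come from the fixed curve -/
theorem rare_pts {f : k[X]} (hirr : Irreducible f) (hodd : Odd f.natDegree)
    (hdeg : 5 ≤ f.natDegree) (hR : Pool.Agent.TW.Rare (fun c : k => Oth f 2 c)) :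
    Pool.Agent.TW.Rare (fun c : k => ∃ x₀ y₀ : k, y₀ ^ 2 = c * eval x₀ f ∧ ¬ OnCf f x₀) :=
  rare_ptsS hirr.separable hodd (no_root hirr hdeg) hR

/-- if the fixed curve has finitely many `k`-points then almost no `c` has a `k`-point other than
infinity -/
theorem rare_any {f : k[X]} (hirr : Irreducible f) (hodd : Odd f.natDegree)
    (hdeg : 5 ≤ f.natDegree) (hR : Pool.Agent.TW.Rare (fun c : k => Oth f 2 c))
    (hF : {x₀ : k | OnCf f x₀}.Finite) :
    Pool.Agent.TW.Rare (fun c : k => ∃ x₀ y₀ : k, y₀ ^ 2 = c * eval x₀ f) :=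
  rare_anyS hirr.separable hodd (no_root hirr hdeg) hR hF

end final

end

end Pool.Agent.TW37
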