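import Mathlib
import Pool.Agent.Helper37.TW.T8
import Pool.Agent.Helper10.UL.ThinOne

/-!
# Good places exist outside a thin set (the form used for the twists)
-/

universe u

namespace Pool.Agent.TW

open UL

theorem thin_places {F k C : Type u} [Field F] [CharZero F] [Field k] [Algebra F k] [Field C]
    [Algebra k C] [IsAlgClosure k C] {T : k} (hT : Transcendental F T)
    [FiniteDimensional (IntermediateField.adjoin F {T}) k] {m : ℕ} (hm : 1 ≤ m) (B : Finset C)
    (hB : ∀ b ∈ B, b ∉ Set.range (algebraMap k C)) (U0 : Finset C) (hU0 : 0 ∉ U0) :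
    IsThin {a : Fin (m + 1) → F | ¬ ∃ W : ValuationSubring C, W ≠ ⊤ ∧
      (∀ c : F, algebraMap k C (algebraMap F k c) ∈ W) ∧ (∀ u ∈ U0, W.valuation u = 1) ∧
      algebraMap k C (∑ i, algebraMap F k (a i) * T ^ (i : ℕ)) ∈ W.nonunits ∧
      (∀ z : k, z ≠ 0 → ∃ i : ℤ, W.valuation (algebraMap k C z) =
        W.valuation (algebraMap k C (∑ i, algebraMap F k (a i) * T ^ (i : ℕ))) ^ i) ∧
      ∀ b ∈ B, ∃ γ : C ≃ₐ[k] C, (∀ z, γ z ∈ W ↔ z ∈ W) ∧ γ b ≠ b} := by
  let _ : Algebra F C := ((algebraMap k C).comp (algebraMap F k)).toAlgebra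
  have h1 : IsScalarTower F k C := IsScalarTower.of_algebraMap_eq fun _ => rfl
  have h2 : IsAlgClosed C := IsAlgClosure.isAlgClosed k
  have h3 : Algebra.IsAlgebraic k C := IsAlgClosure.isAlgebraic
  refine (_root_.TW.thin_places (Ω := C) hT hm B hB U0 (fun u hu h => hU0 (h ▸ hu))).mono ?_
  intro a ha hW
  apply ha
  obtain ⟨W, τ, hb, hU, hv0, hv, hd, hB'⟩ := hW
  refine ⟨W, ?_, fun c => ?_, hU, (W.mem_nonunits_iff).2 hv, hd, hB'⟩
  · rintro rfl
    have h4 : (⊤ : ValuationSubring C).valuation (algebraMap k C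
        (∑ i, algebraMap F k (a i) * T ^ (i : ℕ)))⁻¹ ≤ 1 :=
      (ValuationSubring.valuation_le_one_iff _ _).2 trivial
    rw [map_inv₀] at h4
    have h5 : (0 : (⊤ : ValuationSubring C).ValueGroup) <
        (⊤ : ValuationSubring C).valuation (algebraMap k C
          (∑ i, algebraMap F k (a i) * T ^ (i : ℕ))) :=
      zero_lt_iff.2 ((Valuation.ne_zero_iff _).2 ((_root_.map_ne_zero _).2 hv0))
    exact absurd hv (not_lt.2 ((inv_le_one₀ h5).1 h4))
  · exact hb.const (algebraMap F (algebraicClosure F C) c)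

end Pool.Agent.TW
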