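import Pool.Agent.Helper37.TW.Top
import Pool.Agent.Helper97.HG2.CountN
import Pool.Agent.Helper97.TW.Defs

/-!
# Project TW (MP_e66f84_ag), counting theorem: the sum of the weights
-/

set_option autoImplicit false
set_option maxHeartbeats 1000000

namespace Pool.Agent.TW37

open Filter Topology Pool.Agent.Helper99.HG Pool.Agent.HG Pool.Agent.Helper97.HG2
open Pool.Agent.TW (WJt TBt)

variable {k : ℕ} {G : Type}

open Classical in
/-- the weight of a prime of scale `κ` -/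
noncomputable def WK (D : CD k G) (K : Fin k → ℕ) (κ : ℕ) (t : D.P → Fin k → D.ι → G)
    (p : D.P) : ℝ :=
  ∑ o ∈ (D.V p).filter (fun o => D.cmp o ∈ Js K κ ∧ ∀ j ∉ Js K κ, ∀ i ∈ D.I p o j,
    t p j i = D.g p o i), (1 / 2 : ℝ) ^ (∑ j ∈ Js K (κ + 2), (D.I p o j).card)

theorem WK_nonneg (D : CD k G) (K : Fin k → ℕ) (κ : ℕ) (t : D.P → Fin k → D.ι → G) (p : D.P) :
    0 ≤ WK D K κ t p := Finset.sum_nonneg fun o _ => by positivity

open Classical in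
theorem WK_card {D : CD k G} {K : Fin k → ℕ} {κ n : ℕ} {t : D.P → Fin k → D.ι → G} {p : D.P}
    (h : (D.V p).card ≤ n) : WK D K κ t p ≤ n := by
  unfold WK
  calc _ ≤ ∑ o ∈ (D.V p).filter (fun o => D.cmp o ∈ Js K κ ∧ ∀ j ∉ Js K κ, ∀ i ∈ D.I p o j,
        t p j i = D.g p o i), (1 : ℝ) :=
        Finset.sum_le_sum fun o _ => pow_le_one₀ (by norm_num) (by norm_num)
    _ = ((D.V p).filter (fun o => D.cmp o ∈ Js K κ ∧ ∀ j ∉ Js K κ, ∀ i ∈ D.I p o j,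
        t p j i = D.g p o i)).card := by simp
    _ ≤ n := by exact_mod_cast (Finset.card_filter_le _ _).trans h

theorem SA_eq (D : CD k G) (z : ℕ → ℕ) (N X : ℕ) (K : Fin k → ℕ) (κ : ℕ)
    (t : D.P → Fin k → D.ι → G) : SA D z N X K κ t =
      open Classical in ∑ p ∈ (pr D X).filter (fun p => p ∉ D.Ex ∧ sc z N (D.nm p) = κ),
        WK D K κ t p / D.nm p := rfl

section DK

variable {D : CD k G} {j₀ : Fin k} {os : D.P → D.O} {z : ℕ → ℕ} {N : ℕ} {K : Fin k → ℕ} {κ : ℕ}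
  {t : D.P → Fin k → D.ι → G} {p : D.P}

theorem DK_WK_le {K₀ : ℕ} (hV : ∀ p, (D.V p).card ≤ K₀) :
    WK (DK D j₀ os z N K) K κ t p ≤ K₀ := by
  refine WK_card ?_
  refine le_trans ?_ (hV p)
  exact Finset.card_le_card (DK_V_sub (D := D) (j₀ := j₀) (os := os) (z := z) (N := N) (K := K) p)

theorem DK_WK_one (hp : sc z N (D.nm p) = κ) (h : Js K κ = {j₀}) :
    WK (DK D j₀ os z N K) K κ t p ≤ 1 := by
  classical
  have h1 : ((DK D j₀ os z N K).V p).card ≤ 1 := by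
    rw [DK_V_pos (by rw [hp]; exact h)]
    refine Finset.card_le_one.mpr ?_
    intro a ha b hb
    exact (Finset.mem_filter.mp ha).2.trans (Finset.mem_filter.mp hb).2.symm
  have h2 := WK_card (D := DK D j₀ os z N K) (K := K) (κ := κ) (t := t) h1
  rwa [Nat.cast_one] at h2

theorem DK_WK_reg (hp : sc z N (D.nm p) = κ) (h : ¬ Js K κ = {j₀}) (hreg : Js K κ = Js K (κ + 2)) :
    WK (DK D j₀ os z N K) K κ t p = WJt D (Js K κ) (t p) p := by
  classical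
  have h' : ¬ Js K (sc z N (D.nm p)) = {j₀} := by rwa [hp]
  unfold WK WJt
  refine Finset.sum_congr ?_ fun o _ => ?_
  · ext o
    simp only [Finset.mem_filter, if_neg h']
  · rw [← hreg]
    congr 1
    refine Finset.sum_congr rfl fun j _ => ?_
    rw [DK_I_neg h']

end DK

/-- the bound for the sum of the weights at one scale -/
theorem sum_sc {D : CD k G} (hS : Sys D.P D.nm) {K₀ : ℕ} (hV : ∀ p, (D.V p).card ≤ K₀) (j₀ : Fin k) (os : D.P → D.O)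
    {PB : Finset (Fin k) → Prop} {δ CB CM : ℝ}
    (hδ0 : 0 ≤ δ) (hδ : δ ≤ 1) (hCB : 0 ≤ CB) (hCM : 0 ≤ CM)
    (hTB : ∀ J, PB J → ∀ y x : ℕ, 2 ≤ y → y ≤ x → ∀ t : D.P → Fin k → D.ι → G, ∀ S : Finset D.P,
      (∀ p, p ∈ S ↔ p ∉ D.Ex ∧ y < D.nm p ∧ D.nm p ≤ x) →
      ∑ p ∈ S, WJt D J (t p) p / D.nm p ≤ (1 - δ) * (Real.log (Real.log x) - Real.log (Real.log y)) + CB)
    (hMe : ∀ y x : ℕ, 2 ≤ y → y ≤ x → ∀ S : Finset D.P, (∀ p ∈ S, y < D.nm p ∧ D.nm p ≤ x) →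
      ∑ p ∈ S, (1 : ℝ) / D.nm p ≤ Real.log (Real.log x) - Real.log (Real.log y) + CM)
    {N X : ℕ} (hN : 0 < N) (hX : 3 ≤ X) (K : Fin k → ℕ) {κ : ℕ} (hκN : κ < N)
    (hK : Js K κ = {j₀} ∨ PB (Js K κ))
    {κ₀ : ℕ} (hK0 : κ < κ₀ → Js K κ ≠ {j₀}) (t : D.P → Fin k → D.ι → G) :
    SA (DK D j₀ os (zz N X) N K) (zz N X) N X K κ t ≤
      (1 - δ) * (Real.log (Real.log X) / N) + (if κ₀ ≤ κ then δ * (Real.log (Real.log X) / N) else 0) +
      (if Js K κ ≠ Js K (κ + 2) then K₀ * (Real.log (Real.log X) / N) else 0) +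
        ((Real.log 4 + CB) + (K₀ + 1) * (Real.log 4 + CM) + K₀ * (pr D 2).card) := by
  classical
  obtain ⟨z, hz⟩ : ∃ z, z = zz N X := ⟨_, rfl⟩
  rw [← hz]
  obtain ⟨W, hWdef⟩ : ∃ W : D.P → ℝ, W = fun p => WK (DK D j₀ os z N K) K κ t p := ⟨_, rfl⟩
  have hW0 : ∀ p, 0 ≤ W p := fun p => by
    rw [hWdef]
    exact WK_nonneg (DK D j₀ os z N K) K κ t p
  have hWl : ∀ p, W p ≤ K₀ := fun p => by
    rw [hWdef]
    exact DK_WK_le hV
  have hW1 : ∀ p, sc z N (D.nm p) = κ → Js K κ = {j₀} → W p ≤ 1 := fun p h1 h2 => by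
    rw [hWdef]
    exact DK_WK_one h1 h2
  have hWr : ∀ p, sc z N (D.nm p) = κ → ¬ Js K κ = {j₀} → Js K κ = Js K (κ + 2) →
      W p = WJt D (Js K κ) (t p) p := fun p h1 h2 h3 => by
    rw [hWdef]
    exact DK_WK_reg h1 h2 h3
  have hSA : SA (DK D j₀ os z N K) z N X K κ t =
      ∑ p ∈ (pr D X).filter (fun p => p ∉ D.Ex ∧ sc z N (D.nm p) = κ), W p / D.nm p := by
    rw [hWdef]
    rfl
  rw [hSA]
  obtain ⟨ℓ, hℓ⟩ : ∃ ℓ, ℓ = Real.log (Real.log X) := ⟨_, rfl⟩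
  rw [← hℓ]
  have hℓ0 : 0 ≤ ℓ := by
    rw [hℓ]
    exact Real.log_nonneg (log_ge_one hX)
  have hl4 : 0 ≤ Real.log 4 := Real.log_nonneg (by norm_num)
  have hN' : (0 : ℝ) < N := by exact_mod_cast hN
  have hnm : ∀ p, (1 : ℝ) ≤ D.nm p := fun p => by
    have := hS.two p
    exact_mod_cast (by omega : 1 ≤ D.nm p)
  obtain ⟨R, hR⟩ : ∃ R : Finset D.P, R = (pr D X).filter fun p => p ∉ D.Ex ∧ sc z N (D.nm p) = κ ∧ z κ < D.nm p :=
    ⟨_, rfl⟩
  have hpt : ∑ p ∈ (pr D X).filter (fun p => p ∉ D.Ex ∧ sc z N (D.nm p) = κ), W p / D.nm p ≤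
      ∑ p ∈ R, W p / D.nm p + K₀ * (pr D 2).card := by
    have h1 : (pr D X).filter (fun p => p ∉ D.Ex ∧ sc z N (D.nm p) = κ) ⊆ R ∪ pr D 2 := by
      intro p hp
      obtain ⟨g1, g2, g3⟩ := Finset.mem_filter.mp hp
      by_cases h2 : D.nm p ≤ 2
      · exact Finset.mem_union_right _ ((mem_pr hS).mpr h2)
      · refine Finset.mem_union_left _ ?_
        rw [hR]
        refine Finset.mem_filter.mpr ⟨g1, g2, g3, ?_⟩
        by_cases h0 : κ = 0
        · rw [h0, hz, zz_zero]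
          omega
        · rw [← g3]
          exact sc_pos (by omega)
    have h2 : ∀ p, 0 ≤ W p / D.nm p := fun p => div_nonneg (hW0 p) (by linarith [hnm p])
    refine (Finset.sum_le_sum_of_subset_of_nonneg h1 fun p _ _ => h2 p).trans ?_
    have h7 : ∑ p ∈ R ∪ pr D 2, W p / D.nm p ≤ ∑ p ∈ R, W p / D.nm p + ∑ p ∈ pr D 2, W p / D.nm p := by
      rw [← Finset.sum_union_inter]
      have := Finset.sum_nonneg fun p (_ : p ∈ R ∩ pr D 2) => h2 p
      linarith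
    refine h7.trans ?_
    refine add_le_add le_rfl ?_
    have h3 : ∀ p ∈ pr D 2, W p / D.nm p ≤ K₀ := by
      intro p _
      have h4 := hnm p
      have h5 := hWl p
      have h6 := hW0 p
      rw [div_le_iff₀ (by linarith)]
      nlinarith
    refine (Finset.sum_le_sum h3).trans (le_of_eq ?_)
    rw [Finset.sum_const, nsmul_eq_mul, mul_comm]
  refine hpt.trans ?_
  obtain ⟨T, hT⟩ : ∃ T : Finset D.P, T = (pr D (z (κ + 1))).filter (fun p => p ∉ D.Ex ∧ z κ < D.nm p) :=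
    ⟨_, rfl⟩
  have hRT : R ⊆ T := by
    intro p hp
    rw [hR] at hp
    obtain ⟨h1, h2, h3, h4⟩ := Finset.mem_filter.mp hp
    rw [hT]
    refine Finset.mem_filter.mpr ⟨(mem_pr hS).mpr ?_, h2, h4⟩
    rcases Nat.lt_or_ge (κ + 1) N with h5 | h5
    · exact sc_le (z := z) (N := N) (k := κ + 1) (by omega) (by omega)
    · have h6 : κ + 1 = N := by omega
      rw [h6, hz, zz_top hN hX]
      exact (mem_pr hS).mp h1
  have hTm : ∀ p, p ∈ T ↔ p ∉ D.Ex ∧ z κ < D.nm p ∧ D.nm p ≤ z (κ + 1) := by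
    intro p
    rw [hT, Finset.mem_filter, mem_pr hS]
    tauto
  have hRs : ∀ p ∈ R, sc z N (D.nm p) = κ := by
    intro p hp
    rw [hR] at hp
    exact (Finset.mem_filter.mp hp).2.2.1
  have hd := ll_diff hN hX hκN
  rw [← hz, ← hℓ] at hd
  have hzκ : 2 ≤ z κ := by
    rw [hz]
    exact zz_two hX
  have hzm : z κ ≤ z (κ + 1) := by
    rw [hz]
    exact zz_mono hX (Nat.le_succ κ)
  have hd0 : 0 ≤ ℓ / N := by positivity
  have hK0' : (0 : ℝ) ≤ K₀ := Nat.cast_nonneg _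
  have hd1 : 0 ≤ (1 - δ) * (ℓ / N) := mul_nonneg (by linarith) hd0
  have hd2 : 0 ≤ δ * (ℓ / N) := mul_nonneg hδ0 hd0
  have hi1 : (0 : ℝ) ≤ if κ₀ ≤ κ then δ * (ℓ / N) else 0 := by split_ifs <;> linarith
  have hi2 : (0 : ℝ) ≤ if Js K κ ≠ Js K (κ + 2) then K₀ * (ℓ / N) else 0 := by
    have := mul_nonneg hK0' hd0
    split_ifs <;> linarith
  have hc1 : 0 ≤ Real.log 4 + CM := by linarith
  have hc2 : 0 ≤ (K₀ : ℝ) * (Real.log 4 + CM) := mul_nonneg hK0' hc1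
  have hc3 : ((K₀ : ℝ) + 1) * (Real.log 4 + CM) = K₀ * (Real.log 4 + CM) + (Real.log 4 + CM) := by ring
  by_cases hj : Js K κ = {j₀}
  · have h0 : κ₀ ≤ κ := by
      by_contra hlt
      exact hK0 (by omega) hj
    have h1 : ∑ p ∈ R, W p / D.nm p ≤ ∑ p ∈ R, (1 : ℝ) / D.nm p := by
      refine Finset.sum_le_sum fun p hp => ?_
      exact div_le_div_of_nonneg_right (hW1 p (hRs p hp) hj) (by linarith [hnm p])
    have h2 := hMe (z κ) (z (κ + 1)) hzκ hzm R (fun p hp => ((hTm p).mp (hRT hp)).2)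
    have h3 : (1 - δ) * (ℓ / N) + (if κ₀ ≤ κ then δ * (ℓ / N) else 0) = ℓ / N := by
      rw [if_pos h0]
      ring
    rw [h3, hc3]
    linarith
  by_cases hreg : Js K κ ≠ Js K (κ + 2)
  · rw [if_pos hreg]
    have h1 : ∑ p ∈ R, W p / D.nm p ≤ ∑ p ∈ R, K₀ * ((1 : ℝ) / D.nm p) := by
      refine Finset.sum_le_sum fun p _ => ?_
      rw [mul_one_div]
      exact div_le_div_of_nonneg_right (hWl p) (by linarith [hnm p])
    rw [← Finset.mul_sum] at h1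
    have h2 := hMe (z κ) (z (κ + 1)) hzκ hzm R (fun p hp => ((hTm p).mp (hRT hp)).2)
    have h3 : K₀ * ∑ p ∈ R, (1 : ℝ) / D.nm p ≤ K₀ * (ℓ / N + Real.log 4 + CM) := mul_le_mul_of_nonneg_left (by linarith) hK0'
    have h5 : 0 ≤ Real.log 4 + CB := by linarith
    rw [hc3]
    have h6 : K₀ * (ℓ / N + Real.log 4 + CM) = K₀ * (ℓ / N) + K₀ * (Real.log 4 + CM) := by ring
    linarith
  · rw [if_neg hreg]
    push Not at hreg
    have hPB : PB (Js K κ) := hK.resolve_left hj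
    have h1 : ∑ p ∈ R, W p / D.nm p = ∑ p ∈ R, WJt D (Js K κ) (t p) p / D.nm p := by
      refine Finset.sum_congr rfl fun p hp => ?_
      rw [hWr p (hRs p hp) hj hreg]
    have hWJ0 : ∀ p, 0 ≤ WJt D (Js K κ) (t p) p := fun p => Finset.sum_nonneg fun o _ => by positivity
    have h2 : ∑ p ∈ R, WJt D (Js K κ) (t p) p / D.nm p ≤ ∑ p ∈ T, WJt D (Js K κ) (t p) p / D.nm p :=
      Finset.sum_le_sum_of_subset_of_nonneg hRT fun p _ _ => div_nonneg (hWJ0 p) (by linarith [hnm p])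
    have h3 := hTB _ hPB (z κ) (z (κ + 1)) hzκ hzm t T hTm
    have h4 : (1 - δ) * (Real.log (Real.log (z (κ + 1))) - Real.log (Real.log (z κ))) ≤ (1 - δ) * (ℓ / N + Real.log 4) :=
      mul_le_mul_of_nonneg_left hd (by linarith)
    have h5 : (1 - δ) * Real.log 4 ≤ Real.log 4 := by nlinarith
    rw [h1, hc3]
    linarith

/-- the sum of the bounds over the scales -/
theorem sum_bd {δ ℓ c K₀ : ℝ} {N κ₀ : ℕ} (hN : 0 < N) (hκ₀ : κ₀ ≤ N) (K : Fin k → ℕ)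
    (hK₀ : 0 ≤ K₀) (hℓ : 0 ≤ ℓ) :
    ∑ κ ∈ Finset.range N, ((1 - δ) * (ℓ / N) + (if κ₀ ≤ κ then δ * (ℓ / N) else 0) +
      (if Js K κ ≠ Js K (κ + 2) then K₀ * (ℓ / N) else 0) + c) ≤
      N * c + ((1 - δ * (κ₀ / N)) + 2 * k * K₀ / N) * ℓ := by
  have hN' : (0 : ℝ) < N := by exact_mod_cast hN
  rw [Finset.sum_add_distrib, Finset.sum_add_distrib, Finset.sum_add_distrib, Finset.sum_const, Finset.sum_const, Finset.card_range,
    nsmul_eq_mul, nsmul_eq_mul, ← Finset.sum_filter, ← Finset.sum_filter, Finset.sum_const, Finset.sum_const, nsmul_eq_mul, nsmul_eq_mul]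
  have hirr : (((Finset.range N).filter fun κ => Js K κ ≠ Js K (κ + 2)).card : ℝ) ≤ 2 * k := by exact_mod_cast irr_card K N
  have h7 : (((Finset.range N).filter fun κ => Js K κ ≠ Js K (κ + 2)).card : ℝ) * (K₀ * (ℓ / N)) ≤ 2 * k * (K₀ * (ℓ / N)) :=
    mul_le_mul_of_nonneg_right hirr (by positivity)
  have hcut : (((Finset.range N).filter fun κ => κ₀ ≤ κ).card : ℝ) = N - κ₀ := by
    have e : (Finset.range N).filter (fun κ => κ₀ ≤ κ) = Finset.Ico κ₀ N := by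
      ext κ
      rw [Finset.mem_filter, Finset.mem_range, Finset.mem_Ico]
      tauto
    rw [e, Nat.card_Ico, Nat.cast_sub hκ₀]
  rw [hcut]
  have h8 : (N : ℝ) * ((1 - δ) * (ℓ / N)) + (N - κ₀) * (δ * (ℓ / N)) = (1 - δ * (κ₀ / N)) * ℓ := by
    field_simp
    ring
  have h9 : ((1 - δ * ((κ₀ : ℝ) / N)) + 2 * k * K₀ / N) * ℓ = (1 - δ * (κ₀ / N)) * ℓ + 2 * k * (K₀ * (ℓ / N)) := by ring
  rw [h9, ← h8]
  linarith

/-- uniform constants for the components of the second kind -/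
theorem unif_Bt (D : CD k G) : ∃ δ C : ℝ, 0 < δ ∧ δ ≤ 1 ∧ 0 ≤ C ∧ ∀ J, TBt D J → ∀ y x : ℕ, 2 ≤ y → y ≤ x →
    ∀ t : D.P → Fin k → D.ι → G, ∀ S : Finset D.P, (∀ p, p ∈ S ↔ p ∉ D.Ex ∧ y < D.nm p ∧ D.nm p ≤ x) →
      ∑ p ∈ S, WJt D J (t p) p / D.nm p ≤ (1 - δ) * (Real.log (Real.log x) - Real.log (Real.log y)) + C := by
  classical
  have ll : ∀ y x : ℕ, 2 ≤ y → y ≤ x → Real.log (Real.log y) ≤ Real.log (Real.log x) := fun y x hy h =>
    Real.log_le_log (Real.log_pos (by exact_mod_cast (by omega : 1 < y)))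
      (Real.log_le_log (by exact_mod_cast (by omega : 0 < y)) (by exact_mod_cast h))
  have h : ∀ J : Finset (Fin k), ∃ δ C : ℝ, 0 < δ ∧ δ ≤ 1 ∧ 0 ≤ C ∧ (TBt D J → ∀ y x : ℕ, 2 ≤ y → y ≤ x →
      ∀ t : D.P → Fin k → D.ι → G, ∀ S : Finset D.P, (∀ p, p ∈ S ↔ p ∉ D.Ex ∧ y < D.nm p ∧ D.nm p ≤ x) →
      ∑ p ∈ S, WJt D J (t p) p / D.nm p ≤ (1 - δ) * (Real.log (Real.log x) - Real.log (Real.log y)) + C) := by
    intro J
    by_cases hJ : TBt D J
    · obtain ⟨_, δ, C, h1, h2⟩ := id hJ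
      refine ⟨min δ 1, |C|, lt_min h1 one_pos, min_le_right _ _, abs_nonneg C, fun _ y x hy hx t S hS => ?_⟩
      have h3 := h2 y x hy hx t S hS
      have h4 := ll y x hy hx
      have h5 : (1 - δ) * (Real.log (Real.log x) - Real.log (Real.log y)) ≤ (1 - min δ 1) * (Real.log (Real.log x) - Real.log (Real.log y)) :=
        mul_le_mul_of_nonneg_right (by linarith [min_le_left δ 1]) (by linarith)
      linarith [le_abs_self C]
    · exact ⟨1, 0, one_pos, le_rfl, le_rfl, fun h => absurd h hJ⟩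
  choose δ C h1 h2 h3 h4 using h
  refine ⟨∏ J, δ J, ∑ J, C J, Finset.prod_pos fun J _ => h1 J, Finset.prod_le_one (fun J _ => (h1 J).le) fun J _ => h2 J,
    Finset.sum_nonneg fun J _ => h3 J, fun J hJ y x hy hx t S hS => ?_⟩
  have h5 := h4 J hJ y x hy hx t S hS
  have h6 : ∏ J, δ J ≤ δ J := by
    rw [← Finset.mul_prod_erase Finset.univ δ (Finset.mem_univ J)]
    have : ∏ J ∈ Finset.univ.erase J, δ J ≤ 1 := Finset.prod_le_one (fun J _ => (h1 J).le) fun J _ => h2 J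
    nlinarith [h1 J]
  have h7 : C J ≤ ∑ J, C J := Finset.single_le_sum (fun J _ => h3 J) (Finset.mem_univ J)
  have h8 := ll y x hy hx
  have h9 : (1 - δ J) * (Real.log (Real.log x) - Real.log (Real.log y)) ≤ (1 - ∏ J, δ J) * (Real.log (Real.log x) - Real.log (Real.log y)) :=
    mul_le_mul_of_nonneg_right (by linarith) (by linarith)
  linarith

end Pool.Agent.TW37
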